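import Pool.Agent.Lib.MP_1a91b9_ntT3.CU.Defs

/-!
# CU, job BADV: additive reduction

Adapt EF/Bad.lean (`Bad_local` and `locPoly_bad`). PROOF (complete).
* `localPolynomial_add`: the minimal model is C • W, c₄ = u⁻⁴ c₄(W) = 0 so no multiplicative reduction; good reduction would give
  v(u⁻¹² Δ(W)) = 1, v(u)^12 = v(Δ(W)), excluded by h with t = u.
* `locPoly_add`: transfer of the hypothesis from w.valuation F to the valuation of the valuation ring, as in `locPoly_bad`
  (there with t ^ 2 / (1 + 3 o); here with t ^ 12 / Δ).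
* `locPoly_tw3_ram`: c₄ W = 0 (`tw3_c₄`, `variableChange_c₄`), Δ(tw3) = u⁻¹² Δ(W) = (1 + 3ω)² d⁴ (`tw3_delta`). If γ^12 = v(Δ W) then
  (γ/v(u))^12 = v(1+3ω)² v(d)⁴, v(1 + 3 ω) = 1 as 1 + 3 ω = `vp` is not in v, so ((γ/v(u))³)⁴ = v(d)⁴, so (γ/v(u))³ = v(d), excluded.
* `locPoly_tw3_pi`: (γ/v(u))^12 = v(1+3ω)² v(d)⁴ gives (γ/v(u))^6 = v(1+3ω) v(d)², v(1+3ω) = ((γ/v(u))³ / v(d))², excluded.
-/

set_option autoImplicit false

namespace Pool.Agent.Lib.MP_1a91b9_ntT3.CU

open NumberField IsDedekindDomain Polynomial WithZero Pool.Agent.Lib.MP_1a91b9_nt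
open Pool.Agent.Lib.MP_1a91b9_ntT Pool.Agent.Lib.MP_1a91b9_ntT3.EF

theorem localPolynomial_add (R : Type*) [CommRing R] [IsDomain R] [IsDiscreteValuationRing R]
    {L : Type*} [Field L] [Algebra R L] [IsFractionRing R L] (W : WeierstrassCurve L)
    (h4 : W.c₄ = 0)
    (h : ∀ t : L, (IsDiscreteValuationRing.maximalIdeal R).valuation L t ^ 12 ≠
      (IsDiscreteValuationRing.maximalIdeal R).valuation L W.Δ) :
    W.localPolynomial R = 1 := by
  classical
  set v := (IsDiscreteValuationRing.maximalIdeal R).valuation L with hv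
  obtain ⟨C, hC⟩ : ∃ C : WeierstrassCurve.VariableChange L,
    W.minimal R = C • W := ⟨_, rfl⟩
  have hc4 : (W.minimal R).c₄ = 0 := by
    rw [hC, WeierstrassCurve.variableChange_c₄, h4, mul_zero]
  have hmult : ¬ (W.minimal R).HasMultiplicativeReduction R := by
    intro hm
    have := hm.multiplicativeReduction
    rw [hc4, map_zero] at this
    exact zero_ne_one this
  have hsplit : ¬ (W.minimal R).HasSplitMultiplicativeReduction R := fun hm =>
    hmult hm.toHasMultiplicativeReduction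
  have hgood : ¬ (W.minimal R).HasGoodReduction R := by
    intro hg
    have h1 := hg.goodReduction
    rw [hC, WeierstrassCurve.variableChange_Δ] at h1
    set u : L := (C.u : L) with hu
    have hu0 : u ≠ 0 := C.u.ne_zero
    have hui : ((C.u⁻¹ : Lˣ) : L) = u⁻¹ := by rw [hu, Units.val_inv_eq_inv_val]
    rw [hui] at h1
    have hvu : v u ≠ 0 := (Valuation.ne_zero_iff v).mpr hu0
    have h2 : v u ^ 12 = v W.Δ := by
      have e : v (u⁻¹ ^ 12 * W.Δ) = (v u ^ 12)⁻¹ * v W.Δ := by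
        rw [map_mul, map_pow, map_inv₀, inv_pow]
      rw [e] at h1
      rw [inv_mul_eq_one₀ (pow_ne_zero _ hvu)] at h1
      exact h1
    exact h u h2
  unfold WeierstrassCurve.localPolynomial
  simp only [hgood, hmult, hsplit, if_false]

section
variable {F : Type*} [Field F] [NumberField F]

theorem locPoly_add (W : WeierstrassCurve F) (h4 : W.c₄ = 0) (w : HeightOneSpectrum (𝓞 F))
    (h : ∀ γ : ℤᵐ⁰, γ ^ 12 ≠ w.valuation F W.Δ) : locPoly W w = 1 := by
  unfold locPoly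
  set R := w.adicCompletionIntegers F
  set v := (IsDiscreteValuationRing.maximalIdeal R).valuation (w.adicCompletion F) with hv
  have hc : (W.baseChange (w.adicCompletion F)).c₄ = 0 := by
    rw [WeierstrassCurve.baseChange, WeierstrassCurve.map_c₄, h4, map_zero]
  have hΔ : (W.baseChange (w.adicCompletion F)).Δ =
      algebraMap F (w.adicCompletion F) W.Δ := by
    rw [WeierstrassCurve.baseChange, WeierstrassCurve.map_Δ]
  set D := algebraMap F (w.adicCompletion F) W.Δ with hD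
  have hval : (Valued.v D : ℤᵐ⁰) = w.valuation F W.Δ := by
    rw [← valued_algebraMap w, hD]
  refine localPolynomial_add R _ hc ?_
  rw [hΔ]
  intro t ht
  have h30 : D ≠ 0 := by
    intro h0
    rw [h0, map_zero] at hval
    exact h 0 (by rw [← hval]; exact zero_pow (by norm_num))
  have ht1 : v (t ^ 12 / D) = 1 := by
    rw [map_div₀, map_pow, ht, div_self]
    exact (Valuation.ne_zero_iff v).mpr h30
  have ht2 : v ((t ^ 12 / D)⁻¹) = 1 := by rw [map_inv₀, ht1, inv_one]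
  obtain ⟨a, ha⟩ := IsDiscreteValuationRing.exists_lift_of_le_one (A := R) ht1.le
  obtain ⟨b, hb⟩ := IsDiscreteValuationRing.exists_lift_of_le_one (A := R) ht2.le
  have ha1 : Valued.v (t ^ 12 / D) ≤ (1 : ℤᵐ⁰) := by rw [← ha]; exact a.2
  have hb1 : Valued.v ((t ^ 12 / D)⁻¹) ≤ (1 : ℤᵐ⁰) := by rw [← hb]; exact b.2
  have hne : (Valued.v D : ℤᵐ⁰) ≠ 0 := (Valuation.ne_zero_iff _).mpr h30
  have h0 : (Valued.v (t ^ 12 / D) : ℤᵐ⁰) ≠ 0 := by
    intro h0
    rw [Valuation.zero_iff] at h0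
    rw [h0, map_zero] at ht1
    exact zero_ne_one ht1
  have h1 : (Valued.v (t ^ 12 / D) : ℤᵐ⁰) = 1 := by
    refine le_antisymm ha1 ?_
    rw [map_inv₀] at hb1
    exact (inv_le_one₀ (zero_lt_iff.mpr h0)).mp hb1
  rw [map_div₀, map_pow, div_eq_one_iff_eq hne, hval] at h1
  exact h _ h1

variable [Algebra K F]

private theorem badv_vp : algebraMap K F (vp : K) = 1 + 3 * algebraMap K F om := by
  have h1 : (vp : K) = 1 + 3 * om := by
    change algebraMap (𝓞 K) K vp = 1 + 3 * om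
    unfold vp
    rw [map_add, map_mul, map_one, map_ofNat]
    rfl
  rw [h1, map_add, map_mul, map_one, map_ofNat]

private theorem badv_inv (W : WeierstrassCurve F) (d : F)
    (C : WeierstrassCurve.VariableChange F) (hC : C • W = tw3 F d) :
    W.c₄ = 0 ∧ ((C.u⁻¹ : Fˣ) : F) ^ 12 * W.Δ = (1 + 3 * algebraMap K F om) ^ 2 * d ^ 4 := by
  constructor
  · have h1 := congrArg WeierstrassCurve.c₄ hC
    rw [tw3_c₄, WeierstrassCurve.variableChange_c₄, mul_eq_zero] at h1
    exact h1.resolve_left (pow_ne_zero _ (C.u⁻¹).ne_zero)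
  · have h1 := congrArg WeierstrassCurve.Δ hC
    rw [tw3_delta, WeierstrassCurve.variableChange_Δ] at h1
    exact h1

theorem locPoly_tw3_ram (W : WeierstrassCurve F) (d : F)
    (C : WeierstrassCurve.VariableChange F) (hC : C • W = tw3 F d)
    (w : HeightOneSpectrum (𝓞 F)) (hv : algebraMap (𝓞 K) (𝓞 F) vp ∉ w.asIdeal)
    (h : ∀ γ : ℤᵐ⁰, γ ^ 3 ≠ w.valuation F d) : locPoly W w = 1 := by
  have hvp := badv_vp (F := F)
  obtain ⟨hc, hΔ⟩ := badv_inv W d C hC
  refine locPoly_add W hc w fun γ hγ => ?_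
  have hu : w.valuation F ((C.u⁻¹ : Fˣ) : F) ≠ 0 :=
    (Valuation.ne_zero_iff _).mpr (C.u⁻¹).ne_zero
  have h1 : (w.valuation F ((C.u⁻¹ : Fˣ) : F) * γ) ^ 12 =
      w.valuation F (algebraMap K F (vp : K)) ^ 2 * w.valuation F d ^ 4 := by
    rw [mul_pow, hγ, ← map_pow, ← map_mul, hΔ, hvp, map_mul, map_pow, map_pow]
  have hv1 : w.valuation F (algebraMap K F (vp : K)) = 1 := by
    have e : algebraMap K F (vp : K) = algebraMap (𝓞 F) F (algebraMap (𝓞 K) (𝓞 F) vp) := by
      rfl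
    rw [e, HeightOneSpectrum.valuation_of_algebraMap]
    exact HeightOneSpectrum.intValuation_eq_one_iff.mpr hv
  rw [hv1, one_pow, one_mul] at h1
  have h2 : ((w.valuation F ((C.u⁻¹ : Fˣ) : F) * γ) ^ 3) ^ 4 = w.valuation F d ^ 4 := by
    rw [← pow_mul]
    exact h1
  exact h _ ((pow_left_inj₀ (zero_le) (zero_le) (by norm_num)).mp h2)

theorem locPoly_tw3_pi (W : WeierstrassCurve F) (d : F) (hd : d ≠ 0)
    (C : WeierstrassCurve.VariableChange F) (hC : C • W = tw3 F d)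
    (w : HeightOneSpectrum (𝓞 F))
    (h : ∀ γ : ℤᵐ⁰, γ ^ 2 ≠ w.valuation F (algebraMap K F (vp : K))) : locPoly W w = 1 := by
  have hvp := badv_vp (F := F)
  obtain ⟨hc, hΔ⟩ := badv_inv W d C hC
  refine locPoly_add W hc w fun γ hγ => ?_
  have h1 : (w.valuation F ((C.u⁻¹ : Fˣ) : F) * γ) ^ 12 =
      w.valuation F (algebraMap K F (vp : K)) ^ 2 * w.valuation F d ^ 4 := by
    rw [mul_pow, hγ, ← map_pow, ← map_mul, hΔ, hvp, map_mul, map_pow, map_pow]
  have hd0 : w.valuation F d ≠ 0 := (Valuation.ne_zero_iff _).mpr hd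
  have h2 : ((w.valuation F ((C.u⁻¹ : Fˣ) : F) * γ) ^ 6) ^ 2 =
      (w.valuation F (algebraMap K F (vp : K)) * w.valuation F d ^ 2) ^ 2 := by
    rw [← pow_mul, mul_pow (w.valuation F (algebraMap K F (vp : K))), ← pow_mul]
    exact h1
  have h3 : (w.valuation F ((C.u⁻¹ : Fˣ) : F) * γ) ^ 6 =
      w.valuation F (algebraMap K F (vp : K)) * w.valuation F d ^ 2 :=
    (pow_left_inj₀ (zero_le) (zero_le) (by norm_num)).mp h2
  apply h ((w.valuation F ((C.u⁻¹ : Fˣ) : F) * γ) ^ 3 / w.valuation F d)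
  rw [div_pow, ← pow_mul, div_eq_iff (pow_ne_zero 2 hd0)]
  exact h3

end

end Pool.Agent.Lib.MP_1a91b9_ntT3.CU
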