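import Pool.Agent.Lib.MP_1a91b9_ntT3.CU.Defs

/-!
# CU, job AS2: the number of points of `y² + y = g x³ + u` over a field with `4 ^ f` elements

k has characteristic 2, f odd, u² + u + 1 = 0, g ≠ 0. For c in k put χ(c) = #{y : y² + y = c} - 1, which is 1 or -1
(`TWO_fiber` in EF/Two.lean, private: copy it), and χ(a + b) = χ(a) χ(b) (`DY.exists_as_iff` in MP_1a91b9_ntT/DY/Two.lean),
χ(u) = -1 (`TWO_not_as` in EF/Two.lean, copy), χ(c²) = χ(c) (c² = y² + y with y = s² if c = s² + s; c = (y + c)² + (y + c) if ...: c² = y² + y gives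
c = (y + c)^2 + (y + c)... or: χ(c² + c) = 1 so χ(c²) χ(c) = 1). ∑_c χ(c) = 0 (χ is a nontrivial character, translate by u).
The number to compute is ∑_x (1 + χ(g x³ + u)) = 4^f - S(g), S(g) := ∑_x χ(g x³).
(1) S(g) = S(g d³) for d ≠ 0. S(g²) = S(g): χ(g x³) = χ(g² (x²)³) and x ↦ x² is bijective.
(2) 3 divides 4^f - 1; the cubes in kˣ are the elements with g^((4^f-1)/3) = 1, each is the cube of exactly 3 elements.
    Let n be a non-cube (exists). ∑_x χ(x³) + ∑_x χ(n x³) + ∑_x χ(n² x³) = 3 + 3 ∑_{y ≠ 0} χ(y) = 3 - 3 = 0 (every y ≠ 0 is in exactly one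
    of the classes of 1, n, n²). With (1): S(1) = -2 S(n), and S(g) = S(n) for every non-cube g (g is n or n² times a cube), S(g) = S(1)
    for every cube.
(3) ∑_{g ≠ 0} S(g)² = ∑_{x,y} ∑_{g ≠ 0} χ(g (x³ - y³)) = ∑_{x,y} (q [x³ = y³] - 1) = q (1 + 3 (q-1)) - q² = 2 q (q - 1), q = 4^f. By (2) it is
    (q-1)/3 * (S(1)² + 2 S(n)²) = (q-1)/3 * (6 S(n)²): S(n)² = q, S(n) = ± 2^f, S(1) = -2 S(n).
(4) S(1) = 1 + 3 ∑_{c a nonzero cube} χ(c), so S(1) = 1 modulo 3; 2^(f+1) = 1 modulo 3 since f + 1 is even: S(1) = 2^(f+1), S(n) = -2^f.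
-/

set_option autoImplicit false

namespace Pool.Agent.Lib.MP_1a91b9_ntT3.CU

/-- the trace to the field with two elements -/
def AS2_tr {k : Type*} [CommRing k] (n : ℕ) (x : k) : k := ∑ i ∈ Finset.range n, x ^ 2 ^ i

section
variable {k : Type*} [Field k] [Fintype k] [DecidableEq k] (n : ℕ)

theorem AS2_char (hk : Fintype.card k = 2 ^ n) : CharP k 2 := by
  obtain ⟨p, hp⟩ := CharP.exists k
  obtain ⟨m, hpp, hn⟩ := FiniteField.card k p
  have h1 : p ∣ 2 ^ n := by
    rw [← hk, hn]
    exact dvd_pow_self p m.pos.ne'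
  have h2 : p ∣ 2 := hpp.dvd_of_dvd_pow h1
  have h3 : p = 2 := (Nat.prime_dvd_prime_iff_eq hpp Nat.prime_two).1 h2
  rwa [h3] at hp

theorem AS2_add [CharP k 2] (x y : k) : AS2_tr n (x + y) = AS2_tr n x + AS2_tr n y := by
  haveI : Fact (Nat.Prime 2) := ⟨Nat.prime_two⟩
  unfold AS2_tr
  rw [← Finset.sum_add_distrib]
  exact Finset.sum_congr rfl fun i _ => add_pow_char_pow x y 2 i

theorem AS2_zero : AS2_tr n (0 : k) = 0 := by
  unfold AS2_tr
  refine Finset.sum_eq_zero fun i _ => zero_pow (pow_pos (by norm_num) i).ne'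

theorem AS2_frob (hk : Fintype.card k = 2 ^ n) (x : k) : AS2_tr n (x ^ 2) = AS2_tr n x := by
  unfold AS2_tr
  have h1 : ∀ i, (x ^ 2) ^ 2 ^ i = x ^ 2 ^ (i + 1) := fun i => by
    rw [← pow_mul, ← pow_succ']
  simp only [h1]
  have h2 := Finset.sum_range_succ' (fun i => x ^ 2 ^ i) n
  have h3 := Finset.sum_range_succ (fun i => x ^ 2 ^ i) n
  have h4 : x ^ 2 ^ n = x := by rw [← hk]; exact FiniteField.pow_card x
  simp only [h4, pow_zero, pow_one] at h2 h3
  rw [h3] at h2
  exact (add_right_cancel h2).symm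

theorem AS2_sq [CharP k 2] (hk : Fintype.card k = 2 ^ n) (x : k) : AS2_tr n x ^ 2 = AS2_tr n x := by
  haveI : Fact (Nat.Prime 2) := ⟨Nat.prime_two⟩
  conv_rhs => rw [← AS2_frob n hk x]
  unfold AS2_tr
  rw [sum_pow_char]
  refine Finset.sum_congr rfl fun i _ => ?_
  rw [← pow_mul, ← pow_mul, mul_comm]

theorem AS2_cases [CharP k 2] (hk : Fintype.card k = 2 ^ n) (x : k) :
    AS2_tr n x = 0 ∨ AS2_tr n x = 1 := by
  have h := AS2_sq n hk x
  have h1 : AS2_tr n x * (AS2_tr n x - 1) = 0 := by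
    linear_combination h
  rcases mul_eq_zero.1 h1 with h2 | h2
  · exact Or.inl h2
  · exact Or.inr (sub_eq_zero.1 h2)

open Polynomial in
/-- The trace polynomial minus a constant. -/
noncomputable def AS2_pol (k : Type*) [Field k] (f : ℕ) (j : k) : k[X] :=
  (∑ i ∈ Finset.range f, X ^ 2 ^ i) - C j

open Polynomial in
theorem AS2_pol_eval (j x : k) : (AS2_pol k n j).eval x = AS2_tr n x - j := by
  simp [AS2_pol, AS2_tr, eval_finsetSum]

open Polynomial in
theorem AS2_pol_monic (f : ℕ) (j : k) : (AS2_pol k (f + 1) j).Monic ∧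
    (AS2_pol k (f + 1) j).natDegree = 2 ^ f := by
  have h1 : (∑ i ∈ Finset.range f, (X : k[X]) ^ 2 ^ i).degree < ((2 ^ f : ℕ) : WithBot ℕ) := by
    refine lt_of_le_of_lt (degree_sum_le _ _) ?_
    rw [Finset.sup_lt_iff (WithBot.bot_lt_coe _)]
    intro i hi
    rw [degree_X_pow]
    exact_mod_cast Nat.pow_lt_pow_right (by norm_num) (Finset.mem_range.1 hi)
  have h2 : (∑ i ∈ Finset.range f, (X : k[X]) ^ 2 ^ i - C j).degree < ((2 ^ f : ℕ) : WithBot ℕ) := by
    refine lt_of_le_of_lt (degree_sub_le _ _) (max_lt h1 ?_)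
    refine lt_of_le_of_lt degree_C_le ?_
    exact_mod_cast pow_pos (by norm_num : 0 < 2) f
  have h3 : AS2_pol k (f + 1) j = X ^ 2 ^ f + (∑ i ∈ Finset.range f, X ^ 2 ^ i - C j) := by
    rw [AS2_pol, Finset.sum_range_succ]; ring
  rw [h3]
  refine ⟨monic_X_pow_add h2, ?_⟩
  rw [natDegree_add_eq_left_of_degree_lt, natDegree_X_pow]
  rw [degree_X_pow]
  exact h2

open Polynomial in
theorem AS2_le (f : ℕ) (j : k) :
    (Finset.univ.filter fun u : k => AS2_tr (f + 1) u = j).card ≤ 2 ^ f := by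
  obtain ⟨h1, h2⟩ := AS2_pol_monic f j
  rw [← h2]
  have h3 : (Finset.univ.filter fun u : k => AS2_tr (f + 1) u = j) ⊆
      (AS2_pol k (f + 1) j).roots.toFinset := by
    intro u hu
    rw [Finset.mem_filter] at hu
    rw [Multiset.mem_toFinset, mem_roots h1.ne_zero, IsRoot.def, AS2_pol_eval, hu.2, sub_self]
  exact (Finset.card_le_card h3).trans ((Multiset.toFinset_card_le _).trans (card_roots' _))

theorem AS2_card [CharP k 2] (f : ℕ) (hk : Fintype.card k = 2 ^ (f + 1)) (j : k)
    (hj : j = 0 ∨ j = 1) :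
    (Finset.univ.filter fun u : k => AS2_tr (f + 1) u = j).card = 2 ^ f := by
  have h0 := AS2_le f (0 : k)
  have h1 := AS2_le f (1 : k)
  have h3 : (Finset.univ : Finset k) ⊆ (Finset.univ.filter fun u : k => AS2_tr (f + 1) u = 0) ∪
      (Finset.univ.filter fun u : k => AS2_tr (f + 1) u = 1) := by
    intro u _
    simp only [Finset.mem_union, Finset.mem_filter, Finset.mem_univ, true_and]
    exact AS2_cases (f + 1) hk u
  have h4 := (Finset.card_le_card h3).trans (Finset.card_union_le _ _)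
  rw [Finset.card_univ, hk, pow_succ] at h4
  rcases hj with rfl | rfl <;> omega

/-- The additive character. -/
noncomputable def AS2_chi (n : ℕ) (c : k) : ℤ := if AS2_tr n c = 0 then 1 else -1

theorem AS2_two [CharP k 2] : (1 : k) + 1 = 0 := by
  have := CharP.cast_eq_zero k 2
  push_cast at this
  linear_combination this

theorem AS2_chi_add [CharP k 2] (hk : Fintype.card k = 2 ^ n) (a b : k) :
    AS2_chi n (a + b) = AS2_chi n a * AS2_chi n b := by
  unfold AS2_chi
  rw [AS2_add]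
  rcases AS2_cases n hk a with ha | ha <;> rcases AS2_cases n hk b with hb | hb <;>
    rw [ha, hb]
  · simp
  · simp
  · simp
  · rw [AS2_two]; simp

theorem AS2_chi_zero : AS2_chi n (0 : k) = 1 := by
  unfold AS2_chi
  rw [AS2_zero, if_pos rfl]

theorem AS2_chi_sq (hk : Fintype.card k = 2 ^ n) (x : k) : AS2_chi n (x ^ 2) = AS2_chi n x := by
  unfold AS2_chi
  rw [AS2_frob n hk]

theorem AS2_chi_sum [CharP k 2] (f : ℕ) (hk : Fintype.card k = 2 ^ (f + 1)) :
    ∑ c : k, AS2_chi (f + 1) c = 0 := by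
  unfold AS2_chi
  rw [Finset.sum_ite, Finset.sum_const, Finset.sum_const, AS2_card f hk (0 : k) (Or.inl rfl)]
  have h1 : (Finset.univ.filter fun u : k => ¬ AS2_tr (f + 1) u = 0) =
      (Finset.univ.filter fun u : k => AS2_tr (f + 1) u = 1) := by
    refine Finset.filter_congr fun u _ => ?_
    rcases AS2_cases (f + 1) hk u with h | h <;> rw [h] <;> simp
  rw [h1, AS2_card f hk (1 : k) (Or.inr rfl)]
  simp

theorem AS2_chi_sum_mul [CharP k 2] (f : ℕ) (hk : Fintype.card k = 2 ^ (f + 1)) (a : k) :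
    ∑ c : k, AS2_chi (f + 1) (c * a) = if a = 0 then (2 : ℤ) ^ (f + 1) else 0 := by
  by_cases ha : a = 0
  · rw [if_pos ha, ha]
    simp only [mul_zero, AS2_chi_zero, Finset.sum_const, Finset.card_univ, hk]
    simp
  · rw [if_neg ha, ← AS2_chi_sum f hk]
    exact Finset.sum_bij' (fun c _ => c * a) (fun d _ => d / a) (fun _ _ => Finset.mem_univ _)
      (fun _ _ => Finset.mem_univ _) (fun c _ => mul_div_cancel_right₀ c ha)
      (fun d _ => div_mul_cancel₀ d ha) (fun _ _ => rfl)

/-- The number of solutions of `y² + y = c`. -/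
theorem AS2_fib [CharP k 2] (f : ℕ) (hk : Fintype.card k = 2 ^ (f + 1)) (c : k) :
    ((Finset.univ.filter fun y : k => y ^ 2 + y = c).card : ℤ) = 1 + AS2_chi (f + 1) c := by
  have h1 : ∀ y : k, AS2_tr (f + 1) (y ^ 2 + y) = 0 := by
    intro y
    rw [AS2_add, AS2_frob (f + 1) hk]
    linear_combination AS2_tr (f + 1) y * (AS2_two (k := k))
  have hT := AS2_card f hk (0 : k) (Or.inl rfl)
  set Z := Finset.univ.filter (fun u : k => AS2_tr (f + 1) u = 0) with hZ
  have hmaps : ∀ y ∈ (Finset.univ : Finset k), y ^ 2 + y ∈ Z := by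
    intro y _
    rw [hZ, Finset.mem_filter]
    exact ⟨Finset.mem_univ _, h1 y⟩
  have hfle : ∀ u ∈ Z, (Finset.univ.filter fun y : k => y ^ 2 + y = u).card ≤ 2 := by
    intro u _
    by_cases he : (Finset.univ.filter fun y : k => y ^ 2 + y = u).Nonempty
    · obtain ⟨x0, hx0⟩ := he
      have hx0' := (Finset.mem_filter.1 hx0).2
      have hsub : (Finset.univ.filter fun y : k => y ^ 2 + y = u) ⊆ {x0, x0 + 1} := by
        intro x hx
        have hx' := (Finset.mem_filter.1 hx).2
        have h2 : (x - x0) * (x - (x0 + 1)) = 0 := by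
          linear_combination hx' - hx0' + (x0 ^ 2 + x0 - x - x * x0) * (AS2_two (k := k))
        simp only [Finset.mem_insert, Finset.mem_singleton]
        rcases mul_eq_zero.1 h2 with h | h
        · left; exact sub_eq_zero.1 h
        · right; exact sub_eq_zero.1 h
      exact (Finset.card_le_card hsub).trans Finset.card_le_two
    · rw [Finset.not_nonempty_iff_eq_empty.1 he]; simp
  have htot : ∑ u ∈ Z, (Finset.univ.filter fun y : k => y ^ 2 + y = u).card = 2 ^ (f + 1) := by
    rw [← hk, ← Finset.card_univ]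
    exact (Finset.card_eq_sum_card_fiberwise hmaps).symm
  have hfeq : ∀ u ∈ Z, (Finset.univ.filter fun y : k => y ^ 2 + y = u).card = 2 := by
    have h5 : ∑ u ∈ Z, (Finset.univ.filter fun y : k => y ^ 2 + y = u).card = ∑ u ∈ Z, 2 := by
      rw [htot, Finset.sum_const, hT, pow_succ]; rfl
    exact (Finset.sum_eq_sum_iff_of_le hfle).1 h5
  unfold AS2_chi
  by_cases hc : AS2_tr (f + 1) c = 0
  · rw [if_pos hc, hfeq c (by rw [hZ, Finset.mem_filter]; exact ⟨Finset.mem_univ _, hc⟩)]
    norm_num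
  · rw [if_neg hc]
    have : (Finset.univ.filter fun y : k => y ^ 2 + y = c) = ∅ := by
      rw [Finset.filter_eq_empty_iff]
      intro y _ hy
      exact hc (hy ▸ h1 y)
    rw [this]; simp

/-- The cubic sum. -/
noncomputable def AS2_S (n : ℕ) (g : k) : ℤ := ∑ x : k, AS2_chi n (g * x ^ 3)

theorem AS2_S_cube (g d : k) (hd : d ≠ 0) : AS2_S n (g * d ^ 3) = AS2_S n g := by
  unfold AS2_S
  refine Finset.sum_bij' (fun x _ => d * x) (fun x _ => x / d) (fun _ _ => Finset.mem_univ _)
      (fun _ _ => Finset.mem_univ _) (fun c _ => mul_div_cancel_left₀ c hd)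
      (fun x _ => mul_div_cancel₀ x hd) ?_
  intro x _
  ring_nf

theorem AS2_S_sq (hk : Fintype.card k = 2 ^ n) [CharP k 2] (g : k) :
    AS2_S n (g ^ 2) = AS2_S n g := by
  haveI : Fact (Nat.Prime 2) := ⟨Nat.prime_two⟩
  unfold AS2_S
  have hb : Function.Bijective (fun x : k => x ^ 2) :=
    (Finite.injective_iff_bijective).1 (frobenius_inj k 2)
  rw [← hb.sum_comp (fun x => AS2_chi n (g ^ 2 * x ^ 3))]
  refine Finset.sum_congr rfl fun x _ => ?_
  rw [← AS2_chi_sq n hk (g * x ^ 3)]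
  ring_nf

theorem AS2_S_zero (hk : Fintype.card k = 2 ^ n) : AS2_S n (0 : k) = 2 ^ n := by
  unfold AS2_S
  simp only [zero_mul, AS2_chi_zero, Finset.sum_const, Finset.card_univ, hk]
  simp

theorem AS2_sum1 [CharP k 2] (f : ℕ) (hk : Fintype.card k = 2 ^ (f + 1)) :
    ∑ g ∈ (Finset.univ : Finset k).erase 0, AS2_S (f + 1) g = 0 := by
  have h1 := Finset.add_sum_erase Finset.univ (AS2_S (f + 1)) (Finset.mem_univ (0 : k))
  have h2 : ∑ g : k, AS2_S (f + 1) g = 2 ^ (f + 1) := by
    unfold AS2_S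
    rw [Finset.sum_comm]
    simp only [AS2_chi_sum_mul f hk]
    rw [Finset.sum_congr rfl (g := fun x : k => if x = 0 then (2 : ℤ) ^ (f + 1) else 0)]
    · rw [Finset.sum_ite_eq' Finset.univ (0 : k)]; simp
    · intro x _
      by_cases hx : x = 0
      · rw [if_pos hx, if_pos (by rw [hx]; simp)]
      · rw [if_neg hx, if_neg (pow_ne_zero 3 hx)]
  rw [h2, AS2_S_zero (f + 1) hk] at h1
  linarith

/-- Fibres of the cube map. -/
theorem AS2_fib3 [CharP k 2] (u : k) (hu : u ^ 2 + u + 1 = 0) (y : k) (hy : y ≠ 0) :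
    (Finset.univ.filter fun x : k => x ^ 3 = y ^ 3).card = 3 := by
  have h2 := AS2_two (k := k)
  have hu0 : u ≠ 0 := by
    intro h; rw [h] at hu; simp at hu
  have hu1 : u ≠ 1 := by
    intro h; rw [h] at hu
    have h3 : (1 : k) = 0 := by linear_combination hu - h2
    exact one_ne_zero h3
  have hset : (Finset.univ.filter fun x : k => x ^ 3 = y ^ 3) = {y, u * y, u ^ 2 * y} := by
    ext x
    simp only [Finset.mem_filter, Finset.mem_univ, true_and, Finset.mem_insert,
      Finset.mem_singleton]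
    constructor
    · intro h
      have h3 : (x - y) * ((x - u * y) * (x - u ^ 2 * y)) = 0 := by
        linear_combination h + (-u ^ 2 * y ^ 2 * x + u ^ 3 * y ^ 3 * 0 - x ^ 2 * y * 0) * 0 +
          (-x ^ 2 * y + x * y ^ 2 + (u - 1) * (x * y ^ 2 - y ^ 3)) * hu
      rcases mul_eq_zero.1 h3 with h4 | h4
      · left; exact sub_eq_zero.1 h4
      · rcases mul_eq_zero.1 h4 with h5 | h5
        · right; left; exact sub_eq_zero.1 h5
        · right; right; exact sub_eq_zero.1 h5
    · have hu3 : u ^ 3 = 1 := by linear_combination (u - 1) * hu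
      rintro (rfl | rfl | rfl)
      · rfl
      · rw [mul_pow, hu3, one_mul]
      · rw [mul_pow, ← pow_mul, mul_comm 2 3, pow_mul, hu3, one_pow, one_mul]
  rw [hset]
  have e1 : y ≠ u * y := by
    intro h
    have : (1 - u) * y = 0 := by linear_combination h
    rcases mul_eq_zero.1 this with h3 | h3
    · exact hu1 (sub_eq_zero.1 h3).symm
    · exact hy h3
  have e2 : y ≠ u ^ 2 * y := by
    intro h
    have : (1 - u ^ 2) * y = 0 := by linear_combination h
    rcases mul_eq_zero.1 this with h3 | h3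
    · have h4 : (1 : k) - u ^ 2 = u := by linear_combination -hu + h2
      exact hu0 (h4.symm.trans h3)
    · exact hy h3
  have e3 : u * y ≠ u ^ 2 * y := by
    intro h
    have : u * ((1 - u) * y) = 0 := by linear_combination h
    rcases mul_eq_zero.1 this with h3 | h3
    · exact hu0 h3
    · rcases mul_eq_zero.1 h3 with h4 | h4
      · exact hu1 (sub_eq_zero.1 h4).symm
      · exact hy h4
  rw [Finset.card_insert_of_notMem, Finset.card_insert_of_notMem, Finset.card_singleton]
  · simpa using e3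
  · simp only [Finset.mem_insert, Finset.mem_singleton, not_or]
    exact ⟨e1, e2⟩

theorem AS2_sum2 [CharP k 2] (f : ℕ) (hk : Fintype.card k = 2 ^ (f + 1)) (u : k)
    (hu : u ^ 2 + u + 1 = 0) :
    ∑ g ∈ (Finset.univ : Finset k).erase 0, AS2_S (f + 1) g ^ 2 =
      2 * (2 ^ (f + 1) * (2 ^ (f + 1) - 1)) := by
  have h1 := Finset.add_sum_erase Finset.univ (fun g => AS2_S (f + 1) g ^ 2)
    (Finset.mem_univ (0 : k))
  have h2 : ∑ g : k, AS2_S (f + 1) g ^ 2 = 2 ^ (f + 1) * (1 + 3 * (2 ^ (f + 1) - 1)) := by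
    have h3 : ∀ g : k, AS2_S (f + 1) g ^ 2 =
        ∑ x : k, ∑ y : k, AS2_chi (f + 1) (g * (x ^ 3 + y ^ 3)) := by
      intro g
      rw [sq]
      unfold AS2_S
      rw [Finset.sum_mul_sum]
      refine Finset.sum_congr rfl fun x _ => Finset.sum_congr rfl fun y _ => ?_
      rw [mul_add, AS2_chi_add (f + 1) hk]
    rw [Finset.sum_congr rfl (fun g _ => h3 g), Finset.sum_comm]
    have h4 : ∀ x : k, ∑ g : k, ∑ y : k, AS2_chi (f + 1) (g * (x ^ 3 + y ^ 3)) =
        2 ^ (f + 1) * ((Finset.univ.filter fun y : k => y ^ 3 = x ^ 3).card : ℤ) := by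
      intro x
      rw [Finset.sum_comm]
      simp only [AS2_chi_sum_mul f hk]
      rw [← Finset.sum_filter, Finset.sum_const, nsmul_eq_mul, mul_comm]
      have h5 : (Finset.univ.filter fun y : k => x ^ 3 + y ^ 3 = 0) =
          (Finset.univ.filter fun y : k => y ^ 3 = x ^ 3) := by
        refine Finset.filter_congr fun y _ => ?_
        have h2 := AS2_two (k := k)
        constructor
        · intro h; linear_combination h - x ^ 3 * h2
        · intro h; linear_combination h + x ^ 3 * h2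
      rw [h5]
    rw [Finset.sum_congr rfl (fun x _ => h4 x), ← Finset.mul_sum]
    congr 1
    have h6 := Finset.add_sum_erase Finset.univ
      (fun x : k => ((Finset.univ.filter fun y : k => y ^ 3 = x ^ 3).card : ℤ))
      (Finset.mem_univ (0 : k))
    rw [← h6]
    have h7 : (Finset.univ.filter fun y : k => y ^ 3 = (0 : k) ^ 3) = {0} := by
      ext y
      simp
    have h8 : ∀ x ∈ (Finset.univ : Finset k).erase 0,
        ((Finset.univ.filter fun y : k => y ^ 3 = x ^ 3).card : ℤ) = 3 := by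
      intro x hx
      rw [AS2_fib3 u hu x (Finset.ne_of_mem_erase hx)]
      norm_num
    rw [Finset.sum_congr rfl h8, h7, Finset.card_singleton, Finset.sum_const,
      Finset.card_erase_of_mem (Finset.mem_univ _), Finset.card_univ, hk, nsmul_eq_mul,
      Nat.cast_sub (Nat.one_le_pow _ _ (by norm_num))]
    push_cast
    ring
  rw [h2, AS2_S_zero (f + 1) hk] at h1
  linear_combination h1

/-- The image of the cube map. -/
theorem AS2_img [CharP k 2] (e : ℕ) (he : Fintype.card k = 3 * e + 1) (he0 : 0 < e) (u : k)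
    (hu : u ^ 2 + u + 1 = 0) :
    ((Finset.univ.filter fun g : k => g ^ e = 1).card = e) ∧
    (∀ g : k, g ^ e = 1 → ∃ d : k, d ≠ 0 ∧ d ^ 3 = g) := by
  set I := ((Finset.univ : Finset k).erase 0).image (fun x => x ^ 3) with hI
  have hE : ((Finset.univ : Finset k).erase 0).card = 3 * e := by
    rw [Finset.card_erase_of_mem (Finset.mem_univ _), Finset.card_univ, he]; omega
  have hI1 : e ≤ I.card := by
    have h1 := Finset.card_le_mul_card_image (f := fun x : k => x ^ 3)
      ((Finset.univ : Finset k).erase 0) 3 (by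
        intro b hb
        obtain ⟨y, hy, rfl⟩ := Finset.mem_image.1 hb
        refine (Finset.card_le_card (Finset.filter_subset_filter _ (Finset.subset_univ _))).trans ?_
        exact (AS2_fib3 u hu y (Finset.ne_of_mem_erase hy)).le)
    rw [hE, ← hI] at h1
    omega
  have hsub : I ⊆ Finset.univ.filter fun g : k => g ^ e = 1 := by
    intro g hg
    obtain ⟨x, hx, rfl⟩ := Finset.mem_image.1 hg
    rw [Finset.mem_filter]
    refine ⟨Finset.mem_univ _, ?_⟩
    have h1 := FiniteField.pow_card_sub_one_eq_one x (Finset.ne_of_mem_erase hx)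
    rw [he, Nat.add_sub_cancel] at h1
    rw [← pow_mul]; exact h1
  have hle : (Finset.univ.filter fun g : k => g ^ e = 1).card ≤ e := by
    have h1 : (Finset.univ.filter fun g : k => g ^ e = 1) ⊆
        (Polynomial.nthRoots e (1 : k)).toFinset := by
      intro g hg
      rw [Multiset.mem_toFinset, Polynomial.mem_nthRoots he0]
      exact (Finset.mem_filter.1 hg).2
    exact (Finset.card_le_card h1).trans ((Multiset.toFinset_card_le _).trans
      (Polynomial.card_nthRoots e 1))
  have heq : I = Finset.univ.filter fun g : k => g ^ e = 1 :=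
    Finset.eq_of_subset_of_card_le hsub (hle.trans hI1)
  refine ⟨le_antisymm hle (hI1.trans (Finset.card_le_card hsub)), fun g hg => ?_⟩
  have h1 : g ∈ I := by
    rw [heq, Finset.mem_filter]; exact ⟨Finset.mem_univ _, hg⟩
  obtain ⟨x, hx, hxg⟩ := Finset.mem_image.1 h1
  exact ⟨x, Finset.ne_of_mem_erase hx, hxg⟩

/-- The sum at one is one modulo three. -/
theorem AS2_mod3 [CharP k 2] (n : ℕ) (u : k) (hu : u ^ 2 + u + 1 = 0) :
    ∃ z : ℤ, AS2_S n (1 : k) = 1 + 3 * z := by
  unfold AS2_S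
  rw [← Finset.add_sum_erase Finset.univ _ (Finset.mem_univ (0 : k))]
  have h1 : ∑ x ∈ (Finset.univ : Finset k).erase 0, AS2_chi n (1 * x ^ 3) =
      ∑ b ∈ ((Finset.univ : Finset k).erase 0).image (fun x => x ^ 3),
        (((Finset.univ : Finset k).erase 0).filter fun a => a ^ 3 = b).card • AS2_chi n b := by
    rw [← Finset.sum_comp (AS2_chi n) (fun x : k => x ^ 3)]
    exact Finset.sum_congr rfl fun x _ => by rw [one_mul]
  have h2 : ∀ b ∈ ((Finset.univ : Finset k).erase 0).image (fun x => x ^ 3),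
      (((Finset.univ : Finset k).erase 0).filter fun a => a ^ 3 = b).card • AS2_chi n b =
        3 * AS2_chi n b := by
    intro b hb
    obtain ⟨y, hy, rfl⟩ := Finset.mem_image.1 hb
    have hy0 := Finset.ne_of_mem_erase hy
    have h3 : (((Finset.univ : Finset k).erase 0).filter fun a => a ^ 3 = y ^ 3) =
        Finset.univ.filter fun a => a ^ 3 = y ^ 3 := by
      ext a
      simp only [Finset.mem_filter, Finset.mem_erase, Finset.mem_univ, and_true, true_and]
      constructor
      · exact fun h => h.2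
      · intro h
        refine ⟨fun ha => ?_, h⟩
        rw [ha] at h
        exact pow_ne_zero 3 hy0 (by rw [← h]; simp)
    rw [h3, AS2_fib3 u hu y hy0]
    simp
  rw [h1, Finset.sum_congr rfl h2, ← Finset.mul_sum]
  refine ⟨∑ b ∈ ((Finset.univ : Finset k).erase 0).image (fun x => x ^ 3), AS2_chi n b, ?_⟩
  rw [one_mul, zero_pow (by norm_num), AS2_chi_zero]

theorem AS2_root [CharP k 2] (u : k) (hu : u ^ 2 + u + 1 = 0) (w : k) (h3 : w ^ 3 = 1)
    (h1 : w ≠ 1) : w = u ∨ w = u ^ 2 := by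
  have h2 := AS2_two (k := k)
  have h4 : (w - 1) * (w ^ 2 + w + 1) = 0 := by linear_combination h3
  have h5 : w ^ 2 + w + 1 = 0 := (mul_eq_zero.1 h4).resolve_left (sub_ne_zero.2 h1)
  have h6 : (w - u) * (w - u ^ 2) = 0 := by
    linear_combination h5 + (u - 1 - w) * hu
  rcases mul_eq_zero.1 h6 with h | h
  · exact Or.inl (sub_eq_zero.1 h)
  · exact Or.inr (sub_eq_zero.1 h)

theorem AS2_val [CharP k 2] (f e : ℕ) (hk : Fintype.card k = 2 ^ (f + 1))
    (he : 2 ^ (f + 1) = 3 * e + 1) (he0 : 0 < e) (h : ℕ) (hh : f + 1 = 2 * h) (hodd : Odd h)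
    (u : k) (hu : u ^ 2 + u + 1 = 0) (g : k) (hg : g ≠ 0) :
    AS2_S (f + 1) g = if g ^ e = 1 then 2 ^ (h + 1) else -2 ^ h := by
  obtain ⟨hI, hcube⟩ := AS2_img e (hk.trans he) he0 u hu
  have h2 := AS2_two (k := k)
  have hpow : ∀ a : k, a ≠ 0 → (a ^ e) ^ 3 = 1 := by
    intro a ha
    have h1 := FiniteField.pow_card_sub_one_eq_one a ha
    rw [hk, he, Nat.add_sub_cancel] at h1
    rw [← pow_mul, mul_comm]; exact h1
  have hS1 : ∀ a : k, a ^ e = 1 → AS2_S (f + 1) a = AS2_S (f + 1) (1 : k) := by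
    intro a ha
    obtain ⟨d, hd, rfl⟩ := hcube a ha
    have := AS2_S_cube (f + 1) (1 : k) d hd
    rwa [one_mul] at this
  -- a non cube
  have hex : ∃ n : k, n ≠ 0 ∧ n ^ e ≠ 1 := by
    by_contra hcon
    push_neg at hcon
    have h3 : (Finset.univ : Finset k).erase 0 ⊆ Finset.univ.filter fun g : k => g ^ e = 1 := by
      intro x hx
      rw [Finset.mem_filter]
      exact ⟨Finset.mem_univ _, hcon x (Finset.ne_of_mem_erase hx)⟩
    have h4 := Finset.card_le_card h3
    rw [hI, Finset.card_erase_of_mem (Finset.mem_univ _), Finset.card_univ, hk, he] at h4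
    omega
  obtain ⟨n, hn0, hn⟩ := hex
  have hu3 : u ^ 3 = 1 := by linear_combination (u - 1) * hu
  have hS2 : ∀ a : k, a ≠ 0 → a ^ e ≠ 1 → AS2_S (f + 1) a = AS2_S (f + 1) n := by
    intro a ha ha1
    have hcase : a ^ e = n ^ e ∨ a ^ e = (n ^ e) ^ 2 := by
      rcases AS2_root u hu _ (hpow a ha) ha1 with h3 | h3 <;>
        rcases AS2_root u hu _ (hpow n hn0) hn with h4 | h4
      · exact Or.inl (h3.trans h4.symm)
      · right; rw [h3, h4]; linear_combination -u * hu3
      · right; rw [h3, h4]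
      · exact Or.inl (h3.trans h4.symm)
    rcases hcase with h5 | h5
    · have h6 : (a / n) ^ e = 1 := by
        rw [div_pow, h5, div_self (pow_ne_zero e hn0)]
      obtain ⟨d, hd, hdd⟩ := hcube _ h6
      have h7 : a = n * d ^ 3 := by rw [hdd]; field_simp
      rw [h7, AS2_S_cube (f + 1) n d hd]
    · have h6 : (a / n ^ 2) ^ e = 1 := by
        rw [div_pow, h5, ← pow_mul, ← pow_mul, mul_comm e 2, div_self (pow_ne_zero _ hn0)]
      obtain ⟨d, hd, hdd⟩ := hcube _ h6
      have h7 : a = n ^ 2 * d ^ 3 := by rw [hdd]; field_simp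
      rw [h7, AS2_S_cube (f + 1) (n ^ 2) d hd, AS2_S_sq (f + 1) hk]
  -- the two equations
  have hsplit : ∀ F : ℤ → ℤ, ∑ a ∈ (Finset.univ : Finset k).erase 0, F (AS2_S (f + 1) a) =
      e * F (AS2_S (f + 1) (1 : k)) + 2 * e * F (AS2_S (f + 1) n) := by
    intro F
    rw [← Finset.sum_filter_add_sum_filter_not ((Finset.univ : Finset k).erase 0)
      (fun a => a ^ e = 1)]
    have h3 : (((Finset.univ : Finset k).erase 0).filter fun a => a ^ e = 1) =
        Finset.univ.filter fun a => a ^ e = 1 := by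
      ext a
      simp only [Finset.mem_filter, Finset.mem_erase, Finset.mem_univ, and_true, true_and]
      constructor
      · exact fun h => h.2
      · intro h
        refine ⟨fun ha => ?_, h⟩
        rw [ha, zero_pow he0.ne'] at h
        exact zero_ne_one h
    have h4 : (((Finset.univ : Finset k).erase 0).filter fun a => ¬ a ^ e = 1).card = 2 * e := by
      have h5 := Finset.card_filter_add_card_filter_not (s := (Finset.univ : Finset k).erase 0)
        (fun a => a ^ e = 1)
      rw [h3, hI, Finset.card_erase_of_mem (Finset.mem_univ _), Finset.card_univ, hk, he] at h5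
      omega
    rw [Finset.sum_congr rfl (g := fun _ => F (AS2_S (f + 1) (1 : k)))
        (fun a ha => by rw [hS1 a (Finset.mem_filter.1 ha).2]),
      Finset.sum_congr (s₁ := ((Finset.univ : Finset k).erase 0).filter fun a => ¬ a ^ e = 1) rfl
        (g := fun _ => F (AS2_S (f + 1) n))
        (fun a ha => by
          rw [hS2 a (Finset.ne_of_mem_erase (Finset.mem_filter.1 ha).1) (Finset.mem_filter.1 ha).2]),
      Finset.sum_const, Finset.sum_const, h3, hI, h4, nsmul_eq_mul, nsmul_eq_mul]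
    push_cast
    ring
  have hs1 := hsplit (fun t => t)
  have hs2 := hsplit (fun t => t ^ 2)
  rw [AS2_sum1 f hk] at hs1
  rw [AS2_sum2 f hk u hu] at hs2
  obtain ⟨z, hz⟩ := AS2_mod3 (f + 1) u hu
  set s1 : ℤ := AS2_S (f + 1) (1 : k) with hs1d
  set s2 : ℤ := AS2_S (f + 1) n with hs2d
  have heZ : (0 : ℤ) < e := by exact_mod_cast he0
  have e1 : s1 = -2 * s2 := by
    have h3 : (e : ℤ) * (s1 + 2 * s2) = 0 := by linear_combination -hs1
    rcases mul_eq_zero.1 h3 with h4 | h4
    · omega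
    · linarith
  have hq : (2 : ℤ) ^ (f + 1) = 3 * e + 1 := by exact_mod_cast he
  have e2 : s2 ^ 2 = 2 ^ (f + 1) := by
    have h3 : (e : ℤ) * (6 * s2 ^ 2 - 6 * 2 ^ (f + 1)) = 0 := by
      rw [e1] at hs2
      linear_combination -hs2 + (2 : ℤ) * 2 ^ (f + 1) * hq
    rcases mul_eq_zero.1 h3 with h4 | h4
    · omega
    · linarith
  have e3 : (s2 - 2 ^ h) * (s2 + 2 ^ h) = 0 := by
    have h4 : (2 : ℤ) ^ (f + 1) = (2 ^ h) ^ 2 := by
      rw [hh, ← pow_mul, mul_comm h 2]
    linear_combination e2 + h4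
  have e4 : ∃ y : ℤ, (2 : ℤ) ^ h = -1 + 3 * y := by
    obtain ⟨l, hl⟩ := hodd
    have : (3 : ℤ) ∣ 4 ^ l - 1 ^ l := (by norm_num : (3 : ℤ) ∣ 4 - 1).trans (sub_dvd_pow_sub_pow 4 1 l)
    obtain ⟨y, hy⟩ := this
    rw [one_pow] at hy
    refine ⟨2 * y + 1, ?_⟩
    rw [hl, pow_add, pow_mul, pow_one]
    norm_num
    linear_combination 2 * hy
  obtain ⟨y, hy⟩ := e4
  have e5 : s2 = -2 ^ h := by
    rcases mul_eq_zero.1 e3 with h4 | h4
    · exfalso
      have h5 : s2 = 2 ^ h := by linarith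
      omega
    · linarith
  by_cases hge : g ^ e = 1
  · rw [if_pos hge, hS1 g hge, e1, e5, pow_succ]; ring
  · rw [if_neg hge, hS2 g hg hge, e5]

end

theorem card_as2 {k : Type*} [Field k] [Fintype k] [DecidableEq k] (f : ℕ)
    (hk : Fintype.card k = 4 ^ f) (hodd : Odd f) (u g : k) (hu : u ^ 2 + u + 1 = 0)
    (hg : g ≠ 0) :
    ((∑ x : k, (Finset.univ.filter fun y : k => y ^ 2 + y = g * x ^ 3 + u).card : ℕ) : ℤ) =
      4 ^ f - (if g ^ ((4 ^ f - 1) / 3) = 1 then 2 ^ (f + 1) else -2 ^ f) := by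
  obtain ⟨m, hm⟩ : ∃ m, 2 * f = m + 1 := ⟨2 * f - 1, by have := hodd.pos; omega⟩
  have h4 : 4 ^ f = 2 ^ (m + 1) := by
    rw [← hm, pow_mul]; norm_num
  have hk2 : Fintype.card k = 2 ^ (m + 1) := hk.trans h4
  haveI : CharP k 2 := AS2_char (m + 1) hk2
  have h2 := AS2_two (k := k)
  have hmod : ∃ e, 4 ^ f = 3 * e + 1 ∧ 0 < e := by
    have h3 : (3 : ℤ) ∣ 4 ^ f - 1 ^ f := (by norm_num : (3 : ℤ) ∣ 4 - 1).trans (sub_dvd_pow_sub_pow 4 1 f)
    obtain ⟨y, hy⟩ := h3
    rw [one_pow] at hy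
    have h5 : 4 ^ 1 ≤ 4 ^ f := Nat.pow_le_pow_right (by norm_num) hodd.pos
    have h6 : ((4 ^ f : ℕ) : ℤ) = 3 * y + 1 := by push_cast; linarith
    refine ⟨y.toNat, ?_, ?_⟩ <;> omega
  obtain ⟨e, he, he0⟩ := hmod
  have hdiv : (4 ^ f - 1) / 3 = e := by
    rw [he, Nat.add_sub_cancel, Nat.mul_div_cancel_left _ (by norm_num)]
  -- the value at `u`
  have hchiu : AS2_chi (m + 1) u = -1 := by
    unfold AS2_chi
    rw [if_neg]
    have h5 : ∀ l : ℕ, AS2_tr (2 * l) u = (l : k) := by
      intro l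
      induction l with
      | zero => simp [AS2_tr]
      | succ l ih =>
        have h6 : 2 * (l + 1) = 2 * l + 1 + 1 := by ring
        unfold AS2_tr at ih ⊢
        rw [h6, Finset.sum_range_succ, Finset.sum_range_succ, ih]
        have hu3 : u ^ 3 = 1 := by linear_combination (u - 1) * hu
        have hu4 : u ^ 4 = u := by linear_combination u * hu3
        have h7 : u ^ 2 ^ (2 * l) = u := by
          rw [pow_mul]
          clear ih h6
          induction l with
          | zero => simp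
          | succ l ih => rw [pow_succ, pow_mul, ih]; norm_num; exact hu4
        rw [h7, pow_succ, pow_mul, h7]
        push_cast
        linear_combination hu - h2
    rw [← hm, h5]
    obtain ⟨l, hl⟩ := hodd
    rw [hl]
    push_cast
    have h8 : (2 : k) = 0 := by linear_combination h2
    rw [h8]
    simp
  have hcnt : ∀ x : k, ((Finset.univ.filter fun y : k => y ^ 2 + y = g * x ^ 3 + u).card : ℤ) =
      1 - AS2_chi (m + 1) (g * x ^ 3) := by
    intro x
    rw [AS2_fib m hk2, AS2_chi_add (m + 1) hk2, hchiu]; ring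
  push_cast
  rw [Finset.sum_congr rfl (fun x _ => hcnt x), Finset.sum_sub_distrib, Finset.sum_const,
    Finset.card_univ, hk]
  have hval := AS2_val m e hk2 (h4.symm.trans he) he0 f (by omega) hodd u hu g hg
  unfold AS2_S at hval
  rw [hval, hdiv]
  simp

end Pool.Agent.Lib.MP_1a91b9_ntT3.CU
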