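import Pool.Agent.Lib.MP_1a91b9_ntT3.CU.Defs

/-!
# CU, job AS3: the sums of the quadratic character over `x³ - x + c` in characteristic `3`

k finite with 3 ^ f elements, f odd, η the quadratic character, T(x) = tr3 f x = x + x³ + ... + x^(3^(f-1)).
PROOF (complete, elementary). T is additive (Frobenius), T(x)^3 = T(x) so T(x) is 0, 1 or 2 = -1 in k,
T(x³ - x) = x^(3^f) - x = 0. η(-1) = -1 as 3 ^ f = 3 modulo 4 (see EF/Three.lean).
(1) #{u : T u = j} = 3 ^ (f-1) for j = 0, 1, 2: the polynomial `T(X) - j` has degree 3 ^ (f-1), so at most that many roots, and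
    the three sets cover k.
(2) x ↦ x³ - x is additive with kernel {0,1,2} and image in {T = 0}; by counting its image is {T = 0} and every fibre over
    it has 3 elements. So S(c) := ∑ x, η(x³ - x + c) = 3 * ∑_{u : T u = T c} η u. Put t_j = ∑_{u : T u = j} η u (an integer).
    t_0 = 0 and t_2 = - t_1 by u ↦ -u.
(3) t_1 ^ 2 = 3 ^ (f-1). Sum over pairs: ∑_j t_j ^ 2 = ∑_{u, u' ≠ 0, T u = T u'} η(u u') = ∑_{r ≠ 0} η(r) #{u ≠ 0 : T((1 - r) u) = 0}
    (u' = r u) = (3^f - 1) + ∑_{r ≠ 0, 1} η(r) (3^(f-1) - 1) = (3^f - 1) - (3^(f-1) - 1) = 2 * 3^(f-1).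
    (Or with `gaussSum_sq` of Mathlib and the additive character u ↦ ζ ^ T u, G = t_1 (ζ - ζ²), G² = η(-1) 3^f.)
(4) ∏_{u : T u = 1} u = 1: the monic polynomial X^(3^(f-1)) + ... + X^3 + X - 1 is ∏_{T u = 1} (X - u) (it has all its roots);
    value at 0: -1 = ∏ (-u) = (-1)^(3^(f-1)) ∏ u = - ∏ u. So η of this product is 1, so the number n of u with T u = 1 and η u = -1
    is even (no such u is 0). t_1 = 3^(f-1) - 2 n, so t_1 = 3^(f-1) = 1 modulo 4 (f - 1 even).
    With (3): t_1 = ± (-3)^((f-1)/2) and (-3)^((f-1)/2) = 1 modulo 4, so t_1 = (-3)^((f-1)/2).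
-/

set_option autoImplicit false

namespace Pool.Agent.Lib.MP_1a91b9_ntT3.CU

/-- the trace to the field with three elements -/
def tr3 {k : Type*} [CommRing k] (f : ℕ) (x : k) : k := ∑ i ∈ Finset.range f, x ^ 3 ^ i

section
variable {k : Type*} [Field k] [Fintype k] [DecidableEq k] (f : ℕ)

theorem AS3_char (hk : Fintype.card k = 3 ^ f) (hodd : Odd f) : CharP k 3 := by
  obtain ⟨p, hp⟩ := CharP.exists k
  obtain ⟨n, hpp, hn⟩ := FiniteField.card k p
  have h1 : p ∣ 3 ^ f := by
    rw [← hk, hn]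
    exact dvd_pow_self p n.pos.ne'
  have h2 : p ∣ 3 := hpp.dvd_of_dvd_pow h1
  have h3 : p = 3 := (Nat.prime_dvd_prime_iff_eq hpp Nat.prime_three).1 h2
  rwa [h3] at hp

theorem AS3_add [CharP k 3] (x y : k) : tr3 f (x + y) = tr3 f x + tr3 f y := by
  haveI : Fact (Nat.Prime 3) := ⟨Nat.prime_three⟩
  unfold tr3
  rw [← Finset.sum_add_distrib]
  exact Finset.sum_congr rfl fun i _ => add_pow_char_pow x y 3 i

theorem AS3_neg [CharP k 3] (x : k) : tr3 f (-x) = -tr3 f x := by
  unfold tr3
  rw [← Finset.sum_neg_distrib]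
  exact Finset.sum_congr rfl fun i _ => (Odd.pow (by decide : Odd 3)).neg_pow x

theorem AS3_sub [CharP k 3] (x y : k) : tr3 f (x - y) = tr3 f x - tr3 f y := by
  rw [sub_eq_add_neg, AS3_add, AS3_neg, sub_eq_add_neg]

theorem AS3_zero : tr3 f (0 : k) = 0 := by
  unfold tr3
  refine Finset.sum_eq_zero fun i _ => zero_pow (pow_pos (by norm_num) i).ne'

theorem AS3_frob (hk : Fintype.card k = 3 ^ f) (x : k) : tr3 f (x ^ 3) = tr3 f x := by
  unfold tr3
  have h1 : ∀ i, (x ^ 3) ^ 3 ^ i = x ^ 3 ^ (i + 1) := fun i => by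
    rw [← pow_mul, pow_succ']
  simp only [h1]
  have h2 := Finset.sum_range_succ' (fun i => x ^ 3 ^ i) f
  have h3 := Finset.sum_range_succ (fun i => x ^ 3 ^ i) f
  have h4 : x ^ 3 ^ f = x := by rw [← hk]; exact FiniteField.pow_card x
  simp only [h4, pow_zero, pow_one] at h2 h3
  rw [h3] at h2
  exact (add_right_cancel h2).symm

theorem AS3_cube [CharP k 3] (hk : Fintype.card k = 3 ^ f) (x : k) : tr3 f x ^ 3 = tr3 f x := by
  haveI : Fact (Nat.Prime 3) := ⟨Nat.prime_three⟩
  conv_rhs => rw [← AS3_frob f hk x]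
  unfold tr3
  rw [sum_pow_char]
  refine Finset.sum_congr rfl fun i _ => ?_
  rw [← pow_mul, ← pow_mul, mul_comm]

theorem AS3_cases [CharP k 3] (hk : Fintype.card k = 3 ^ f) (x : k) :
    tr3 f x = 0 ∨ tr3 f x = 1 ∨ tr3 f x = -1 := by
  have h := AS3_cube f hk x
  have h1 : tr3 f x * ((tr3 f x - 1) * (tr3 f x + 1)) = 0 := by
    linear_combination h
  rcases mul_eq_zero.1 h1 with h2 | h2
  · exact Or.inl h2
  · rcases mul_eq_zero.1 h2 with h3 | h3
    · exact Or.inr (Or.inl (sub_eq_zero.1 h3))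
    · exact Or.inr (Or.inr (eq_neg_of_add_eq_zero_left h3))

open Polynomial in
/-- The trace polynomial minus a constant. -/
noncomputable def AS3_pol (k : Type*) [Field k] (f : ℕ) (j : k) : k[X] :=
  (∑ i ∈ Finset.range f, X ^ 3 ^ i) - C j

open Polynomial in
theorem AS3_pol_eval (j x : k) : (AS3_pol k f j).eval x = tr3 f x - j := by
  simp [AS3_pol, tr3, eval_finsetSum]

open Polynomial in
theorem AS3_pol_monic (f : ℕ) (j : k) : (AS3_pol k (f + 1) j).Monic ∧
    (AS3_pol k (f + 1) j).natDegree = 3 ^ f := by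
  have h1 : (∑ i ∈ Finset.range f, (X : k[X]) ^ 3 ^ i).degree < ((3 ^ f : ℕ) : WithBot ℕ) := by
    refine lt_of_le_of_lt (degree_sum_le _ _) ?_
    rw [Finset.sup_lt_iff (WithBot.bot_lt_coe _)]
    intro i hi
    rw [degree_X_pow]
    exact_mod_cast Nat.pow_lt_pow_right (by norm_num) (Finset.mem_range.1 hi)
  have h2 : (∑ i ∈ Finset.range f, (X : k[X]) ^ 3 ^ i - C j).degree < ((3 ^ f : ℕ) : WithBot ℕ) := by
    refine lt_of_le_of_lt (degree_sub_le _ _) (max_lt h1 ?_)
    refine lt_of_le_of_lt degree_C_le ?_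
    exact_mod_cast pow_pos (by norm_num : 0 < 3) f
  have h3 : AS3_pol k (f + 1) j = X ^ 3 ^ f + (∑ i ∈ Finset.range f, X ^ 3 ^ i - C j) := by
    rw [AS3_pol, Finset.sum_range_succ]; ring
  rw [h3]
  refine ⟨monic_X_pow_add h2, ?_⟩
  rw [natDegree_add_eq_left_of_degree_lt, natDegree_X_pow]
  rw [degree_X_pow]
  exact h2

open Polynomial in
theorem AS3_le (f : ℕ) (j : k) :
    (Finset.univ.filter fun u : k => tr3 (f + 1) u = j).card ≤ 3 ^ f := by
  obtain ⟨h1, h2⟩ := AS3_pol_monic f j
  rw [← h2]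
  have h3 : (Finset.univ.filter fun u : k => tr3 (f + 1) u = j) ⊆
      (AS3_pol k (f + 1) j).roots.toFinset := by
    intro u hu
    rw [Finset.mem_filter] at hu
    rw [Multiset.mem_toFinset, mem_roots h1.ne_zero, IsRoot.def, AS3_pol_eval, hu.2, sub_self]
  exact (Finset.card_le_card h3).trans ((Multiset.toFinset_card_le _).trans (card_roots' _))

theorem AS3_one_ne [CharP k 3] : (1 : k) ≠ -1 := by
  intro h
  have h1 : (2 : k) = 0 := by linear_combination h
  have h2 : ((2 : ℕ) : k) = 0 := by exact_mod_cast h1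
  rw [CharP.cast_eq_zero_iff k 3] at h2
  omega

theorem AS3_card [CharP k 3] (f : ℕ) (hk : Fintype.card k = 3 ^ (f + 1)) (j : k)
    (hj : j = 0 ∨ j = 1 ∨ j = -1) :
    (Finset.univ.filter fun u : k => tr3 (f + 1) u = j).card = 3 ^ f := by
  have h0 := AS3_le f (0 : k)
  have h1 := AS3_le f (1 : k)
  have h2 := AS3_le f (-1 : k)
  have h3 : (Finset.univ : Finset k) ⊆ ((Finset.univ.filter fun u : k => tr3 (f + 1) u = 0) ∪
      (Finset.univ.filter fun u : k => tr3 (f + 1) u = 1)) ∪
      (Finset.univ.filter fun u : k => tr3 (f + 1) u = -1) := by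
    intro u _
    simp only [Finset.mem_union, Finset.mem_filter, Finset.mem_univ, true_and]
    rcases AS3_cases (f + 1) hk u with h | h | h
    · exact Or.inl (Or.inl h)
    · exact Or.inl (Or.inr h)
    · exact Or.inr h
  have h4 := (Finset.card_le_card h3).trans ((Finset.card_union_le _ _).trans
    (Nat.add_le_add_right (Finset.card_union_le _ _) _))
  rw [Finset.card_univ, hk, pow_succ] at h4
  rcases hj with rfl | rfl | rfl <;> omega

/-- character sum over a trace class -/
noncomputable def AS3_t (f : ℕ) (j : k) : ℤ :=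
  ∑ u ∈ Finset.univ.filter (fun u : k => tr3 f u = j), quadraticChar k u

theorem AS3_ring [CharP k 3] : ringChar k ≠ 2 := by
  rw [ringChar.eq k 3]; norm_num

theorem AS3_negone [CharP k 3] (hk : Fintype.card k = 3 ^ f) (hodd : Odd f) :
    quadraticChar k (-1) = -1 := by
  rw [quadraticChar_neg_one_iff_not_isSquare, FiniteField.isSquare_neg_one_iff, hk]
  obtain ⟨m, rfl⟩ := hodd
  rw [not_not, pow_add, pow_mul, pow_one]
  have : (3 ^ 2) ^ m % 4 = 1 := by
    rw [Nat.pow_mod]; norm_num
  omega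

theorem AS3_tneg [CharP k 3] (hk : Fintype.card k = 3 ^ f) (hodd : Odd f) (j : k) :
    AS3_t f (-j) = -AS3_t f j := by
  unfold AS3_t
  rw [← Finset.sum_neg_distrib]
  refine Finset.sum_bij' (fun u _ => -u) (fun u _ => -u) ?_ ?_ ?_ ?_ ?_
  · intro u hu
    simp only [Finset.mem_filter, Finset.mem_univ, true_and] at hu ⊢
    rw [AS3_neg, hu, neg_neg]
  · intro u hu
    simp only [Finset.mem_filter, Finset.mem_univ, true_and] at hu ⊢
    rw [AS3_neg, hu]
  · intro u _; exact neg_neg u
  · intro u _; exact neg_neg u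
  · intro u _
    have h : quadraticChar k (-u) = -quadraticChar k u := by
      rw [← neg_one_mul u, map_mul, AS3_negone f hk hodd, neg_one_mul]
    rw [h, neg_neg]

theorem AS3_t0 [CharP k 3] (hk : Fintype.card k = 3 ^ f) (hodd : Odd f) :
    AS3_t f (0 : k) = 0 := by
  have h := AS3_tneg f hk hodd (0 : k)
  rw [neg_zero] at h
  omega

open Polynomial in
/-- The product of the elements of trace one is one. -/
theorem AS3_prod [CharP k 3] (f : ℕ) (hk : Fintype.card k = 3 ^ (f + 1)) :
    ∏ u ∈ Finset.univ.filter (fun u : k => tr3 (f + 1) u = 1), u = 1 := by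
  obtain ⟨h1, h2⟩ := AS3_pol_monic f (1 : k)
  have hc := AS3_card f hk (1 : k) (Or.inr (Or.inl rfl))
  have hsub : (Finset.univ.filter fun u : k => tr3 (f + 1) u = 1).val ≤
      (AS3_pol k (f + 1) 1).roots := by
    rw [Finset.val_le_iff_val_subset]
    intro u hu
    have hu' : tr3 (f + 1) u = 1 := by
      have := Finset.mem_def.2 hu
      simpa using this
    rw [mem_roots h1.ne_zero, IsRoot.def, AS3_pol_eval, hu', sub_self]
  have hroots : (AS3_pol k (f + 1) 1).roots =
      (Finset.univ.filter fun u : k => tr3 (f + 1) u = 1).val := by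
    refine (Multiset.eq_of_le_of_card_le hsub ?_).symm
    rw [Finset.card_val, hc, ← h2]
    exact card_roots' _
  have hprod : (AS3_pol k (f + 1) 1) =
      ∏ u ∈ Finset.univ.filter (fun u : k => tr3 (f + 1) u = 1), (X - C u) := by
    have := prod_multiset_X_sub_C_of_monic_of_roots_card_eq h1 (by
      rw [hroots, Finset.card_val, hc, h2])
    rw [hroots] at this
    exact this.symm
  have h5 : (AS3_pol k (f + 1) 1).eval 0 = -1 := by
    rw [AS3_pol_eval, AS3_zero, zero_sub]
  rw [hprod, eval_prod] at h5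
  simp only [eval_sub, eval_X, eval_C, zero_sub] at h5
  rw [Finset.prod_neg, hc, (Odd.pow (by decide : Odd 3)).neg_one_pow] at h5
  linear_combination -h5

theorem AS3_mod4 [CharP k 3] (f : ℕ) (hk : Fintype.card k = 3 ^ (f + 1)) (hev : Even f) :
    ∃ z : ℤ, AS3_t (f + 1) (1 : k) = 1 + 4 * z := by
  have hprod := congrArg (quadraticChar k) (AS3_prod f hk)
  rw [map_prod, map_one] at hprod
  have hne : ∀ u ∈ Finset.univ.filter (fun u : k => tr3 (f + 1) u = 1), u ≠ 0 := by
    intro u hu h
    rw [Finset.mem_filter, h, AS3_zero] at hu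
    exact zero_ne_one hu.2
  set Z := Finset.univ.filter (fun u : k => tr3 (f + 1) u = 1) with hZ
  have h1 : ∏ u ∈ Z, quadraticChar k u = (-1) ^ (Z.filter fun u => quadraticChar k u = -1).card := by
    rw [← Finset.prod_filter_mul_prod_filter_not Z (fun u => quadraticChar k u = -1)]
    rw [Finset.prod_congr rfl (g := fun _ => (-1 : ℤ)) (fun u hu => (Finset.mem_filter.1 hu).2),
      Finset.prod_const, Finset.prod_eq_one, mul_one]
    intro u hu
    rw [Finset.mem_filter] at hu
    exact (quadraticChar_dichotomy (hne u hu.1)).resolve_right hu.2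
  rw [h1] at hprod
  have h2 : Even (Z.filter fun u => quadraticChar k u = -1).card := by
    rcases Nat.even_or_odd (Z.filter fun u => quadraticChar k u = -1).card with h | h
    · exact h
    · rw [h.neg_one_pow] at hprod
      omega
  have h3 : AS3_t (f + 1) (1 : k) =
      (Z.card : ℤ) - 2 * (Z.filter fun u => quadraticChar k u = -1).card := by
    have h4 : AS3_t (f + 1) (1 : k) = ∑ u ∈ Z, (1 - 2 * (if quadraticChar k u = -1 then (1 : ℤ) else 0)) := by
      unfold AS3_t
      refine Finset.sum_congr rfl fun u hu => ?_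
      rcases quadraticChar_dichotomy (hne u hu) with h | h
      · rw [h]; norm_num
      · rw [h]; norm_num
    rw [h4, Finset.sum_sub_distrib, ← Finset.mul_sum, Finset.sum_boole]
    simp
  obtain ⟨m, hm⟩ := h2
  obtain ⟨l, hl⟩ := hev
  have h5 : (Z.card : ℤ) = 9 ^ l := by
    rw [hZ, AS3_card f hk (1 : k) (Or.inr (Or.inl rfl)), hl, ← two_mul, pow_mul]
    norm_num
  have h6 : ∃ z : ℤ, (9 : ℤ) ^ l = 1 + 4 * z := by
    have : (4 : ℤ) ∣ 9 ^ l - 1 ^ l := (by norm_num : (4 : ℤ) ∣ 9 - 1).trans (sub_dvd_pow_sub_pow 9 1 l)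
    obtain ⟨z, hz⟩ := this
    exact ⟨z, by rw [one_pow] at hz; linarith⟩
  obtain ⟨z, hz⟩ := h6
  refine ⟨z - m, ?_⟩
  rw [h3, h5, hz, hm]
  push_cast
  ring

/-- The square of the character sum. -/
theorem AS3_sq [CharP k 3] (f : ℕ) (hk : Fintype.card k = 3 ^ (f + 1)) (hev : Even f) :
    AS3_t (f + 1) (1 : k) ^ 2 = 3 ^ f := by
  have hodd : Odd (f + 1) := hev.add_one
  have hT0 := AS3_card f hk (0 : k) (Or.inl rfl)
  -- the double sum
  have hA : ∑ u : k, ∑ v : k, (if tr3 (f + 1) u = tr3 (f + 1) v then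
      quadraticChar k u * quadraticChar k v else 0) = 2 * AS3_t (f + 1) (1 : k) ^ 2 := by
    have h1 : ∀ u : k, ∑ v : k, (if tr3 (f + 1) u = tr3 (f + 1) v then
      quadraticChar k u * quadraticChar k v else 0) =
        quadraticChar k u * AS3_t (f + 1) (tr3 (f + 1) u) := by
      intro u
      unfold AS3_t
      rw [Finset.mul_sum, Finset.sum_filter]
      refine Finset.sum_congr rfl fun v _ => ?_
      by_cases h : tr3 (f + 1) u = tr3 (f + 1) v
      · rw [if_pos h, if_pos h.symm]
      · rw [if_neg h, if_neg (fun h' => h h'.symm)]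
    simp only [h1]
    have h2 : ∀ u : k, quadraticChar k u * AS3_t (f + 1) (tr3 (f + 1) u) =
        AS3_t (f + 1) (1 : k) * ((if tr3 (f + 1) u = 1 then quadraticChar k u else 0) -
          (if tr3 (f + 1) u = -1 then quadraticChar k u else 0)) := by
      intro u
      have hne : (1 : k) ≠ -1 := AS3_one_ne
      have h01 : (0 : k) ≠ 1 := zero_ne_one
      have h02 : (0 : k) ≠ -1 := fun h => h01 (by linear_combination -h)
      rcases AS3_cases (f + 1) hk u with h | h | h
      · rw [h, AS3_t0 (f + 1) hk hodd, if_neg h01, if_neg h02]; ring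
      · rw [h, if_pos rfl, if_neg hne]; ring
      · rw [h, if_neg hne.symm, if_pos rfl, AS3_tneg (f + 1) hk hodd]; ring
    rw [Finset.sum_congr rfl (fun u _ => h2 u), ← Finset.mul_sum, Finset.sum_sub_distrib,
      ← Finset.sum_filter, ← Finset.sum_filter]
    have h3 : ∑ u ∈ Finset.univ.filter (fun u : k => tr3 (f + 1) u = 1), quadraticChar k u =
      AS3_t (f + 1) (1 : k) := rfl
    have h4 : ∑ u ∈ Finset.univ.filter (fun u : k => tr3 (f + 1) u = -1), quadraticChar k u =
      AS3_t (f + 1) (-1 : k) := rfl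
    rw [h3, h4, AS3_tneg (f + 1) hk hodd]
    ring
  have hB : ∑ u : k, ∑ v : k, (if tr3 (f + 1) u = tr3 (f + 1) v then
      quadraticChar k u * quadraticChar k v else 0) =
      ∑ r : k, quadraticChar k r * ((if r = 1 then (3 : ℤ) ^ (f + 1) - 1 else 3 ^ f - 1)) := by
    have h1 : ∀ u : k, u ≠ 0 → ∑ v : k, (if tr3 (f + 1) u = tr3 (f + 1) v then
      quadraticChar k u * quadraticChar k v else 0) =
        ∑ r : k, quadraticChar k r * (if tr3 (f + 1) ((1 - r) * u) = 0 then 1 else 0) := by
      intro u hu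
      refine (Finset.sum_bij' (fun r _ => r * u) (fun v _ => v / u) (fun _ _ => Finset.mem_univ _)
        (fun _ _ => Finset.mem_univ _) (fun r _ => mul_div_cancel_right₀ r hu)
        (fun v _ => div_mul_cancel₀ v hu) ?_).symm
      intro r _
      have h2 : tr3 (f + 1) ((1 - r) * u) = tr3 (f + 1) u - tr3 (f + 1) (r * u) := by
        rw [← AS3_sub]; ring_nf
      have h3 : quadraticChar k u * quadraticChar k (r * u) = quadraticChar k r := by
        rw [map_mul]
        have := quadraticChar_sq_one hu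
        calc quadraticChar k u * (quadraticChar k r * quadraticChar k u) =
            quadraticChar k u ^ 2 * quadraticChar k r := by ring
          _ = quadraticChar k r := by rw [this, one_mul]
      rw [h2, h3]
      by_cases h4 : tr3 (f + 1) u = tr3 (f + 1) (r * u)
      · rw [if_pos h4, if_pos (sub_eq_zero.2 h4), mul_one]
      · rw [if_neg h4, if_neg (fun h => h4 (sub_eq_zero.1 h)), mul_zero]
    have h0 : ∑ v : k, (if tr3 (f + 1) (0 : k) = tr3 (f + 1) v then
      quadraticChar k 0 * quadraticChar k v else 0) = 0 := by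
      refine Finset.sum_eq_zero fun v _ => ?_
      rw [quadraticChar_zero, zero_mul, ite_self]
    rw [← Finset.sum_filter_add_sum_filter_not Finset.univ (fun u : k => u ≠ 0)]
    have h5 : ∑ u ∈ Finset.univ.filter (fun u : k => ¬ u ≠ 0), ∑ v : k,
        (if tr3 (f + 1) u = tr3 (f + 1) v then quadraticChar k u * quadraticChar k v else 0) = 0 := by
      refine Finset.sum_eq_zero fun u hu => ?_
      have : u = 0 := by simpa using (Finset.mem_filter.1 hu).2
      rw [this]; exact h0
    rw [h5, add_zero, Finset.sum_congr rfl (fun u hu => h1 u (Finset.mem_filter.1 hu).2),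
      Finset.sum_comm]
    refine Finset.sum_congr rfl fun r _ => ?_
    rw [← Finset.mul_sum]
    by_cases hr0 : r = 0
    · rw [hr0, quadraticChar_zero, zero_mul, zero_mul]
    congr 1
    by_cases hr : r = 1
    · rw [if_pos hr, hr]
      have h6 : ∀ u ∈ Finset.univ.filter (fun u : k => u ≠ 0),
          (if tr3 (f + 1) ((1 - 1) * u) = 0 then (1 : ℤ) else 0) = 1 := by
        intro u _
        rw [sub_self, zero_mul, AS3_zero, if_pos rfl]
      rw [Finset.sum_congr rfl h6, Finset.sum_const, nsmul_eq_mul, mul_one]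
      have h7 : (Finset.univ.filter (fun u : k => u ≠ 0)).card = 3 ^ (f + 1) - 1 := by
        rw [Finset.filter_ne' Finset.univ (0 : k), Finset.card_erase_of_mem (Finset.mem_univ _),
          Finset.card_univ, hk]
      rw [h7, Nat.cast_sub (Nat.one_le_pow _ _ (by norm_num))]
      push_cast; ring
    · rw [if_neg hr]
      have hr' : (1 - r) ≠ 0 := fun h => hr (sub_eq_zero.1 h).symm
      rw [Finset.sum_boole, Finset.filter_filter]
      have h8 : (Finset.univ.filter (fun u : k => u ≠ 0 ∧ tr3 (f + 1) ((1 - r) * u) = 0)).card =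
          ((Finset.univ.filter fun u : k => tr3 (f + 1) u = 0).erase 0).card := by
        refine Finset.card_bij' (fun u _ => (1 - r) * u) (fun v _ => v / (1 - r)) ?_ ?_ ?_ ?_
        · intro u hu
          simp only [Finset.mem_filter, Finset.mem_univ, true_and, Finset.mem_erase] at hu ⊢
          exact ⟨mul_ne_zero hr' hu.1, hu.2⟩
        · intro v hv
          simp only [Finset.mem_filter, Finset.mem_univ, true_and, Finset.mem_erase] at hv ⊢
          exact ⟨div_ne_zero hv.1 hr', by rw [mul_div_cancel₀ _ hr']; exact hv.2⟩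
        · intro u _; exact mul_div_cancel_left₀ u hr'
        · intro v _; exact mul_div_cancel₀ v hr'
      have h9 : (0 : k) ∈ (Finset.univ.filter fun u : k => tr3 (f + 1) u = 0) := by
        simp [AS3_zero]
      rw [h8, Finset.card_erase_of_mem h9, hT0, Nat.cast_sub (Nat.one_le_pow _ _ (by norm_num))]
      push_cast; ring
  have hC : ∑ r : k, quadraticChar k r * ((if r = 1 then (3 : ℤ) ^ (f + 1) - 1 else 3 ^ f - 1)) =
      2 * 3 ^ f := by
    have h1 : ∀ r : k, quadraticChar k r * ((if r = 1 then (3 : ℤ) ^ (f + 1) - 1 else 3 ^ f - 1)) =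
        (3 ^ f - 1) * quadraticChar k r + (if r = 1 then (2 : ℤ) * 3 ^ f else 0) := by
      intro r
      by_cases h : r = 1
      · rw [if_pos h, if_pos h, h, map_one]; ring
      · rw [if_neg h, if_neg h]; ring
    rw [Finset.sum_congr rfl (fun r _ => h1 r), Finset.sum_add_distrib, ← Finset.mul_sum,
      quadraticChar_sum_zero AS3_ring, Finset.sum_ite_eq' Finset.univ (1 : k)]
    simp
  have := hA.symm.trans (hB.trans hC)
  omega

theorem AS3_val [CharP k 3] (f : ℕ) (hk : Fintype.card k = 3 ^ (f + 1)) (hev : Even f) :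
    AS3_t (f + 1) (1 : k) = (-3) ^ (f / 2) := by
  have h1 := AS3_sq f hk hev
  obtain ⟨z, hz⟩ := AS3_mod4 f hk hev
  obtain ⟨l, hl⟩ := hev
  have hl2 : f / 2 = l := by omega
  rw [hl2]
  have h2 : (AS3_t (f + 1) (1 : k) - (-3) ^ l) * (AS3_t (f + 1) (1 : k) + (-3) ^ l) = 0 := by
    have h3 : ((-3 : ℤ) ^ l) ^ 2 = 3 ^ f := by
      rw [hl, ← pow_mul, ← two_mul, mul_comm l 2, pow_mul, pow_mul]; norm_num
    linear_combination h1 - h3
  have h4 : (4 : ℤ) ∣ (-3) ^ l - 1 ^ l := (by norm_num : (4 : ℤ) ∣ -3 - 1).trans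
    (sub_dvd_pow_sub_pow (-3) 1 l)
  rw [one_pow] at h4
  obtain ⟨w, hw⟩ := h4
  rcases mul_eq_zero.1 h2 with h | h
  · exact sub_eq_zero.1 h
  · omega

/-- Sum over the additive polynomial. -/
theorem AS3_fib [CharP k 3] (f : ℕ) (hk : Fintype.card k = 3 ^ (f + 1)) (c : k) :
    ∑ x : k, quadraticChar k (x ^ 3 - x + c) = 3 * AS3_t (f + 1) (tr3 (f + 1) c) := by
  haveI : Fact (Nat.Prime 3) := ⟨Nat.prime_three⟩
  have hcube : ∀ x y : k, (x - y) ^ 3 = x ^ 3 - y ^ 3 := fun x y => sub_pow_char x y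
  have h1 : ∀ x : k, tr3 (f + 1) (x ^ 3 - x + c) = tr3 (f + 1) c := by
    intro x
    rw [AS3_add, AS3_sub, AS3_frob (f + 1) hk, sub_self, zero_add]
  have hT := AS3_card f hk (tr3 (f + 1) c) (AS3_cases (f + 1) hk c)
  set Z := Finset.univ.filter (fun u : k => tr3 (f + 1) u = tr3 (f + 1) c) with hZ
  have hmaps : ∀ x ∈ (Finset.univ : Finset k), x ^ 3 - x + c ∈ Z := by
    intro x _
    rw [hZ, Finset.mem_filter]
    exact ⟨Finset.mem_univ _, h1 x⟩
  have hfle : ∀ u ∈ Z, (Finset.univ.filter fun x : k => x ^ 3 - x + c = u).card ≤ 3 := by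
    intro u _
    by_cases he : (Finset.univ.filter fun x : k => x ^ 3 - x + c = u).Nonempty
    · obtain ⟨x0, hx0⟩ := he
      have hx0' := (Finset.mem_filter.1 hx0).2
      have hsub : (Finset.univ.filter fun x : k => x ^ 3 - x + c = u) ⊆ {x0, x0 + 1, x0 - 1} := by
        intro x hx
        have hx' := (Finset.mem_filter.1 hx).2
        have h2 : (x - x0) * ((x - x0 - 1) * (x - x0 + 1)) = 0 := by
          have h3 := hcube x x0
          have h4 : (x - x0) ^ 3 - (x - x0) = 0 := by
            rw [h3]; linear_combination hx' - hx0'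
          linear_combination h4
        simp only [Finset.mem_insert, Finset.mem_singleton]
        rcases mul_eq_zero.1 h2 with h | h
        · left; exact sub_eq_zero.1 h
        · rcases mul_eq_zero.1 h with h | h
          · right; left; linear_combination h
          · right; right; linear_combination h
      exact (Finset.card_le_card hsub).trans Finset.card_le_three
    · rw [Finset.not_nonempty_iff_eq_empty.1 he]; simp
  have htot : ∑ u ∈ Z, (Finset.univ.filter fun x : k => x ^ 3 - x + c = u).card = 3 ^ (f + 1) := by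
    rw [← hk, ← Finset.card_univ]
    exact (Finset.card_eq_sum_card_fiberwise hmaps).symm
  have hfeq : ∀ u ∈ Z, (Finset.univ.filter fun x : k => x ^ 3 - x + c = u).card = 3 := by
    have h5 : ∑ u ∈ Z, (Finset.univ.filter fun x : k => x ^ 3 - x + c = u).card = ∑ u ∈ Z, 3 := by
      rw [htot, Finset.sum_const, hT, pow_succ]; rfl
    exact (Finset.sum_eq_sum_iff_of_le hfle).1 h5
  rw [← Finset.sum_fiberwise_of_maps_to hmaps]
  unfold AS3_t
  rw [Finset.mul_sum]
  refine Finset.sum_congr rfl fun u hu => ?_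
  rw [Finset.sum_congr rfl (g := fun _ => quadraticChar k u)
    (fun x hx => by rw [(Finset.mem_filter.1 hx).2]), Finset.sum_const, hfeq u hu]
  simp

end

theorem sum_as3 {k : Type*} [Field k] [Fintype k] [DecidableEq k] (f : ℕ)
    (hk : Fintype.card k = 3 ^ f) (hodd : Odd f) (c : k) (a : ℕ) (hc : tr3 f c = (a : k)) :
    ∑ x : k, quadraticChar k (x ^ 3 - x + c) =
      if a % 3 = 0 then 0 else if a % 3 = 1 then 3 * (-3) ^ ((f - 1) / 2)
        else -(3 * (-3) ^ ((f - 1) / 2)) := by
  haveI : CharP k 3 := AS3_char f hk hodd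
  obtain ⟨g, rfl⟩ : ∃ g, f = g + 1 := ⟨f - 1, by have := hodd.pos; omega⟩
  have hev : Even g := by
    rcases Nat.even_or_odd g with h | h
    · exact h
    · exact absurd hodd (Nat.not_odd_iff_even.2 h.add_one)
  have h3 : (3 : k) = 0 := by
    have := CharP.cast_eq_zero k 3
    exact_mod_cast this
  have ha : (a : k) = ((a % 3 : ℕ) : k) := by
    conv_lhs => rw [← Nat.div_add_mod a 3]
    push_cast
    rw [h3]; ring
  rw [AS3_fib g hk c, hc, ha, Nat.add_sub_cancel]
  have hlt : a % 3 < 3 := Nat.mod_lt _ (by norm_num)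
  have hcase : a % 3 = 0 ∨ a % 3 = 1 ∨ a % 3 = 2 := by omega
  rcases hcase with h | h | h
  · rw [h, if_pos rfl, Nat.cast_zero, AS3_t0 (g + 1) hk hodd, mul_zero]
  · rw [h, if_neg (by norm_num), if_pos rfl, Nat.cast_one, AS3_val g hk hev]
  · have h2 : ((2 : ℕ) : k) = -1 := by push_cast; linear_combination h3
    rw [h, if_neg (by norm_num), if_neg (by norm_num), h2, AS3_tneg (g + 1) hk hodd,
      AS3_val g hk hev]
    ring

end Pool.Agent.Lib.MP_1a91b9_ntT3.CU
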