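import Pool.Agent.Lib.MP_1a91b9_ntT3.EF.Main
import Pool.Agent.Lib.MP_1a91b9_ntG.OfRecip
import Pool.Agent.Lib.MP_1a91b9_ntT.CA.Art

/-!
# CU: the cubic twists of `y² + ω y = x³ + (1 + 2ω) x² - x`: definitions
-/

set_option autoImplicit false

namespace Pool.Agent.Lib.MP_1a91b9_ntT3.CU

open NumberField IsDedekindDomain Polynomial Pool.Agent.Lib.MP_1a91b9_nt
open Pool.Agent.Lib.MP_1a91b9_ntT Pool.Agent.Lib.MP_1a91b9_ntT3.EF

universe u

/-- The constant `B` of the equation `Y² = X³ + B` of `E49`. -/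
noncomputable def Bc (F : Type*) [Field F] [Algebra K F] : F :=
  algebraMap K F (om ^ 2 / 4 + (1 + 2 * om) / 9)

/-- The cubic twist `Y² = X³ + B d²` of `E49`. -/
noncomputable def tw3 (F : Type*) [Field F] [Algebra K F] (d : F) : WeierstrassCurve F :=
  ⟨0, 0, 0, 0, Bc F * d ^ 2⟩

/-- A model of the twist by `d` which is good away from `3`. -/
def M1 {A : Type*} [CommRing A] (w d : A) : WeierstrassCurve A :=
  ⟨0, 0, 27 * w * d, 0, 81 * (1 + 2 * w) * d ^ 2⟩

/-- A model of the twist by `1 + 3 (1 + 2 w) t` which is good above `3`. -/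
def M3 {A : Type*} [CommRing A] (w t : A) : WeierstrassCurve A :=
  ⟨0, 4 * (1 + 2 * w), 8 * w, -16,
    16 * (3 * (1 + 2 * w) * w ^ 2 - 4) * (2 * t + 3 * (1 + 2 * w) * t ^ 2)⟩

theorem M1_map {A B : Type*} [CommRing A] [CommRing B] (f : A →+* B) (w d : A) :
    (M1 w d).map f = M1 (f w) (f d) := by
  ext
  · exact map_zero f
  · exact map_zero f
  · change f (27 * w * d) = 27 * f w * f d
    simp only [map_mul, map_ofNat]
  · exact map_zero f
  · change f (81 * (1 + 2 * w) * d ^ 2) = 81 * (1 + 2 * f w) * f d ^ 2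
    simp only [map_mul, map_ofNat, map_add, map_one, map_pow]

theorem M3_map {A B : Type*} [CommRing A] [CommRing B] (f : A →+* B) (w t : A) :
    (M3 w t).map f = M3 (f w) (f t) := by
  ext
  · exact map_zero f
  · change f (4 * (1 + 2 * w)) = 4 * (1 + 2 * f w)
    simp only [map_mul, map_ofNat, map_add, map_one]
  · change f (8 * w) = 8 * f w
    simp only [map_mul, map_ofNat]
  · change f (-16) = -16
    simp only [map_neg, map_ofNat]
  · change f (16 * (3 * (1 + 2 * w) * w ^ 2 - 4) * (2 * t + 3 * (1 + 2 * w) * t ^ 2)) =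
      16 * (3 * (1 + 2 * f w) * f w ^ 2 - 4) * (2 * f t + 3 * (1 + 2 * f w) * f t ^ 2)
    simp only [map_mul, map_ofNat, map_add, map_one, map_pow, map_sub]

theorem M1_delta {A : Type*} [CommRing A] (w d : A) (h : w ^ 2 + w + 1 = 0) :
    (M1 w d).Δ = 3 ^ 12 * (1 + 3 * w) ^ 2 * d ^ 4 := by
  simp only [M1, WeierstrassCurve.Δ, WeierstrassCurve.b₂, WeierstrassCurve.b₄,
    WeierstrassCurve.b₆, WeierstrassCurve.b₈]
  linear_combination (-14348907 * w ^ 2 * d ^ 4 - 11160261 * w * d ^ 4 - 3365793 * d ^ 4) * h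

theorem M3_delta {A : Type*} [CommRing A] (w t : A) (h : w ^ 2 + w + 1 = 0) :
    (M3 w t).Δ = 2 ^ 12 * (1 + 3 * w) ^ 2 * (1 + 3 * (1 + 2 * w) * t) ^ 4 := by
  simp only [M3, WeierstrassCurve.Δ, WeierstrassCurve.b₂, WeierstrassCurve.b₄,
    WeierstrassCurve.b₆, WeierstrassCurve.b₈]
  linear_combination (-143327232*w^6*t^4 - 143327232*w^5*t^4 - 95551488*w^5*t^3 - 18874368*w^5*t^2
    + 23887872*w^4*t^4 - 47775744*w^4*t^3 - 52199424*w^4*t^2 - 6291456*w^4*t + 111476736*w^3*t^4
    + 39813120*w^3*t^3 - 21233664*w^3*t^2 - 8945664*w^3*t - 524288*w^3 + 1658880*w^2*t^4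
    + 54411264*w^2*t^3 + 16637952*w^2*t^2 - 2605056*w^2*t - 372736*w^2 - 52088832*w*t^4
    - 26099712*w*t^3 + 21209088*w*t^2 + 4636672*w*t - 86016*w - 16257024*t^4 - 21676032*t^3
    - 2973696*t^2 + 2834432*t + 323584) * h

section
variable {F : Type*} [Field F] [Algebra K F]

theorem om_eq : om ^ 2 + om + 1 = 0 := by
  have h2 := congrArg (algebraMap (𝓞 K) K) omO_eq
  rw [map_add, map_add, map_pow, map_one, map_zero] at h2
  exact h2

theorem omF_eq : (algebraMap K F om) ^ 2 + algebraMap K F om + 1 = 0 := by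
  rw [← map_pow, ← map_add, ← map_one (algebraMap K F), ← map_add, om_eq, map_zero]

theorem Bc_eq' [CharZero F] :
    Bc F = (algebraMap K F om) ^ 2 / 4 + (1 + 2 * algebraMap K F om) / 9 := by
  simp only [Bc, map_add, map_div₀, map_pow, map_mul, map_one, map_ofNat]

theorem Bc_eq [CharZero F] :
    36 * Bc F = (1 + 2 * algebraMap K F om) * (1 + 3 * algebraMap K F om) := by
  rw [Bc_eq']
  linear_combination (3 : F) * omF_eq (F := F)

theorem tw3_c₄ (d : F) : (tw3 F d).c₄ = 0 := by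
  simp only [tw3, WeierstrassCurve.c₄, WeierstrassCurve.b₂, WeierstrassCurve.b₄]
  ring

theorem tw3_delta [CharZero F] (d : F) :
    (tw3 F d).Δ = (1 + 3 * algebraMap K F om) ^ 2 * d ^ 4 := by
  have h := Bc_eq (F := F)
  have hw := omF_eq (F := F)
  set w := algebraMap K F om
  simp only [tw3, WeierstrassCurve.Δ, WeierstrassCurve.b₂, WeierstrassCurve.b₄,
    WeierstrassCurve.b₆, WeierstrassCurve.b₈]
  have h2 : 1296 * (Bc F) ^ 2 = ((1 + 2 * w) * (1 + 3 * w)) ^ 2 := by
    rw [← h]; ring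
  linear_combination (-(1 : F) / 3) * d ^ 4 * h2 - (4 / 3) * (1 + 3 * w) ^ 2 * d ^ 4 * hw

theorem exists_tw3_M1 [CharZero F] (d : F) :
    ∃ C : WeierstrassCurve.VariableChange F, C • tw3 F d = M1 (algebraMap K F om) d := by
  have h := Bc_eq' (F := F)
  set w := algebraMap K F om with hw
  refine ⟨⟨(Units.mk0 3 three_ne_zero)⁻¹, 0, 0, w * d / 2⟩, ?_⟩
  ext
  · simp only [WeierstrassCurve.variableChange_a₁, tw3, M1]; ring
  · simp only [WeierstrassCurve.variableChange_a₂, tw3, M1]; ring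
  · simp only [WeierstrassCurve.variableChange_a₃, tw3, M1, inv_inv, Units.val_mk0]; ring
  · simp only [WeierstrassCurve.variableChange_a₄, tw3, M1]; ring
  · simp only [WeierstrassCurve.variableChange_a₆, tw3, M1, inv_inv, Units.val_mk0, h]; ring

theorem exists_tw3_M3 [CharZero F] (t : F) :
    ∃ C : WeierstrassCurve.VariableChange F,
      C • tw3 F (1 + 3 * (1 + 2 * algebraMap K F om) * t) = M3 (algebraMap K F om) t := by
  have h := Bc_eq' (F := F)
  have hom := omF_eq (F := F)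
  set w := algebraMap K F om with hw
  refine ⟨⟨(Units.mk0 2 two_ne_zero)⁻¹, (1 + 2 * w) / 3, 0, w / 2⟩, ?_⟩
  ext
  · simp only [WeierstrassCurve.variableChange_a₁, tw3, M3]; ring
  · simp only [WeierstrassCurve.variableChange_a₂, tw3, M3, inv_inv, Units.val_mk0]; ring
  · simp only [WeierstrassCurve.variableChange_a₃, tw3, M3, inv_inv, Units.val_mk0]; ring
  · simp only [WeierstrassCurve.variableChange_a₄, tw3, M3, inv_inv, Units.val_mk0]
    linear_combination (64 / 3 : F) * hom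
  · simp only [WeierstrassCurve.variableChange_a₆, tw3, M3, inv_inv, Units.val_mk0, h]
    linear_combination (512*w*t^2 + (512/27)*w + 256*t^2 + (512/3)*t + (256/27)) * hom

theorem exists_tw3_E49 [CharZero F] :
    ∃ C : WeierstrassCurve.VariableChange F, C • tw3 F 1 = E49 F := by
  have h := Bc_eq' (F := F)
  have hom := omF_eq (F := F)
  have e : E49 F = ⟨0, 1 + 2 * algebraMap K F om, algebraMap K F om, -1, 0⟩ := by
    rw [E49_eq]
    rfl
  rw [e]
  set w := algebraMap K F om with hw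
  refine ⟨⟨1, (1 + 2 * w) / 3, 0, w / 2⟩, ?_⟩
  ext
  · simp only [WeierstrassCurve.variableChange_a₁, tw3]; ring
  · simp only [WeierstrassCurve.variableChange_a₂, tw3, inv_one, Units.val_one]; ring
  · simp only [WeierstrassCurve.variableChange_a₃, tw3, inv_one, Units.val_one]; ring
  · simp only [WeierstrassCurve.variableChange_a₄, tw3, inv_one, Units.val_one]
    linear_combination (4 / 3 : F) * hom
  · simp only [WeierstrassCurve.variableChange_a₆, tw3, inv_one, Units.val_one, h]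
    linear_combination (4 * (1 + 2 * w) / 27) * hom

theorem exists_tw3_scale (d c : F) (hc : c ≠ 0) :
    ∃ C : WeierstrassCurve.VariableChange F, C • tw3 F d = tw3 F (d * c ^ 3) := by
  refine ⟨⟨(Units.mk0 c hc)⁻¹, 0, 0, 0⟩, ?_⟩
  ext
  · simp only [WeierstrassCurve.variableChange_a₁, tw3]; ring
  · simp only [WeierstrassCurve.variableChange_a₂, tw3]; ring
  · simp only [WeierstrassCurve.variableChange_a₃, tw3]; ring
  · simp only [WeierstrassCurve.variableChange_a₄, tw3]; ring
  · simp only [WeierstrassCurve.variableChange_a₆, tw3, inv_inv, Units.val_mk0]; ring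

end

/-- A Kummer generator: `σ` multiplies it by `ω`. -/
structure IsKum {N N' : Type u} [Field N] [Algebra K N] [Field N'] [Algebra K N'] [Algebra N N']
    (σ : Gal(N'/N)) (θ : 𝓞 N') : Prop where
  ne : θ ≠ 0
  eq : σ • θ = algebraMap (𝓞 K) (𝓞 N') omO * θ

theorem ram_cf {N N' : Type u} [Field N] [NumberField N] [Field N'] [NumberField N']
    [Algebra N N'] [IsGalois N N'] (v : HeightOneSpectrum (𝓞 N)) :
    Ram N' v ↔ CF.Ram N' v := MP_1a91b9_ntG.ram_eq v

end Pool.Agent.Lib.MP_1a91b9_ntT3.CU
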