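import Pool.Agent.Lib.MP_1a91b9_nt.TwistRank
import Pool.Agent.Lib.MP_1a91b9_ntT3.CU.Defs

/-!
# CU, job CLS: the curves over `N` which become isomorphic to `E49` over an extension of odd degree

Adapt `exists_tw` (MP_1a91b9_ntT/TW/Iso.lean). PROOF (complete). D and B₀ with D • W = ⟨0,0,0,A,B₀⟩, A = 0 since c₄ = 0 (`exists_short`,
E49 has c₄ = 0: `W49_c₄`, `E49_eq`). By `exists_tw3_E49` (over F) there is a variable change over F from Y² = X³ + B₀ to tw3 F 1 = Y² = X³ + Bc F;
as there it has r = s = t = 0, so algebraMap B₀ = Bc F * u ^ 6 with u in F, u ≠ 0. Bc F = algebraMap (Bc N) (scalar tower), Bc N ≠ 0 (36 Bc = (1+2ω)(1+3ω), both nonzero: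
their norms are 3 and 7). b := B₀ / Bc N, b = u⁶ = (u³)² in F. [F : N] is odd, so b is a square in N: otherwise X² - b is irreducible over N
(`X_pow_sub_C_irreducible_of_prime`) and 2 divides [F : N] (as in `exists_cube` there). b = δ₀², u³ = ± δ₀ in F: take δ = ± δ₀ with u³ = δ.
-/

set_option autoImplicit false

namespace Pool.Agent.Lib.MP_1a91b9_ntT3.CU

open NumberField IsDedekindDomain Polynomial WeierstrassCurve
open Pool.Agent.Lib.MP_1a91b9_ntT Pool.Agent.Lib.MP_1a91b9_ntT3.EF Pool.Agent.Lib.MP_1a91b9_nt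

private theorem CLS_Bc_ne_zero {N : Type*} [Field N] [CharZero N] [Algebra K N] : Bc N ≠ 0 := by
  intro h
  have h1 := Bc_eq (F := N)
  have hw := omF_eq (F := N)
  rw [h, mul_zero] at h1
  rcases mul_eq_zero.mp h1.symm with h2 | h2
  · have h3 : (3 : N) = 0 := by
      linear_combination (-1 - 2 * algebraMap K N om) * h2 + 4 * hw
    exact three_ne_zero h3
  · have h3 : (7 : N) = 0 := by
      linear_combination (-2 - 3 * algebraMap K N om) * h2 + 9 * hw
    norm_num at h3

/-- the shape of a change of variables between two short equations with `A = 0` -/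
private theorem CLS_vc {F : Type*} [Field F] [CharZero F] (B B' : F)
    (C : WeierstrassCurve.VariableChange F)
    (h : C • (⟨0, 0, 0, 0, B⟩ : WeierstrassCurve F) = ⟨0, 0, 0, 0, B'⟩) :
    B = B' * (C.u : F) ^ 6 := by
  have hu : (C.u : F) ≠ 0 := C.u.ne_zero
  have h1 := congrArg WeierstrassCurve.a₁ h
  have h2 := congrArg WeierstrassCurve.a₂ h
  have h3 := congrArg WeierstrassCurve.a₃ h
  have h6 := congrArg WeierstrassCurve.a₆ h
  simp only [WeierstrassCurve.variableChange_a₁, WeierstrassCurve.variableChange_a₂,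
    WeierstrassCurve.variableChange_a₃, WeierstrassCurve.variableChange_a₆] at h1 h2 h3 h6
  have hui : ((C.u⁻¹ : Fˣ) : F) ≠ 0 := Units.ne_zero _
  have hs : C.s = 0 := by
    rcases mul_eq_zero.mp h1 with h | h
    · exact absurd h hui
    · have h' : (2 : F) * C.s = 0 := by linear_combination h
      exact (mul_eq_zero.mp h').resolve_left two_ne_zero
  rw [hs] at h2
  have hr : C.r = 0 := by
    rcases mul_eq_zero.mp h2 with h | h
    · exact absurd h (pow_ne_zero _ hui)
    · have h' : (3 : F) * C.r = 0 := by linear_combination h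
      exact (mul_eq_zero.mp h').resolve_left three_ne_zero
  rw [hr] at h3 h6
  have ht : C.t = 0 := by
    rcases mul_eq_zero.mp h3 with h | h
    · exact absurd h (pow_ne_zero _ hui)
    · have h' : (2 : F) * C.t = 0 := by linear_combination h
      exact (mul_eq_zero.mp h').resolve_left two_ne_zero
  rw [ht] at h6
  have h7 : ((C.u⁻¹ : Fˣ) : F) ^ 6 * (C.u : F) ^ 6 = 1 := by
    rw [← mul_pow, Units.inv_mul, one_pow]
  linear_combination (C.u : F) ^ 6 * h6 - B * h7

/-- an element of an extension of odd degree whose square is in the base field is in the base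
field -/
private theorem CLS_odd {N F : Type*} [Field N] [Field F] [Algebra N F] [FiniteDimensional N F]
    (hodd : Odd (Module.finrank N F)) (x : F) (b : N) (h : x ^ 2 = algebraMap N F b) :
    ∃ δ : N, algebraMap N F δ = x := by
  have hint : IsIntegral N x := IsIntegral.of_finite N x
  have h1 : (minpoly N x).natDegree ∣ Module.finrank N F := minpoly.degree_dvd hint
  have h2 : minpoly N x ∣ X ^ 2 - C b := by
    apply minpoly.dvd
    rw [map_sub, map_pow, aeval_X, aeval_C, h, sub_self]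
  have h3 : (minpoly N x).natDegree ≤ 2 := by
    have h4 := natDegree_le_of_dvd h2 (X_pow_sub_C_ne_zero (by norm_num) b)
    rwa [natDegree_X_pow_sub_C] at h4
  have h5 := Odd.of_dvd_nat hodd h1
  have h6 : (minpoly N x).natDegree = 1 := by
    obtain ⟨k, hk⟩ := h5
    omega
  rw [minpoly.natDegree_eq_one_iff] at h6
  exact h6

theorem exists_tw3 {N F : Type*} [Field N] [CharZero N] [Field F] [CharZero F] [Algebra K N]
    [Algebra K F] [Algebra N F] [IsScalarTower K N F] [FiniteDimensional N F]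
    (hodd : Odd (Module.finrank N F)) (W : WeierstrassCurve N)
    (C₀ : WeierstrassCurve.VariableChange F) (hC : C₀ • (W.baseChange F) = E49 F) :
    ∃ (δ : N) (u : F) (D : WeierstrassCurve.VariableChange N), δ ≠ 0 ∧
      u ^ 3 = algebraMap N F δ ∧ D • W = tw3 N δ := by
  obtain ⟨D, hD⟩ := exists_short W
  -- the invariant c₄ vanishes
  have hc4 : W.c₄ = 0 := by
    have h1 := congrArg WeierstrassCurve.c₄ hC
    rw [WeierstrassCurve.variableChange_c₄, E49_eq, W49_c₄ _ (omF_eq (F := F))] at h1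
    have h2 := (mul_eq_zero.mp h1).resolve_left (pow_ne_zero _ (Units.ne_zero _))
    have h3 : algebraMap N F W.c₄ = 0 := by
      rw [← WeierstrassCurve.map_c₄]
      exact h2
    exact (map_eq_zero _).mp h3
  obtain ⟨B₀, hB₀⟩ : ∃ B₀ : N, B₀ = -W.c₆ / 864 := ⟨_, rfl⟩
  have hD' : D • W = ⟨0, 0, 0, 0, B₀⟩ := by
    rw [hD, hc4, hB₀, neg_zero, zero_div]
  -- the change of variables over F
  obtain ⟨C₁, hC₁⟩ := exists_tw3_E49 (F := F)
  have hDF : (D.map (algebraMap N F)) • (W.baseChange F) =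
      (⟨0, 0, 0, 0, algebraMap N F B₀⟩ : WeierstrassCurve F) := by
    have h : (D • W).baseChange F = (D.map (algebraMap N F)) • (W.baseChange F) :=
      (WeierstrassCurve.map_variableChange (W := W) D (algebraMap N F)).symm
    rw [← h, hD']
    ext
    · exact map_zero _
    · exact map_zero _
    · exact map_zero _
    · exact map_zero _
    · rfl
  have hfin : (C₁⁻¹ * C₀ * (D.map (algebraMap N F))⁻¹) •
      (⟨0, 0, 0, 0, algebraMap N F B₀⟩ : WeierstrassCurve F) = ⟨0, 0, 0, 0, Bc F⟩ := by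
    have e : tw3 F 1 = ⟨0, 0, 0, 0, Bc F⟩ := by
      rw [tw3, one_pow, mul_one]
    rw [← e, ← hDF, mul_smul, inv_smul_smul, mul_smul, hC, ← hC₁, inv_smul_smul]
  set C := C₁⁻¹ * C₀ * (D.map (algebraMap N F))⁻¹ with hCdef
  have h6 := CLS_vc _ _ C hfin
  have hBcF : Bc F = algebraMap N F (Bc N) := by
    rw [Bc, Bc, ← IsScalarTower.algebraMap_apply]
  have hBcN : Bc N ≠ 0 := CLS_Bc_ne_zero
  have h7 : ((C.u : F) ^ 3) ^ 2 = algebraMap N F (B₀ / Bc N) := by
    rw [map_div₀, h6, ← hBcF, ← pow_mul]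
    have : Bc F ≠ 0 := CLS_Bc_ne_zero
    field_simp
  obtain ⟨δ, hδ⟩ := CLS_odd hodd _ _ h7
  refine ⟨δ, (C.u : F), D, ?_, hδ.symm, ?_⟩
  · rintro rfl
    rw [map_zero] at hδ
    exact pow_ne_zero 3 C.u.ne_zero hδ.symm
  · have h8 : δ ^ 2 = B₀ / Bc N := by
      apply (algebraMap N F).injective
      rw [map_pow, hδ, h7]
    rw [hD', tw3, h8, mul_div_cancel₀ _ hBcN]

end Pool.Agent.Lib.MP_1a91b9_ntT3.CU
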