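import Pool.Agent.Lib.MP_1a91b9_ntT3.CU.Defs

/-!
# CU, job CNTO: the number of points of `M1` over a finite field of characteristic prime to `6`

Adapt `card_W49` (EF/Cnt.lean; its lemmas CNT_shift, CNT_T, CNT_J, S4.u4_cube_count can be used). M1 w d is
y² + 27 w d y = x³ + 81 (1 + 2w) d². With Y = 2y + 27 w d: Y² - c = 4 x³, c = 729 w² d² + 324 (1+2w) d² = 81 (1+2w)(1+3w) d²
(by w² + w + 1 = 0). All affine points are nonsingular: Δ = 3^12 (1+3w)² d⁴ ≠ 0 (`M1_delta`).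
#points = 1 + ∑_y #{x : x³ = (Y² - c)/4} = 1 + ∑_y (1 + χ(..) + χ⁻¹(..)); ∑_Y ψ((Y² - c)/4) = ρ(c) ψ(c) J(ψ,ψ) (`CNT_T`, `CNT_J`).
ρ(c) = ρ((1+2w)(1+3w)) = e (81 d² = (9d)²). ψ(c) = ψ(1+3w) ψ(d)²: ψ(81 (1+2w)) = ψ(27) ψ(3 (1+2w)) = 1 since 3 (1+2w) = (-(1+2w))³·... :
(1+2w)² = -3, so (1+2w)³ = -3 (1+2w), 3 (1+2w) = (-(1+2w))³, 27 = 3³, and ψ is 1 on nonzero cubes (ψ³ = 1).
-/

set_option autoImplicit false

namespace Pool.Agent.Lib.MP_1a91b9_ntT3.CU

open Pool.Agent.Lib.MP_1a91b9_ntT Pool.Agent.Lib.MP_1a91b9_ntT3.EF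

private theorem CNTO_card_point {k : Type*} [Field k] [Fintype k] [DecidableEq k]
    (h3 : (3 : k) ≠ 0) (w : k) (hw : w ^ 2 + w + 1 = 0) (h7 : 1 + 3 * w ≠ 0) (d : k) (hd : d ≠ 0) :
    Nat.card (M1 w d).toAffine.Point =
      1 + ∑ y : k, (Finset.univ.filter fun x : k =>
        x ^ 3 + 81 * (1 + 2 * w) * d ^ 2 = y ^ 2 + 27 * w * d * y).card := by
  classical
  have hns : ∀ p : k × k, (M1 w d).toAffine.Nonsingular p.1 p.2 ↔
      p.1 ^ 3 + 81 * (1 + 2 * w) * d ^ 2 = p.2 ^ 2 + 27 * w * d * p.2 := by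
    intro p
    have hell : (M1 w d).Δ ≠ 0 := by
      rw [M1_delta w d hw]
      exact mul_ne_zero (mul_ne_zero (pow_ne_zero 12 h3) (pow_ne_zero 2 h7)) (pow_ne_zero 4 hd)
    have hE : (M1 w d).IsElliptic := ⟨isUnit_iff_ne_zero.mpr hell⟩
    rw [← WeierstrassCurve.Affine.equation_iff_nonsingular,
      WeierstrassCurve.Affine.equation_iff]
    simp only [M1, WeierstrassCurve.toAffine]
    constructor
    · intro h
      linear_combination -h
    · intro h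
      linear_combination -h
  rw [Nat.card_congr (Pool.Agent.Lib.MP_1a91b9_nt.pointEquivOption _), Finite.card_option,
    add_comm]
  congr 1
  rw [Nat.card_eq_fintype_card, Fintype.card_subtype]
  have e1 : (Finset.univ.filter fun p : k × k => (M1 w d).toAffine.Nonsingular p.1 p.2) =
      Finset.univ.filter fun p : k × k =>
        p.1 ^ 3 + 81 * (1 + 2 * w) * d ^ 2 = p.2 ^ 2 + 27 * w * d * p.2 :=
    Finset.filter_congr fun p _ => hns p
  rw [e1, Finset.card_eq_sum_card_fiberwise (f := Prod.snd) (t := Finset.univ)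
    (fun _ _ => Finset.mem_coe.mpr (Finset.mem_univ _))]
  refine Finset.sum_congr rfl fun y _ => ?_
  refine Finset.card_bij (fun p _ => p.1) ?_ ?_ ?_
  · rintro ⟨a, b⟩ hp
    simp only [Finset.mem_filter, Finset.mem_univ, true_and] at hp ⊢
    obtain ⟨h1, rfl⟩ := hp
    exact h1
  · rintro ⟨a, b⟩ hp ⟨a', b'⟩ hp' h
    simp only [Finset.mem_filter, Finset.mem_univ, true_and] at hp hp' h
    rw [Prod.mk.injEq]
    exact ⟨h, hp.2.trans hp'.2.symm⟩
  · intro a ha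
    simp only [Finset.mem_filter, Finset.mem_univ, true_and] at ha
    exact ⟨(a, y), by simpa using ha, rfl⟩

theorem card_M1 {k : Type*} [Field k] [Fintype k] (h2 : (2 : k) ≠ 0) (h3 : (3 : k) ≠ 0)
    (χ : MulChar k ℂ) (hχ : χ ≠ 1) (hχ3 : χ ^ 3 = 1) (hq : 3 ∣ Fintype.card k - 1)
    (w : k) (hw : w ^ 2 + w + 1 = 0) (h7 : 1 + 3 * w ≠ 0) (d : k) (hd : d ≠ 0) (e : ℤ)
    (he : e = 1 ∨ e = -1) (hes : e = 1 ↔ IsSquare ((1 + 2 * w) * (1 + 3 * w))) :
    (Nat.card (M1 w d).toAffine.Point : ℂ) = Fintype.card k + 1 +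
      (e : ℂ) * (χ (1 + 3 * w) * χ d ^ 2 * jacobiSum χ χ +
        χ⁻¹ (1 + 3 * w) * χ⁻¹ d ^ 2 * jacobiSum χ⁻¹ χ⁻¹) := by
  classical
  have hl2 : (1 + 2 * w) ^ 2 = -3 := by linear_combination 4 * hw
  have hl0 : 1 + 2 * w ≠ 0 := by
    intro h0
    rw [h0] at hl2
    apply h3
    linear_combination hl2
  have h4 : (4 : k) ≠ 0 := by
    have : (4 : k) = 2 * 2 := by norm_num
    rw [this]
    exact mul_ne_zero h2 h2
  have h9 : (9 : k) ≠ 0 := by
    have : (9 : k) = 3 * 3 := by norm_num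
    rw [this]
    exact mul_ne_zero h3 h3
  have hne : (1 + 2 * w) * (1 + 3 * w) ≠ 0 := mul_ne_zero hl0 h7
  have h9d : 9 * d ≠ 0 := mul_ne_zero h9 hd
  obtain ⟨c, hc⟩ : ∃ c : k, c = (1 + 2 * w) * (1 + 3 * w) * (9 * d) ^ 2 := ⟨_, rfl⟩
  have hc0 : c ≠ 0 := by
    rw [hc]
    exact mul_ne_zero hne (pow_ne_zero 2 h9d)
  have hcw : c = 324 * (1 + 2 * w) * d ^ 2 + 729 * w ^ 2 * d ^ 2 := by
    rw [hc]
    linear_combination (-243 : k) * d ^ 2 * hw
  have hinv3 : χ⁻¹ ^ 3 = 1 := by rw [inv_pow, hχ3, inv_one]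
  have hinv1 : χ⁻¹ ≠ 1 := inv_ne_one.mpr hχ
  have hchar : ringChar k ≠ 2 := by
    intro h0
    apply h2
    have h5 := CharP.cast_eq_zero k (ringChar k)
    rw [h0] at h5
    exact_mod_cast h5
  -- the quadratic symbol
  have hρ : ((quadraticChar k c : ℤ) : ℂ) = (e : ℂ) := by
    congr 1
    have hsq : IsSquare c ↔ IsSquare ((1 + 2 * w) * (1 + 3 * w)) := by
      constructor
      · rintro ⟨s, hs⟩
        refine ⟨s / (9 * d), ?_⟩
        rw [div_mul_div_comm, ← hs, hc, eq_div_iff (mul_ne_zero h9d h9d)]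
        ring
      · rintro ⟨s, hs⟩
        refine ⟨s * (9 * d), ?_⟩
        rw [hc, hs]
        ring
    rcases quadraticChar_dichotomy hc0 with h | h
    · rw [h]
      have h5 := (quadraticChar_one_iff_isSquare hc0).mp h
      exact (hes.mpr (hsq.mp h5)).symm
    · rw [h]
      rcases he with h5 | h5
      · exfalso
        have h6 := hsq.mpr (hes.mp h5)
        rw [← quadraticChar_one_iff_isSquare hc0, h] at h6
        norm_num at h6
      · exact h5.symm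
  -- the character values
  have hψ : ∀ ψ : MulChar k ℂ, ψ ^ 3 = 1 → ψ c = ψ (1 + 3 * w) * ψ d ^ 2 := by
    intro ψ hψ3
    have hn0 : (-3) * (1 + 2 * w) ≠ 0 := mul_ne_zero (neg_ne_zero.2 h3) hl0
    have h5 : c = ((-3) * (1 + 2 * w)) ^ 3 * ((1 + 3 * w) * d ^ 2) := by
      rw [hc]
      linear_combination (27 : k) * (1 + 2 * w) * (1 + 3 * w) * d ^ 2 * hl2
    have h7' : ψ ((-3) * (1 + 2 * w)) ^ 3 = 1 := by
      rw [← MulChar.pow_apply' _ (by norm_num), hψ3,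
        MulChar.one_apply (isUnit_iff_ne_zero.mpr hn0)]
    rw [h5, map_mul, map_pow, h7', one_mul, map_mul, map_pow]
  have hT : ∀ ψ : MulChar k ℂ, ψ ^ 3 = 1 → ψ ≠ 1 →
      ∑ y : k, ψ (((2 * y + 27 * w * d) ^ 2 - c) / 4) =
        e * (ψ (1 + 3 * w) * ψ d ^ 2 * jacobiSum ψ ψ) := by
    intro ψ hψ3 hψ1
    rw [CNT_shift h2 (27 * w * d) (fun z => ψ ((z ^ 2 - c) / 4)), CNT_T hchar h2 hψ1 hc0,
      ← CNT_J h2 hψ3, hρ, hψ ψ hψ3]
    ring
  rw [CNTO_card_point h3 w hw h7 d hd]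
  have hfib : ∀ y : k, ((Finset.univ.filter fun x : k =>
      x ^ 3 + 81 * (1 + 2 * w) * d ^ 2 = y ^ 2 + 27 * w * d * y).card : ℂ) =
      1 + χ (((2 * y + 27 * w * d) ^ 2 - c) / 4) +
        χ⁻¹ (((2 * y + 27 * w * d) ^ 2 - c) / 4) := by
    intro y
    rw [← S4.u4_cube_count χ hχ hχ3 hq]
    congr 1
    congr 1
    ext x
    simp only [Finset.mem_filter, Finset.mem_univ, true_and]
    rw [eq_div_iff h4]
    constructor
    · intro h
      linear_combination (4 : k) * h + hcw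
    · intro h
      apply mul_left_cancel₀ h4
      linear_combination h - hcw
  push_cast
  simp_rw [hfib]
  rw [Finset.sum_add_distrib, Finset.sum_add_distrib, hT χ hχ3 hχ, hT χ⁻¹ hinv3 hinv1]
  simp only [Finset.sum_const, Finset.card_univ, nsmul_eq_mul, mul_one]
  ring

end Pool.Agent.Lib.MP_1a91b9_ntT3.CU
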