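import Pool.Agent.Lib.MP_1a91b9_ntT3.Main
import Pool.Agent.Lib.MP_1a91b9_ntT3.CU.Defs

/-!
# CU, job CONT: the L-series of `ψbar χ` is entire and does not vanish at `1`

PROOF (complete): a part of the proof of `step_main` (MP_1a91b9_ntG/Step.lean) with f = piO, ℓ = 3, Ω = κ from `s3l_main`
(as in `main3`, MP_1a91b9_ntT3/Final.lean: `obtain ⟨κ, -, hκ⟩ := s3l_main`). ValueProp for N: `valueProp3 hκ hN`.
UnitProp for N and N': `unitProp3 hκ cfProp (fun F _ _ _ h => ef_place F h) N hN`, same for N' (`ef_place` in Half.lean, `cfProp` in Main.lean).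
htame: Ram N' v → (3 : O_N) ∉ v from hu. m, hmv, exists_family, G1 j, hG1d, hG1L, id2 as in step_main (with L' from the UnitProp of N').
L' 1 ≠ 0 (`S4.UnitProp.ne_zero` as in `main3`, with a valuation ring from `Ell.d3_exists Nat.prime_three`). By id2, L' 1 = L 1 * ∏_{j ≠ 0} G1 j 1, so G1 j 1 ≠ 0.
Take L1 = G1 j.
-/

set_option autoImplicit false

namespace Pool.Agent.Lib.MP_1a91b9_ntT3.CU

open NumberField IsDedekindDomain Pool.Agent.Lib.MP_1a91b9_nt
open Pool.Agent.Lib.MP_1a91b9_ntT Pool.Agent.Lib.MP_1a91b9_ntG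
open Pool.Agent.Lib.MP_1a91b9_ntT.S4 (Lf)

universe u

theorem exists_L1 (N N' : Type u) [Field N] [NumberField N] [Algebra K N] [Field N']
    [NumberField N'] [Algebra K N'] [Algebra N N'] [IsScalarTower K N N'] [IsGalois N N']
    (hdeg : Module.finrank N N' = 3)
    (hu : ∀ v : HeightOneSpectrum (𝓞 N), (3 : 𝓞 N) ∈ v.asIdeal → ¬ MP_1a91b9_ntG.Ram N' v)
    (x : HeightOneSpectrum (𝓞 N) → ZMod 3) (hx : CFData 3 N' x) (hN : TowerK3 N)
    (hN' : TowerK3 N') (j : ZMod 3) (hj : j ≠ 0) :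
    ∃ L1 : ℂ → ℂ, Differentiable ℂ L1 ∧
      (∀ s : ℂ, 2 < s.re → L1 s = Lf (psChi (F := N) N' piO x j) s) ∧ L1 1 ≠ 0 := by
  classical
  have hp3 : Fact (Nat.Prime 3) := ⟨Nat.prime_three⟩
  obtain ⟨κ, -, hκ⟩ := s3l_main
  have hV : ValueProp piO 3 κ N := valueProp3 hκ hN
  obtain ⟨L, hLd, hL1, hLW⟩ := unitProp3 hκ cfProp (fun F _ _ _ h => ef_place F h) N hN
  obtain ⟨L', hLd', hL1', hLW'⟩ := unitProp3 hκ cfProp (fun F _ _ _ h => ef_place F h) N' hN'
  obtain ⟨W, hW⟩ := Ell.d3_exists Nat.prime_three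
  have hne : L' 1 ≠ 0 := S4.UnitProp.ne_zero (hLW' W hW)
  have htame : ∀ v : HeightOneSpectrum (𝓞 N), MP_1a91b9_ntG.Ram N' v →
      ((3 : ℕ) : 𝓞 N) ∉ v.asIdeal := by
    intro v hv h3
    exact hu v (by exact_mod_cast h3) hv
  set T := (finite_ram (F := N) N').toFinset with hTdef
  have hT : ∀ v, v ∈ T ↔ Ram N' v := fun v => by
    rw [hTdef, Set.Finite.mem_toFinset]; rfl
  have hup0 : up piO N ≠ 0 := by
    intro h
    exact (isMod_piO.ne) ((FaithfulSMul.algebraMap_injective (𝓞 K) (𝓞 N)) (by rw [map_zero]; exact h))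
  have hupu : ¬ IsUnit (up piO N) := by
    intro h
    apply up_span_ne_top (f := piO) (F := N)
    rw [Ideal.one_eq_top, Ideal.span_singleton_eq_top]
    exact h
  have hupℓ : IsCoprime (up piO N) ((3 : ℕ) : 𝓞 N) := by
    have h := piO_coprime_three.map (algebraMap (𝓞 K) (𝓞 N))
    rwa [map_natCast] at h
  obtain ⟨m, hm0, hm1, hm3, hm2, hmv'⟩ := exists_mod (up piO N) ((3 : ℕ) : 𝓞 N) hup0 hupu hupℓ T
    fun v hv => htame v ((hT v).mp hv)
  have hmv : ∀ v : HeightOneSpectrum (𝓞 N), m ≤ v.asIdeal ↔ up piO N ∈ v.asIdeal ∨ Ram N' v := by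
    intro v
    rw [hmv', hT]
  have hmr : ∀ v : HeightOneSpectrum (𝓞 N), Ram N' v → m ≤ v.asIdeal :=
    fun v hv => (hmv v).mpr (Or.inr hv)
  obtain ⟨ι, hι, J, G, hG, hJ, hGW, hfam⟩ := exists_family (by norm_num) hV m hm0 hm1 hm3 hm2
  set G1 : ZMod 3 → ℂ → ℂ := fun j s => ∑ i, chiM N' x m j (J i) * G i s with hG1
  have hG1d : ∀ j, Differentiable ℂ (G1 j) := fun j =>
    Differentiable.fun_sum fun i _ => (differentiable_const _).mul (hG i)
  have hG1L : ∀ j, ∀ s : ℂ, 2 < s.re → Lf (psChi (F := N) N' piO x j) s = G1 j s := by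
    intro j s hs
    have e : psChi (F := N) N' piO x j = fun I => psbC piO N I * chiM N' x m j I :=
      funext fun I => psChi_eq x m (fun v hv => (hmv v).mp hv) j I
    rw [e, hfam (chiM N' x m j) (fun I hI => chiM_of_not hI) (norm_chiM_le x m j)
      (chiM_ray x hx m hm0 hm1 hmr j) s hs]
  have id2 : L' = fun s => L s * ∏ j ∈ Finset.univ.erase (0 : ZMod 3), G1 j s := by
    refine S4.entire_eq hLd' (hLd.mul (Differentiable.fun_finsetProd fun j _ => hG1d j))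
      fun s hs => ?_
    rw [hL1' s hs, step_Lf piO hdeg x hx s hs, hL1 s hs]
    congr 1
    exact Finset.prod_congr rfl fun j _ => hG1L j s hs
  refine ⟨G1 j, hG1d j, fun s hs => (hG1L j s hs).symm, ?_⟩
  intro h0
  apply hne
  have e : L' 1 = L 1 * ∏ j ∈ Finset.univ.erase (0 : ZMod 3), G1 j 1 := congrFun id2 1
  rw [e, Finset.prod_eq_zero (Finset.mem_erase.mpr ⟨hj, Finset.mem_univ j⟩) h0, mul_zero]

end Pool.Agent.Lib.MP_1a91b9_ntT3.CU
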