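import Pool.Agent.Lib.MP_1a91b9_ntT3.CU.CntO

/-!
# CU, job EULA: the Euler factor of the twist at the places prime to `6 (1 + 3ω)`

Adapt `exists_psi_general` (EF/Main.lean). PROOF (complete). m, χ, J = jacobiSum χ χ, e, c = χ(vp) as there (`exists_jac`, `quad_rec`, `cubic_vp`);
the m of `exists_jac` is the m of hm (JacData.card). The proof there shows that γ = e c (-J) satisfies piO ∣ γ - 1 and (γ) = relNorm w, so
ps piO F w.asIdeal = γ (`psK_piO`), psC = emb γ, psbC = conj.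
`locPoly_of_model` with W₀ = M1 (algebraMap omO) d (`exists_tw3_M1`, `M1_map`, `M1_delta`; 3 ∉ w, 1 + 3ω ∉ w, d ∉ w):
locPoly W w = 1 - (q + 1 - #M1) X + q X². `card_M1` with χ.ringHomComp emb gives
#M1 = q + 1 + e (emb c (emb χ(d))² emb J + conj). By JacData.red: χ(d) reduces to d^m, which is ω^i by hi; χ(d) is 1, ω or ω² (JacData.val) and
these are distinct modulo w (3 ∉ w), so emb χ(d) = zt^i, its inverse is zt^(2i). With a = psC zt^(2i), b = psbC zt^i: a b = q, #M1 = q + 1 - (a + b).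
-/

set_option autoImplicit false

namespace Pool.Agent.Lib.MP_1a91b9_ntT3.CU

open NumberField IsDedekindDomain Polynomial Pool.Agent.Lib.MP_1a91b9_nt
open Pool.Agent.Lib.MP_1a91b9_ntT Pool.Agent.Lib.MP_1a91b9_ntG Pool.Agent.Lib.MP_1a91b9_ntT3.EF

private theorem eula_zt3 : zt ^ 3 = 1 := by linear_combination (zt - 1) * zt_eq

/-- the powers of `ω` are determined by their reduction -/
private theorem eula_pow {k : Type*} [Field k] (f : 𝓞 K →+* k) (h3 : (3 : k) ≠ 0) (x : 𝓞 K)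
    (i : ℕ) (hx : x = 1 ∨ x = MP_1a91b9_ntT3.omO ∨ x = MP_1a91b9_ntT3.omO ^ 2)
    (h : f x = f MP_1a91b9_ntT3.omO ^ i) : x = MP_1a91b9_ntT3.omO ^ i := by
  have hω3 : MP_1a91b9_ntT3.omO ^ 3 = 1 := by
    linear_combination (MP_1a91b9_ntT3.omO - 1) * EF.omO_eq
  have hw : f MP_1a91b9_ntT3.omO ^ 2 + f MP_1a91b9_ntT3.omO + 1 = 0 := by
    rw [← map_pow, ← map_add, ← map_one f, ← map_add, EF.omO_eq, map_zero]
  set w := f MP_1a91b9_ntT3.omO with hwd
  have hw3 : w ^ 3 = 1 := by linear_combination (w - 1) * hw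
  have hw1 : w ≠ 1 := by
    intro h1
    apply h3
    rw [h1] at hw
    linear_combination hw
  have hw0 : w ≠ 0 := by
    intro h1
    rw [h1] at hw
    norm_num at hw
  have hred : ∀ n : ℕ, MP_1a91b9_ntT3.omO ^ n = MP_1a91b9_ntT3.omO ^ (n % 3) := by
    intro n
    conv_lhs => rw [← Nat.div_add_mod n 3, pow_add, pow_mul, hω3, one_pow, one_mul]
  have hredw : ∀ n : ℕ, w ^ n = w ^ (n % 3) := by
    intro n
    conv_lhs => rw [← Nat.div_add_mod n 3, pow_add, pow_mul, hw3, one_pow, one_mul]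
  rw [hred i]
  rw [hredw i] at h
  have hi : i % 3 = 0 ∨ i % 3 = 1 ∨ i % 3 = 2 := by omega
  have hw2 : w ^ 2 ≠ 1 := by
    intro h1
    apply hw1
    have h4 : w ^ 3 = w ^ 2 * w := by ring
    rw [h1, one_mul, hw3] at h4
    exact h4.symm
  have hw12 : w ≠ w ^ 2 := by
    intro h1
    apply hw1
    have h4 : w * (w - 1) = 0 := by linear_combination -h1
    rcases mul_eq_zero.1 h4 with h5 | h5
    · exact absurd h5 hw0
    · exact sub_eq_zero.1 h5
  rcases hx with rfl | rfl | rfl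
  · rw [map_one] at h
    rcases hi with hi | hi | hi
    · rw [hi, pow_zero]
    · rw [hi, pow_one] at h
      exact absurd h.symm hw1
    · rw [hi] at h
      exact absurd h.symm hw2
  · rw [← hwd] at h
    rcases hi with hi | hi | hi
    · rw [hi, pow_zero] at h
      exact absurd h hw1
    · rw [hi, pow_one]
    · rw [hi] at h
      exact absurd h hw12
  · rw [map_pow, ← hwd] at h
    rcases hi with hi | hi | hi
    · rw [hi, pow_zero] at h
      exact absurd h hw2
    · rw [hi, pow_one] at h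
      exact absurd h.symm hw12
    · rw [hi]

/-- the local polynomial from the number of points -/
private theorem eula_loc {F : Type*} [Field F] [NumberField F] [Algebra K F]
    (w : HeightOneSpectrum (𝓞 F)) (h3 : (3 : 𝓞 F) ∉ w.asIdeal)
    (hv : algebraMap (𝓞 K) (𝓞 F) vp ∉ w.asIdeal) (d : 𝓞 F) (hd : d ∉ w.asIdeal)
    (W : WeierstrassCurve F) (C : WeierstrassCurve.VariableChange F) (hC : C • W = tw3 F d)
    (a b : ℂ) (hN : a * b = (nrm w : ℂ))
    (hc : (Nat.card (M1 (redMap K w MP_1a91b9_ntT3.omO) (redMap F w d)).toAffine.Point : ℂ) =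
      (nrm w : ℂ) + 1 - (a + b)) (x : ℂ) :
    aeval x (locPoly W w) = (1 - a * x) * (1 - b * x) := by
  have homF : (algebraMap (𝓞 K) (𝓞 F) MP_1a91b9_ntT3.omO) ^ 2 +
      algebraMap (𝓞 K) (𝓞 F) MP_1a91b9_ntT3.omO + 1 = 0 := by
    rw [← map_pow, ← map_add, ← map_one (algebraMap (𝓞 K) (𝓞 F)), ← map_add, EF.omO_eq, map_zero]
  obtain ⟨C', hC'⟩ := exists_tw3_M1 (F := F) (d : F)
  have hmodel : locPoly (W.baseChange F) w = _ :=
    locPoly_of_model (F := F) (K := F) W (C' * C)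
      (M1 (algebraMap (𝓞 K) (𝓞 F) MP_1a91b9_ntT3.omO) d) (by
      rw [mul_smul, hC, hC', M1_map]
      rfl) w (by
      rw [M1_delta _ _ homF]
      intro hmem
      have h1 : 3 ^ 12 * (1 + 3 * algebraMap (𝓞 K) (𝓞 F) MP_1a91b9_ntT3.omO) ^ 2 * d ^ 4 ∈
        w.asIdeal := hmem
      rcases w.isPrime.mem_or_mem h1 with h2 | h2
      · rcases w.isPrime.mem_or_mem h2 with h4 | h4
        · exact h3 (w.isPrime.mem_of_pow_mem 12 h4)
        · apply hv
          have h5 := w.isPrime.mem_of_pow_mem 2 h4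
          unfold vp
          rw [map_add, map_mul, map_one, map_ofNat]
          exact h5
      · exact hd (w.isPrime.mem_of_pow_mem 4 h2))
  have hbc : W.baseChange F = W := WeierstrassCurve.map_id _
  rw [hbc, M1_map] at hmodel
  have hmodel' : locPoly W w = 1 - Polynomial.C ((nrm w : ℤ) + 1 -
      Nat.card (M1 (redMap K w MP_1a91b9_ntT3.omO) (redMap F w d)).toAffine.Point) * X +
      Polynomial.C (nrm w : ℤ) * X ^ 2 := hmodel
  rw [hmodel']
  simp only [map_add, map_sub, map_one, map_mul, aeval_X, map_pow, map_natCast]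
  rw [hc]
  linear_combination (-x ^ 2) * hN

theorem euler_A {F : Type*} [Field F] [NumberField F] [Algebra K F]
    (w : HeightOneSpectrum (𝓞 F)) (h2 : (2 : 𝓞 F) ∉ w.asIdeal) (h3 : (3 : 𝓞 F) ∉ w.asIdeal)
    (hv : algebraMap (𝓞 K) (𝓞 F) vp ∉ w.asIdeal) (d : 𝓞 F) (hd : d ∉ w.asIdeal) (m i : ℕ)
    (hm : nrm w = 3 * m + 1)
    (hi : d ^ m - algebraMap (𝓞 K) (𝓞 F) MP_1a91b9_ntT3.omO ^ i ∈ w.asIdeal)
    (W : WeierstrassCurve F) (C : WeierstrassCurve.VariableChange F) (hC : C • W = tw3 F d)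
    (x : ℂ) : aeval x (locPoly W w) =
      (1 - psC piO F w.asIdeal * zt ^ (2 * i) * x) * (1 - psbC piO F w.asIdeal * zt ^ i * x) := by
  classical
  have hfin : Finite (Rk w) := finite_residue w
  have := Fintype.ofFinite (Rk w)
  obtain ⟨m', χ, h⟩ := exists_jac w h3
  obtain ⟨e, he, hes, hev⟩ := quad_rec w h2 h3 hv _ h.mod h.span
  have hχv := cubic_vp w h3 hv m' χ h
  set J := jacobiSum χ χ with hJ
  set c := χ (redMap K w vp) with hc
  have hcard : Fintype.card (Rk w) = nrm w := by rw [nrm, Nat.card_eq_fintype_card]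
  have hmm : m' = m := by
    have h4 := h.card
    rw [hcard, hm] at h4
    omega
  have hvp0 : redMap K w vp ≠ 0 := by
    intro h0
    apply hv
    have h1 : vp ∈ RingHom.ker (redMap K w) := h0
    rw [redMap_ker] at h1
    exact h1
  have hω3 : MP_1a91b9_ntT3.omO ^ 3 = 1 := by
    linear_combination (MP_1a91b9_ntT3.omO - 1) * EF.omO_eq
  have hc3 : c ^ 3 = 1 := by
    rcases h.val _ hvp0 with h4 | h4 | h4
    · rw [hc, h4, one_pow]
    · rw [hc, h4, hω3]
    · rw [hc, h4, ← pow_mul, mul_comm, pow_mul, hω3, one_pow]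
  have he2 : (e : 𝓞 K) ^ 2 = 1 := by
    rcases he with h4 | h4 <;> rw [h4] <;> norm_num
  have he2C : (e : ℂ) ^ 2 = 1 := by
    rcases he with h4 | h4 <;> rw [h4] <;> norm_num
  have heC : (starRingEnd ℂ) (e : ℂ) = (e : ℂ) := map_intCast _ _
  have hJJ : emb J * (starRingEnd ℂ) (emb J) = (nrm w : ℂ) := by
    rw [h.conj, ← map_mul, h.mul, map_natCast]
  have hcn : ‖emb c‖ = 1 := by
    have h4 : emb c ^ 3 = 1 := by rw [← map_pow, hc3, map_one]
    exact Complex.norm_eq_one_of_pow_eq_one h4 (by norm_num)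
  have hcc : emb c * (starRingEnd ℂ) (emb c) = 1 := by
    rw [Complex.mul_conj, Complex.normSq_eq_norm_sq, hcn]
    norm_num
  have hNN : emb ((e : 𝓞 K) * c * (-J)) * (starRingEnd ℂ) (emb ((e : 𝓞 K) * c * (-J))) =
      (nrm w : ℂ) := by
    rw [map_mul, map_mul, map_neg, map_intCast, map_mul, map_mul, map_neg, heC]
    linear_combination (e : ℂ) ^ 2 * (emb J * (starRingEnd ℂ) (emb J)) * hcc +
      (emb J * (starRingEnd ℂ) (emb J)) * he2C + hJJ
  have hγ1 : piO ∣ (e : 𝓞 K) * c * (-J) - 1 := by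
    rw [← vp_dvd_iff]
    have e1 : (e : 𝓞 K) * c * (-J) - 1 = (e : 𝓞 K) * (-J) * (c - J ^ 2) +
        -(e : 𝓞 K) * ((e : 𝓞 K) - (-J) ^ 3) + ((e : 𝓞 K) ^ 2 - 1) := by ring
    rw [e1, he2, sub_self, add_zero]
    exact dvd_add (Dvd.dvd.mul_left hχv _) (Dvd.dvd.mul_left hev _)
  have hγ2 : Ideal.span {(e : 𝓞 K) * c * (-J)} = Ideal.relNorm (𝓞 K) w.asIdeal := by
    rw [← h.span, Ideal.span_singleton_eq_span_singleton]
    refine ⟨⟨(e : 𝓞 K) * c ^ 2, (e : 𝓞 K) * c, ?_, ?_⟩, ?_⟩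
    · linear_combination c ^ 3 * he2 + hc3
    · linear_combination c ^ 3 * he2 + hc3
    · change (e : 𝓞 K) * c * (-J) * ((e : 𝓞 K) * c ^ 2) = -J
      linear_combination (-J) * c ^ 3 * he2 + (-J) * hc3
  have hps : ps piO F w.asIdeal = (e : 𝓞 K) * c * (-J) := by
    rw [ps, ← hγ2, psK_piO _ hγ1]
  have hpsC : psC piO F w.asIdeal = emb ((e : 𝓞 K) * c * (-J)) := by
    rw [psC, hps]
    rfl
  have hpsbC : psbC piO F w.asIdeal = (starRingEnd ℂ) (emb ((e : 𝓞 K) * c * (-J))) := by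
    rw [psbC, psC, hps]
    rfl
  rw [hpsC, hpsbC]
  refine eula_loc w h3 hv d hd W C hC _ _ ?_ ?_ x
  · have h4 : zt ^ (2 * i) * zt ^ i = 1 := by
      rw [← pow_add, show 2 * i + i = 3 * i by ring, pow_mul, eula_zt3, one_pow]
    linear_combination hNN + (emb ((e : 𝓞 K) * c * (-J)) *
      (starRingEnd ℂ) (emb ((e : 𝓞 K) * c * (-J)))) * h4
  · have h2k : (2 : Rk w) ≠ 0 := by
      intro h4
      have h5 : (2 : 𝓞 K) ∈ RingHom.ker (redMap K w) := by
        rw [RingHom.mem_ker, map_ofNat]; exact h4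
      rw [redMap_ker] at h5
      apply h2
      have h6 : algebraMap (𝓞 K) (𝓞 F) 2 ∈ w.asIdeal := h5
      rwa [map_ofNat] at h6
    have h3k := three_ne_zero_of w h3
    have hw : redMap K w MP_1a91b9_ntT3.omO ^ 2 + redMap K w MP_1a91b9_ntT3.omO + 1 = 0 := by
      rw [← map_pow, ← map_add, ← map_one (redMap K w), ← map_add, EF.omO_eq, map_zero]
    have hvpe : 1 + 3 * redMap K w MP_1a91b9_ntT3.omO = redMap K w vp := by
      unfold vp
      rw [map_add, map_mul, map_one, map_ofNat]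
    have hlame : 1 + 2 * redMap K w MP_1a91b9_ntT3.omO = redMap K w lam := by
      unfold lam
      rw [map_add, map_mul, map_one, map_ofNat]
    have hd0 : redMap F w d ≠ 0 := by
      intro h0
      apply hd
      have h1 : d ∈ RingHom.ker (redMap F w) := h0
      rw [redMap_ker] at h1
      exact h1
    have hdm : redMap F w d ^ m = redMap K w MP_1a91b9_ntT3.omO ^ i := by
      have h1 : d ^ m - algebraMap (𝓞 K) (𝓞 F) MP_1a91b9_ntT3.omO ^ i ∈
          RingHom.ker (redMap F w) := by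
        rw [redMap_ker]
        exact hi
      rw [RingHom.mem_ker, map_sub, map_pow, map_pow] at h1
      exact sub_eq_zero.1 h1
    have hχd : χ (redMap F w d) = MP_1a91b9_ntT3.omO ^ i := by
      refine eula_pow (redMap K w) h3k _ i (h.val _ hd0) ?_
      rw [h.red, hmm, hdm]
    have hcount := card_M1 h2k h3k (χ.ringHomComp emb)
      (by
        rw [Ne, MulChar.ringHomComp_eq_one_iff emb_injective]
        exact h.ne)
      (by rw [MulChar.ringHomComp_pow, h.cube, MulChar.ringHomComp_one])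
      (by rw [h.card]; exact Dvd.intro _ rfl) (redMap K w MP_1a91b9_ntT3.omO) hw
      (by rw [hvpe]; exact hvp0) (redMap F w d) hd0 e he
      (by rw [hlame, hvpe, ← map_mul]; exact hes)
    have hinv : (χ.ringHomComp emb)⁻¹ = (χ ^ 2).ringHomComp emb := by
      rw [← S4.u4_inv_eq χ h.cube]
      exact MulChar.ringHomComp_inv _ _
    have hinvv : (χ.ringHomComp emb)⁻¹ (redMap K w vp) = (starRingEnd ℂ) (emb c) := by
      rw [MulChar.inv_apply_eq_inv']
      change (emb c)⁻¹ = _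
      rw [inv_eq_of_mul_eq_one_right hcc]
    have hdd : (χ.ringHomComp emb) (redMap F w d) = zt ^ i := by
      change emb (χ (redMap F w d)) = _
      rw [hχd, map_pow, emb_omO]
    have hddi : (χ.ringHomComp emb)⁻¹ (redMap F w d) = zt ^ (2 * i) := by
      rw [MulChar.inv_apply_eq_inv', hdd]
      apply inv_eq_of_mul_eq_one_right
      rw [← pow_add, show i + 2 * i = 3 * i by ring, pow_mul, eula_zt3, one_pow]
    rw [hvpe, hinvv, hdd, hddi, hinv, jacobiSum_ringHomComp, jacobiSum_ringHomComp, hcard, ← hJ,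
      ← h.conj] at hcount
    have hcc' : (χ.ringHomComp emb) (redMap K w vp) = emb c := rfl
    rw [hcc'] at hcount
    have h5 : (zt ^ (2 * i)) ^ 2 = zt ^ i := by
      rw [← pow_mul, show 2 * i * 2 = 3 * i + i by ring, pow_add, pow_mul, eula_zt3, one_pow,
        one_mul]
    have h6 : (zt ^ i) ^ 2 = zt ^ (2 * i) := by rw [← pow_mul, mul_comm]
    rw [hcount, h5, h6, map_mul, map_mul, map_neg, map_intCast, map_mul, map_mul, map_neg, heC]
    ring

end Pool.Agent.Lib.MP_1a91b9_ntT3.CU
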