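import Pool.Agent.Lib.MP_1a91b9_ntT3.CU.As2

/-!
# CU, job EULB: the Euler factor of the twist at the places above `2`

PROOF (complete). f = inertia degree over K, a power of 3, so odd. k = residue field, 4^f elements (`nrm_two`), relNorm = (2^f) (`relNorm_two`).
As in `exists_psi_two` (EF/Main.lean) ps piO F w.asIdeal = (2 ω²)^f (`psK_piO`), psC = 2^f zt^(2f), psbC = 2^f zt^f.
`locPoly_of_model` with W₀ = M1 (algebraMap omO) d (`exists_tw3_M1`, `M1_map`, `M1_delta`; 3 ∉ w since 2 ∈ w). In k (characteristic 2), with u, δ the residues of omO, d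
(δ ≠ 0, u² + u + 1 = 0, 1 + 2u = 1): M1 is y² + u δ y = x³ + δ²; with y = u δ Y: u² δ² (Y² + Y) = x³ + δ², so Y² + Y = u δ⁻² x³ + u (u³ = 1).
So #M1 = 1 + #{(x, Y) : Y² + Y = g x³ + u}, g = u δ⁻² (as in `TWO_card_point`, all points nonsingular), and `card_as2` gives #M1 = q + 1 - s, s = 2^(f+1) if
g^((4^f-1)/3) = 1 and -2^f otherwise. 4^f - 1 = 3 m; m = 1 + 4 + ... + 4^(f-1) = f modulo 3; δ^m = u^i (hi), so
g^m = u^m δ^(-2m) = u^(f - 2 i) = u^(f + i). So g^m = 1 iff 3 ∣ f + i. And psC zt^(2i) + psbC zt^i = 2^f (zt^(2(f+i)) + zt^(f+i)) is 2^(f+1) if 3 ∣ f + i,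
-2^f otherwise. psC zt^(2i) psbC zt^i = 4^f.
-/

set_option autoImplicit false

namespace Pool.Agent.Lib.MP_1a91b9_ntT3.CU

open NumberField IsDedekindDomain Polynomial Pool.Agent.Lib.MP_1a91b9_nt
open Pool.Agent.Lib.MP_1a91b9_ntT Pool.Agent.Lib.MP_1a91b9_ntG Pool.Agent.Lib.MP_1a91b9_ntT3.EF

private theorem EULB_card_point {k : Type*} [Field k] [Fintype k] [DecidableEq k]
    (h2 : (2 : k) = 0) (u δ : k) (hu : u ^ 2 + u + 1 = 0) (hδ : δ ≠ 0) :
    Nat.card (M1 u δ).toAffine.Point =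
      1 + ∑ x : k, (Finset.univ.filter fun y : k =>
        y ^ 2 + y = (u * (δ⁻¹) ^ 2) * x ^ 3 + u).card := by
  classical
  have hu3 : u ^ 3 = 1 := by linear_combination (u - 1) * hu
  have hu0 : u ≠ 0 := by
    rintro rfl
    norm_num at hu3
  have h3 : (3 : k) = 1 := by linear_combination h2
  have hell : (M1 u δ).Δ ≠ 0 := by
    rw [M1_delta u δ hu, h3]
    have e : (1 : k) + 1 * u = - u ^ 2 := by linear_combination hu
    rw [e]
    exact mul_ne_zero (mul_ne_zero (by simp) (pow_ne_zero _ (neg_ne_zero.2 (pow_ne_zero _ hu0))))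
      (pow_ne_zero _ hδ)
  have hns : ∀ p : k × k, (M1 u δ).toAffine.Nonsingular p.1 p.2 ↔
      p.2 ^ 2 + u * δ * p.2 = p.1 ^ 3 + δ ^ 2 := by
    intro p
    have hE : (M1 u δ).IsElliptic := ⟨isUnit_iff_ne_zero.mpr hell⟩
    rw [← WeierstrassCurve.Affine.equation_iff_nonsingular,
      WeierstrassCurve.Affine.equation_iff]
    simp only [M1, WeierstrassCurve.toAffine]
    constructor
    · intro h
      linear_combination h + (- 13 * u * δ * p.2 + 40 * δ ^ 2 + 81 * u * δ ^ 2) * h2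
    · intro h
      linear_combination h - (- 13 * u * δ * p.2 + 40 * δ ^ 2 + 81 * u * δ ^ 2) * h2
  rw [Nat.card_congr (Pool.Agent.Lib.MP_1a91b9_nt.pointEquivOption _), Finite.card_option,
    add_comm]
  congr 1
  rw [Nat.card_eq_fintype_card, Fintype.card_subtype]
  have e1 : (Finset.univ.filter fun p : k × k => (M1 u δ).toAffine.Nonsingular p.1 p.2) =
      Finset.univ.filter fun p : k × k => p.2 ^ 2 + u * δ * p.2 = p.1 ^ 3 + δ ^ 2 :=
    Finset.filter_congr fun p _ => hns p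
  rw [e1, Finset.card_eq_sum_card_fiberwise (f := fun p : k × k => p.1) (t := Finset.univ)
    (fun _ _ => Finset.mem_coe.mpr (Finset.mem_univ _))]
  refine Finset.sum_congr rfl fun x _ => ?_
  have hc : u ^ 2 * δ⁻¹ ≠ 0 := mul_ne_zero (pow_ne_zero 2 hu0) (inv_ne_zero hδ)
  refine Finset.card_bij (fun p _ => u ^ 2 * δ⁻¹ * p.2) ?_ ?_ ?_
  · rintro ⟨a, b⟩ hp
    simp only [Finset.mem_filter, Finset.mem_univ, true_and] at hp ⊢
    obtain ⟨h1, rfl⟩ := hp
    have h4 : δ⁻¹ * δ = 1 := inv_mul_cancel₀ hδ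
    linear_combination u * δ⁻¹ ^ 2 * h1 + u * δ⁻¹ ^ 2 * b ^ 2 * hu3 +
      (- u ^ 2 * δ⁻¹ * b + u * (δ⁻¹ * δ + 1)) * h4
  · rintro ⟨a, b⟩ hp ⟨a', b'⟩ hp' h
    simp only [Finset.mem_filter, Finset.mem_univ, true_and] at hp hp' h
    rw [Prod.mk.injEq]
    exact ⟨hp.2.trans hp'.2.symm, mul_left_cancel₀ hc h⟩
  · intro b hb
    simp only [Finset.mem_filter, Finset.mem_univ, true_and] at hb
    have h4 : δ⁻¹ * δ = 1 := inv_mul_cancel₀ hδ
    refine ⟨(x, u * δ * b), ?_, ?_⟩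
    · simp only [Finset.mem_filter, Finset.mem_univ, true_and, and_true]
      linear_combination u ^ 2 * δ ^ 2 * hb + (x ^ 3 + δ ^ 2) * hu3 +
        u ^ 3 * x ^ 3 * (δ⁻¹ * δ + 1) * h4
    · change u ^ 2 * δ⁻¹ * (u * δ * b) = b
      linear_combination b * hu3 + u ^ 3 * b * h4

private theorem EULB_mod (f m : ℕ) (h : 4 ^ f = 3 * m + 1) : m % 3 = f % 3 := by
  have h1 : ∀ f : ℕ, 4 ^ f % 9 = (3 * f + 1) % 9 := by
    intro f
    induction f with
    | zero => rfl
    | succ f ih => rw [pow_succ, Nat.mul_mod, ih]; omega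
  have h2 := h1 f
  rw [h] at h2
  omega

private theorem EULB_pow {M : Type*} [Monoid M] (u : M) (hu : u ^ 3 = 1) {a b : ℕ}
    (h : a % 3 = b % 3) : u ^ a = u ^ b := by
  rw [← Nat.div_add_mod a 3, ← Nat.div_add_mod b 3, pow_add, pow_add, pow_mul, pow_mul, hu, h,
    one_pow, one_pow]

private theorem EULB_zero {F : Type*} [Field F] [NumberField F] (w : HeightOneSpectrum (𝓞 F))
    (a : 𝓞 F) : redMap F w a = 0 ↔ a ∈ w.asIdeal := by
  rw [← RingHom.mem_ker, redMap_ker]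
  exact Iff.rfl

theorem euler_B {F : Type*} [Field F] [NumberField F] [Algebra K F]
    (w : HeightOneSpectrum (𝓞 F)) (h2 : (2 : 𝓞 F) ∈ w.asIdeal)
    (hf : ∃ n : ℕ, w.asIdeal.inertiaDeg (𝓞 K) = 3 ^ n)
    (hv : algebraMap (𝓞 K) (𝓞 F) vp ∉ w.asIdeal) (d : 𝓞 F) (hd : d ∉ w.asIdeal) (m i : ℕ)
    (hm : nrm w = 3 * m + 1)
    (hi : d ^ m - algebraMap (𝓞 K) (𝓞 F) MP_1a91b9_ntT3.omO ^ i ∈ w.asIdeal)
    (W : WeierstrassCurve F) (C : WeierstrassCurve.VariableChange F) (hC : C • W = tw3 F d)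
    (x : ℂ) : aeval x (locPoly W w) =
      (1 - psC piO F w.asIdeal * zt ^ (2 * i) * x) * (1 - psbC piO F w.asIdeal * zt ^ i * x) := by
  classical
  have hwp := w.isPrime
  have hr := relNorm_two w h2
  have hn := nrm_two w h2
  set f := w.asIdeal.inertiaDeg (𝓞 K) with hfdef
  have hodd : Odd f := by
    obtain ⟨n, hn⟩ := hf
    rw [hn]
    exact Odd.pow (by decide)
  set b : 𝓞 K := 2 * MP_1a91b9_ntT3.omO ^ 2 with hb
  have hω3 : MP_1a91b9_ntT3.omO ^ 3 = 1 := by
    linear_combination (MP_1a91b9_ntT3.omO - 1) * EF.omO_eq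
  have hz3 : zt ^ 3 = 1 := by linear_combination (zt - 1) * zt_eq
  have hembl : emb b = 2 * zt ^ 2 := by rw [hb, map_mul, map_pow, map_ofNat, emb_omO]
  have hconjl : (starRingEnd ℂ) (emb b) = 2 * zt := by
    rw [hembl, map_mul, map_pow, map_ofNat, S4.conj_zt]
    linear_combination 2 * zt_eq
  have hmod : piO ∣ b ^ f - 1 := by
    have h1 : piO ∣ b - 1 := by
      refine ⟨1 + MP_1a91b9_ntT3.omO, ?_⟩
      rw [hb]
      unfold piO
      linear_combination EF.omO_eq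
    have h2 := sub_dvd_pow_sub_pow b 1 f
    rw [one_pow] at h2
    exact h1.trans h2
  have hspan : Ideal.span {b ^ f} = Ideal.relNorm (𝓞 K) w.asIdeal := by
    rw [hr, Ideal.span_singleton_eq_span_singleton]
    refine ⟨⟨MP_1a91b9_ntT3.omO ^ f, (MP_1a91b9_ntT3.omO ^ 2) ^ f, ?_, ?_⟩, ?_⟩
    · rw [← mul_pow, ← pow_succ', hω3, one_pow]
    · rw [← mul_pow, ← pow_succ, hω3, one_pow]
    · change b ^ f * MP_1a91b9_ntT3.omO ^ f = 2 ^ f
      rw [← mul_pow, hb]
      congr 1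
      linear_combination 2 * hω3
  have hps : ps piO F w.asIdeal = b ^ f := by
    rw [ps, ← hspan, psK_piO _ hmod]
  have hpsC : psC piO F w.asIdeal = (2 * zt ^ 2) ^ f := by
    rw [psC, hps]
    change emb (b ^ f) = _
    rw [map_pow, hembl]
  have hpsbC : psbC piO F w.asIdeal = (2 * zt) ^ f := by
    rw [psbC, psC, hps]
    change (starRingEnd ℂ) (emb (b ^ f)) = _
    rw [map_pow, map_pow, hconjl]
  -- the model
  set ωF : 𝓞 F := algebraMap (𝓞 K) (𝓞 F) MP_1a91b9_ntT3.omO with hωF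
  have homF : ωF ^ 2 + ωF + 1 = 0 := by
    rw [hωF, ← map_pow, ← map_add, ← map_one (algebraMap (𝓞 K) (𝓞 F)), ← map_add, EF.omO_eq,
      map_zero]
  have h3 : (3 : 𝓞 F) ∉ w.asIdeal := by
    intro h
    apply w.isPrime.ne_top
    rw [Ideal.eq_top_iff_one]
    have e : (1 : 𝓞 F) = 3 - 2 := by norm_num
    rw [e]
    exact Ideal.sub_mem _ h h2
  have hΔ : (M1 ωF d).Δ ∉ w.asIdeal := by
    rw [M1_delta _ _ homF]
    intro hmem
    rcases hwp.mem_or_mem hmem with h | h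
    · rcases hwp.mem_or_mem h with h | h
      · exact h3 (hwp.mem_of_pow_mem _ h)
      · apply hv
        have h5 := hwp.mem_of_pow_mem _ h
        unfold vp
        rw [map_add, map_mul, map_one, map_ofNat]
        exact h5
    · exact hd (hwp.mem_of_pow_mem _ h)
  obtain ⟨C1, hC1⟩ := exists_tw3_M1 (F := F) (d : F)
  have hmodel : locPoly (W.baseChange F) w = _ :=
    locPoly_of_model (F := F) (K := F) W (C1 * C) (M1 ωF d) (by
      rw [mul_smul, hC, hC1, M1_map]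
      rfl) w hΔ
  have hbc : W.baseChange F = W := WeierstrassCurve.map_id _
  rw [hbc, M1_map] at hmodel
  -- the residue field
  have hfin : Finite (IsLocalRing.ResidueField (w.adicCompletionIntegers F)) := finite_residue w
  have _ := Fintype.ofFinite (IsLocalRing.ResidueField (w.adicCompletionIntegers F))
  have hk : Fintype.card (IsLocalRing.ResidueField (w.adicCompletionIntegers F)) = 4 ^ f := by
    rw [← Nat.card_eq_fintype_card]
    exact hn
  set u := redMap F w ωF with hu'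
  set δ := redMap F w d with hδ'
  have h2k : (2 : IsLocalRing.ResidueField (w.adicCompletionIntegers F)) = 0 := by
    have h := (EULB_zero w 2).2 h2
    rwa [map_ofNat] at h
  have hu : u ^ 2 + u + 1 = 0 := by
    rw [hu', ← map_pow, ← map_add, ← map_one (redMap F w), ← map_add, homF, map_zero]
  have hδ : δ ≠ 0 := fun h => hd ((EULB_zero w d).1 h)
  have hu3 : u ^ 3 = 1 := by linear_combination (u - 1) * hu
  have hu0 : u ≠ 0 := by
    intro h
    rw [h] at hu3
    norm_num at hu3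
  have hδm : δ ^ m = u ^ i := by
    have h := (EULB_zero w _).2 hi
    rw [map_sub, map_pow, map_pow] at h
    exact sub_eq_zero.1 h
  have hg0 : u * δ⁻¹ ^ 2 ≠ 0 := mul_ne_zero hu0 (pow_ne_zero _ (inv_ne_zero hδ))
  have hcard := card_as2 f hk hodd u (u * δ⁻¹ ^ 2) hu hg0
  have hpt := EULB_card_point h2k u δ hu hδ
  have hm4 : 4 ^ f = 3 * m + 1 := by rw [← hn, hm]
  have hmf := EULB_mod f m hm4
  have hdiv : (4 ^ f - 1) / 3 = m := by omega
  have hgm : (u * δ⁻¹ ^ 2) ^ m = u ^ (f + i) := by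
    rw [mul_pow, ← pow_mul, mul_comm 2 m, pow_mul, inv_pow, hδm, EULB_pow u hu3 hmf, pow_add]
    congr 1
    rw [inv_pow, inv_eq_iff_eq_inv, ← mul_eq_one_iff_eq_inv₀ (pow_ne_zero _ hu0), ← pow_mul,
      ← pow_add]
    have e : i * 2 + i = 3 * i := by ring
    rw [e, pow_mul, hu3, one_pow]
  rw [hdiv, hgm] at hcard
  have hab : psC piO F w.asIdeal * zt ^ (2 * i) * (psbC piO F w.asIdeal * zt ^ i) =
      (nrm w : ℂ) := by
    rw [hpsC, hpsbC, hn, Nat.cast_pow]
    have e : (2 * zt ^ 2) ^ f * zt ^ (2 * i) * ((2 * zt) ^ f * zt ^ i) =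
        4 ^ f * (zt ^ 3) ^ (f + i) := by
      have e4 : (4 : ℂ) ^ f = 2 ^ f * 2 ^ f := by rw [← mul_pow]; norm_num
      rw [e4]
      ring
    rw [e, hz3, one_pow, mul_one]
    norm_num
  have hcnt : (Nat.card (M1 u δ).toAffine.Point : ℂ) = (nrm w : ℂ) + 1 -
      (psC piO F w.asIdeal * zt ^ (2 * i) + psbC piO F w.asIdeal * zt ^ i) := by
    have e0 : psC piO F w.asIdeal * zt ^ (2 * i) + psbC piO F w.asIdeal * zt ^ i =
        2 ^ f * ((zt ^ (f + i)) ^ 2 + zt ^ (f + i)) := by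
      rw [hpsC, hpsbC]
      ring
    have h5 : (Nat.card (M1 u δ).toAffine.Point : ℂ) = 1 + (4 ^ f -
        (if u ^ (f + i) = 1 then 2 ^ (f + 1) else -2 ^ f)) := by
      have h6 := congrArg (Int.cast : ℤ → ℂ) hcard
      rw [hpt]
      push_cast at h6 ⊢
      rw [h6]
    rw [e0, h5, hn, Nat.cast_pow]
    have hcases : (f + i) % 3 = 0 ∨ (f + i) % 3 = 1 ∨ (f + i) % 3 = 2 := by omega
    have hu1 : u ≠ 1 := by
      intro h
      rw [h] at hu
      exact one_ne_zero (by linear_combination hu - h2k : (1 : _) = (0 : IsLocalRing.ResidueField (w.adicCompletionIntegers F)))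
    rcases hcases with h | h | h
    · have e1 : u ^ (f + i) = u ^ 0 := EULB_pow u hu3 h
      have e2 : zt ^ (f + i) = zt ^ 0 := EULB_pow zt hz3 h
      rw [e1, e2, if_pos (pow_zero u)]
      push_cast
      ring
    · have e1 : u ^ (f + i) = u ^ 1 := EULB_pow u hu3 h
      have e2 : zt ^ (f + i) = zt ^ 1 := EULB_pow zt hz3 h
      rw [e1, e2, pow_one, pow_one, if_neg hu1]
      push_cast
      linear_combination (2 : ℂ) ^ f * zt_eq
    · have e1 : u ^ (f + i) = u ^ 2 := EULB_pow u hu3 h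
      have e2 : zt ^ (f + i) = zt ^ 2 := EULB_pow zt hz3 h
      have hu2 : u ^ 2 ≠ 1 := by
        intro h
        apply hu0
        linear_combination hu - h - h2k
      rw [e1, e2, if_neg hu2]
      push_cast
      linear_combination (2 : ℂ) ^ f * zt_eq + (2 : ℂ) ^ f * zt * hz3
  rw [hmodel]
  simp only [map_add, map_sub, map_one, map_mul, aeval_X, map_pow, map_natCast]
  rw [hcnt]
  linear_combination (-x ^ 2) * hab

end Pool.Agent.Lib.MP_1a91b9_ntT3.CU
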