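import Pool.Agent.Lib.MP_1a91b9_ntT3.CU.As3

/-!
# CU, job EULC: the Euler factor of the twist at the places above `3`

PROOF (complete). f = inertia degree over K, a power of 3, so odd and f = 1 or f = 3 g with g odd (`pow_three_cases`). As in `exists_psi_three` (EF/Main.lean)
ps piO F w.asIdeal = (ω - 1)^f = l3^f (`psK_piO`, `relNorm_of_prime`), nrm w = 3^f, psC = (zt - 1)^f, psbC = (-2 - zt)^f.
`locPoly_of_model` with W₀ = M3 (algebraMap omO) t (`exists_tw3_M3`, `M3_map`, `M3_delta`: Δ is prime to w because 3 ∈ w).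
k = residue field, characteristic 3, τ = residue of t, the residue of ω is 1, of 1 + 2ω is 0: M3 becomes ⟨0, 0, 8, -16, 16 * (-4) * (2 τ)⟩ = ⟨0, 0, -1, -1, τ⟩:
y² - y = x³ - x + τ, (y + 1)² = x³ - x + (1 + τ) (characteristic 3). As in `THREE_card` (EF/Three.lean) #M3 = 1 + q + ∑_x η(x³ - x + (1 + τ)).
tr3 f (1 + τ) = f + i in k (tr3 additive, tr3 f 1 = f, hi). `sum_as3` with c = 1 + τ, a = f + i. So #M3 = q + 1 - (a' + b') with a' = psC zt^(2i), b' = psbC zt^i has to be checked: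
the sum is -(((zt-1)^f) zt^(2i) + ((-2-zt)^f) zt^i).
- f = 1, i modulo 3: i = 0: -((zt-1) + (-2-zt)) = 3, a % 3 = 1; i = 1: -((zt-1) zt² + (-2-zt) zt) = -3, a % 3 = 2; i = 2: 0, a % 3 = 0.
- f = 3 g, g = 2h + 1: (zt-1)³ = 3 (1 + 2zt) =: 3l, (-2-zt)³ = -3l, l² = -3, (3l)^g = (-27)^h 3l; a % 3 = i % 3; (f-1)/2 = 3h + 1, 3 (-3)^(3h+1) = -9 (-27)^h.
  i = 0: 0. i = 1: -(-27)^h (3l zt² - 3l zt) = -(-27)^h 9 (l (zt² - zt) = -l² = 3). i = 2: the opposite.
-/

set_option autoImplicit false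

namespace Pool.Agent.Lib.MP_1a91b9_ntT3.CU

open NumberField IsDedekindDomain Polynomial Pool.Agent.Lib.MP_1a91b9_nt
open Pool.Agent.Lib.MP_1a91b9_ntT Pool.Agent.Lib.MP_1a91b9_ntG Pool.Agent.Lib.MP_1a91b9_ntT3.EF

private theorem EULC_card_point {k : Type*} [Field k] [Fintype k] [DecidableEq k]
    (h3 : (3 : k) = 0) (w t : k) (hw : w ^ 2 + w + 1 = 0) :
    Nat.card (M3 w t).toAffine.Point =
      1 + ∑ x : k, (Finset.univ.filter fun y : k => y ^ 2 = x ^ 3 - x + (1 + t)).card := by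
  classical
  have hw1 : w = 1 := by
    have h : (w - 1) ^ 2 = 0 := by linear_combination hw - w * h3
    exact sub_eq_zero.mp (pow_eq_zero_iff (by norm_num) |>.mp h)
  have h2 : (2 : k) ≠ 0 := by
    intro h2
    have : (1 : k) = 0 := by linear_combination h3 - h2
    exact one_ne_zero this
  have hns : ∀ p : k × k, (M3 w t).toAffine.Nonsingular p.1 p.2 ↔
      (p.2 + 1) ^ 2 = p.1 ^ 3 - p.1 + (1 + t) := by
    intro p
    have hell : (M3 w t).Δ ≠ 0 := by
      rw [M3_delta w t hw, h3, zero_mul, zero_mul, zero_mul, add_zero, one_pow, one_pow, mul_one,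
        mul_one]
      exact pow_ne_zero _ h2
    have hE : (M3 w t).IsElliptic := ⟨isUnit_iff_ne_zero.mpr hell⟩
    rw [← WeierstrassCurve.Affine.equation_iff_nonsingular,
      WeierstrassCurve.Affine.equation_iff]
    simp only [M3, WeierstrassCurve.toAffine]
    rw [hw1]
    constructor
    · intro h
      linear_combination h + (4 * p.1 ^ 2 - 2 * p.2 - 5 * p.1 + 53 * t + 240 * t ^ 2) * h3
    · intro h
      linear_combination h - (4 * p.1 ^ 2 - 2 * p.2 - 5 * p.1 + 53 * t + 240 * t ^ 2) * h3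
  rw [Nat.card_congr (Pool.Agent.Lib.MP_1a91b9_nt.pointEquivOption _), Finite.card_option,
    add_comm]
  congr 1
  rw [Nat.card_eq_fintype_card, Fintype.card_subtype]
  have e1 : (Finset.univ.filter fun p : k × k => (M3 w t).toAffine.Nonsingular p.1 p.2) =
      Finset.univ.filter fun p : k × k => (p.2 + 1) ^ 2 = p.1 ^ 3 - p.1 + (1 + t) :=
    Finset.filter_congr fun p _ => hns p
  rw [e1, Finset.card_eq_sum_card_fiberwise (f := Prod.fst) (t := Finset.univ)
    (fun _ _ => Finset.mem_coe.mpr (Finset.mem_univ _))]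
  refine Finset.sum_congr rfl fun x _ => ?_
  refine Finset.card_bij (fun p _ => p.2 + 1) ?_ ?_ ?_
  · rintro ⟨a, b⟩ hp
    simp only [Finset.mem_filter, Finset.mem_univ, true_and] at hp ⊢
    obtain ⟨h1, rfl⟩ := hp
    exact h1
  · rintro ⟨a, b⟩ hp ⟨a', b'⟩ hp' h
    simp only [Finset.mem_filter, Finset.mem_univ, true_and] at hp hp' h
    rw [Prod.mk.injEq]
    exact ⟨hp.2.trans hp'.2.symm, add_left_injective 1 h⟩
  · intro b hb
    simp only [Finset.mem_filter, Finset.mem_univ, true_and] at hb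
    refine ⟨(x, b - 1), ?_, sub_add_cancel b 1⟩
    simp only [Finset.mem_filter, Finset.mem_univ, true_and, sub_add_cancel, and_true]
    exact hb

private theorem EULC_card {k : Type*} [Field k] [Fintype k] [DecidableEq k]
    (h3 : (3 : k) = 0) (w t : k) (hw : w ^ 2 + w + 1 = 0) :
    (Nat.card (M3 w t).toAffine.Point : ℤ) =
      1 + Fintype.card k + ∑ x : k, quadraticChar k (x ^ 3 - x + (1 + t)) := by
  have hchar : ringChar k ≠ 2 := by
    intro h0
    have h5 := CharP.cast_eq_zero k (ringChar k)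
    rw [h0] at h5
    have h6 : (1 : k) = 0 := by
      have : (2 : k) = 0 := by exact_mod_cast h5
      linear_combination h3 - this
    exact one_ne_zero h6
  rw [EULC_card_point h3 w t hw]
  push_cast
  have h : ∀ x : k, ((Finset.univ.filter fun y : k => y ^ 2 = x ^ 3 - x + (1 + t)).card : ℤ) =
      1 + quadraticChar k (x ^ 3 - x + (1 + t)) := by
    intro x
    have h1 := quadraticChar_card_sqrts hchar (x ^ 3 - x + (1 + t))
    have h2 : (Set.toFinset {y : k | y ^ 2 = x ^ 3 - x + (1 + t)}) =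
        Finset.univ.filter (fun y : k => y ^ 2 = x ^ 3 - x + (1 + t)) := by
      ext y
      simp
    rw [h2] at h1
    rw [h1, add_comm]
  simp_rw [h]
  rw [Finset.sum_add_distrib, Finset.sum_const, Finset.card_univ]
  simp only [nsmul_eq_mul, mul_one]
  ring

/-- The trace of `1 + t`. -/
private theorem EULC_tr {k : Type*} [Field k] (h3 : (3 : k) = 0) (f i : ℕ) (t : k)
    (h : tr3 f t = (i : k)) : tr3 f (1 + t) = ((f + i : ℕ) : k) := by
  have hpr : Fact (Nat.Prime 3) := ⟨Nat.prime_three⟩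
  have hchar : CharP k 3 :=
    (CharP.charP_iff_prime_eq_zero Nat.prime_three).mpr (by exact_mod_cast h3)
  rw [Nat.cast_add, ← h]
  unfold tr3
  have h1 : ∀ j : ℕ, (1 + t) ^ 3 ^ j = 1 + t ^ 3 ^ j := by
    intro j
    rw [add_pow_char_pow, one_pow]
  simp only [h1]
  rw [Finset.sum_add_distrib, Finset.sum_const, Finset.card_range, nsmul_eq_mul, mul_one]

private theorem EULC_pow (z : ℂ) (hz : z ^ 3 = 1) (i : ℕ) : z ^ i = z ^ (i % 3) := by
  conv_lhs => rw [← Nat.div_add_mod i 3]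
  rw [pow_add, pow_mul, hz, one_pow, one_mul]

/-- The final computation. -/
private theorem EULC_fin (z : ℂ) (hz : z ^ 2 + z + 1 = 0) (f i : ℕ)
    (hf : f = 1 ∨ ∃ g : ℕ, f = 3 * g ∧ Odd g) :
    (((if (f + i) % 3 = 0 then 0 else if (f + i) % 3 = 1 then 3 * (-3) ^ ((f - 1) / 2)
        else -(3 * (-3) ^ ((f - 1) / 2)) : ℤ)) : ℂ) =
      -((z - 1) ^ f * z ^ (2 * i) + (-2 - z) ^ f * z ^ i) := by
  have hz3 : z ^ 3 = 1 := by linear_combination (z - 1) * hz
  have e2 : z ^ (2 * i) = (z ^ (i % 3)) ^ 2 := by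
    rw [mul_comm, pow_mul, EULC_pow z hz3 i]
  rw [e2, EULC_pow z hz3 i]
  have hi3 : i % 3 = 0 ∨ i % 3 = 1 ∨ i % 3 = 2 := by omega
  rcases hf with rfl | ⟨g, rfl, h, rfl⟩
  · rcases hi3 with hi | hi | hi
    · rw [if_neg (by omega), if_pos (by omega), hi]
      push_cast
      ring
    · rw [if_neg (by omega), if_neg (by omega), hi]
      push_cast
      linear_combination (z - 3) * hz
    · rw [if_pos (by omega), hi]
      push_cast
      linear_combination (z ^ 3 - 2 * z ^ 2) * hz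
  · have hl : (1 + 2 * z) ^ 2 = -3 := by linear_combination 4 * hz
    have e3 : (z - 1) ^ (3 * (2 * h + 1)) = (-27) ^ h * (3 * (1 + 2 * z)) := by
      rw [pow_mul]
      have e4 : (z - 1) ^ 3 = 3 * (1 + 2 * z) := by linear_combination (z - 4) * hz
      have e5 : (3 * (1 + 2 * z)) ^ 2 = -27 := by linear_combination 9 * hl
      rw [e4, pow_succ, pow_mul, e5]
    have e4 : (-2 - z) ^ (3 * (2 * h + 1)) = -((-27) ^ h * (3 * (1 + 2 * z))) := by
      rw [pow_mul]
      have e4 : (-2 - z) ^ 3 = -(3 * (1 + 2 * z)) := by linear_combination (-z - 5) * hz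
      have e5 : (-(3 * (1 + 2 * z))) ^ 2 = -27 := by linear_combination 9 * hl
      rw [e4, pow_succ, pow_mul, e5]
      ring
    have e5 : (3 * (2 * h + 1) - 1) / 2 = 3 * h + 1 := by omega
    have e6 : ((-3 : ℂ)) ^ (3 * h + 1) = -3 * (-27) ^ h := by
      rw [pow_succ, pow_mul]
      norm_num
      ring
    rw [e3, e4, e5]
    rcases hi3 with hi | hi | hi
    · rw [if_pos (by omega), hi]
      push_cast
      ring
    · rw [if_neg (by omega), if_pos (by omega), hi]
      push_cast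
      rw [e6]
      linear_combination ((3 : ℂ) * (-27) ^ h * (2 * z - 3)) * hz
    · rw [if_neg (by omega), if_neg (by omega), hi]
      push_cast
      rw [e6]
      linear_combination ((3 : ℂ) * (-27) ^ h * (2 * z ^ 3 - z ^ 2 - 3 * z + 3)) * hz

theorem euler_C {F : Type*} [Field F] [NumberField F] [Algebra K F]
    (w : HeightOneSpectrum (𝓞 F)) (h3 : (3 : 𝓞 F) ∈ w.asIdeal)
    (hf : ∃ n : ℕ, w.asIdeal.inertiaDeg (𝓞 K) = 3 ^ n)
    (hv : algebraMap (𝓞 K) (𝓞 F) vp ∉ w.asIdeal) (t : 𝓞 F) (f i : ℕ) (hn : nrm w = 3 ^ f)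
    (hi : tr3 f t - (i : 𝓞 F) ∈ w.asIdeal)
    (W : WeierstrassCurve F) (C : WeierstrassCurve.VariableChange F)
    (hC : C • W = tw3 F ((1 + 3 * algebraMap (𝓞 K) (𝓞 F) lam * t : 𝓞 F) : F))
    (x : ℂ) : aeval x (locPoly W w) =
      (1 - psC piO F w.asIdeal * zt ^ (2 * i) * x) * (1 - psbC piO F w.asIdeal * zt ^ i * x) := by
  classical
  have hfin : Finite (Rk w) := finite_residue w
  have := Fintype.ofFinite (Rk w)
  have h1w : (1 : 𝓞 F) ∉ w.asIdeal := fun h => w.isPrime.ne_top ((Ideal.eq_top_iff_one _).2 h)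
  -- the value of `psC`
  have hmem : algebraMap (𝓞 K) (𝓞 F) l3 ∈ w.asIdeal := by
    have h1 : algebraMap (𝓞 K) (𝓞 F) l3 ^ 2 ∈ w.asIdeal := by
      rw [← map_pow, l3_sq, map_mul, map_neg, map_ofNat]
      exact Ideal.mul_mem_right _ _ (neg_mem h3)
    exact w.isPrime.mem_of_pow_mem 2 h1
  obtain ⟨hr, hn'⟩ := relNorm_of_prime w l3 l3_ne_zero l3_prime_ideal hmem
  rw [absNorm_l3] at hn'
  have hfe : f = w.asIdeal.inertiaDeg (𝓞 K) := by
    rw [hn] at hn'
    exact Nat.pow_right_injective (by norm_num : 2 ≤ 3) hn'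
  rw [← hfe] at hr hf
  have hps : ps piO F w.asIdeal = l3 ^ f := by
    rw [ps, hr, psK_piO]
    have h1 : piO = l3 - 1 := by unfold piO l3; ring
    have h2 := sub_dvd_pow_sub_pow l3 1 f
    rw [one_pow, ← h1] at h2
    exact h2
  have hembl : emb l3 = zt - 1 := by unfold l3; rw [map_sub, map_one, emb_omO]
  have hpsC : psC piO F w.asIdeal = (zt - 1) ^ f := by
    have h1 : psC piO F w.asIdeal = emb (ps piO F w.asIdeal) := rfl
    rw [h1, hps, map_pow, hembl]
  have hpsbC : psbC piO F w.asIdeal = (-2 - zt) ^ f := by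
    rw [psbC, hpsC, map_pow, map_sub, map_one, Pool.Agent.Lib.MP_1a91b9_ntT.S4.conj_zt]
    congr 1
    ring
  -- the model
  have homF : (algebraMap (𝓞 K) (𝓞 F) MP_1a91b9_ntT3.omO) ^ 2 +
      algebraMap (𝓞 K) (𝓞 F) MP_1a91b9_ntT3.omO + 1 = 0 := by
    rw [← map_pow, ← map_add, ← map_one (algebraMap (𝓞 K) (𝓞 F)), ← map_add, EF.omO_eq, map_zero]
  obtain ⟨C', hC'⟩ := exists_tw3_M3 (F := F) (t : F)
  have hd : ((1 + 3 * algebraMap (𝓞 K) (𝓞 F) lam * t : 𝓞 F) : F) =
      1 + 3 * (1 + 2 * algebraMap K F om) * (t : F) := by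
    have e1 : algebraMap (𝓞 F) F (algebraMap (𝓞 K) (𝓞 F) lam) = 1 + 2 * algebraMap K F om := by
      have e2 : algebraMap (𝓞 F) F (algebraMap (𝓞 K) (𝓞 F) lam) =
        algebraMap K F (algebraMap (𝓞 K) K lam) := rfl
      rw [e2]
      have e3 : algebraMap (𝓞 K) K lam = 1 + 2 * om := by
        unfold lam
        rw [map_add, map_mul, map_one, map_ofNat]
        rfl
      rw [e3, map_add, map_mul, map_one, map_ofNat]
    change algebraMap (𝓞 F) F (1 + 3 * algebraMap (𝓞 K) (𝓞 F) lam * t) =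
      1 + 3 * (1 + 2 * algebraMap K F om) * algebraMap (𝓞 F) F t
    rw [map_add, map_mul, map_mul, map_one, map_ofNat, e1]
  have hmod : (C' * C) • W = (M3 (algebraMap (𝓞 K) (𝓞 F) MP_1a91b9_ntT3.omO) t).map
      (algebraMap (𝓞 F) F) := by
    rw [mul_smul, hC, hd, hC', M3_map]
    rfl
  have hΔ : (M3 (algebraMap (𝓞 K) (𝓞 F) MP_1a91b9_ntT3.omO) t).Δ ∉ w.asIdeal.under (𝓞 F) := by
    rw [M3_delta _ _ homF]
    intro hm
    have hm' : 2 ^ 12 * (1 + 3 * algebraMap (𝓞 K) (𝓞 F) MP_1a91b9_ntT3.omO) ^ 2 *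
      (1 + 3 * (1 + 2 * algebraMap (𝓞 K) (𝓞 F) MP_1a91b9_ntT3.omO) * t) ^ 4 ∈ w.asIdeal := hm
    have hz : ∀ y : 𝓞 F, 1 + 3 * y ∉ w.asIdeal := by
      intro y hy
      apply h1w
      have h5 := Ideal.sub_mem _ hy (Ideal.mul_mem_right y _ h3)
      rwa [add_sub_cancel_right] at h5
    rcases w.isPrime.mem_or_mem hm' with h4 | h4
    · rcases w.isPrime.mem_or_mem h4 with h5 | h5
      · have h6 := w.isPrime.mem_of_pow_mem 12 h5
        apply h1w
        have h7 := Ideal.sub_mem _ h3 h6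
        have h8 : (3 : 𝓞 F) - 2 = 1 := by norm_num
        rwa [h8] at h7
      · exact hz _ (w.isPrime.mem_of_pow_mem 2 h5)
    · have h5 := w.isPrime.mem_of_pow_mem 4 h4
      rw [mul_assoc] at h5
      exact hz _ h5
  have hmodel := locPoly_of_model (F := F) (K := F) W (C' * C)
    (M3 (algebraMap (𝓞 K) (𝓞 F) MP_1a91b9_ntT3.omO) t) hmod w hΔ
  have hbc : W.baseChange F = W := WeierstrassCurve.map_id _
  rw [hbc, M3_map] at hmodel
  rw [hmodel]
  -- the number of points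
  have h3k : (3 : Rk w) = 0 := by
    have h5 : (3 : 𝓞 F) ∈ RingHom.ker (redMap F w) := by
      rw [redMap_ker]
      exact h3
    rw [RingHom.mem_ker, map_ofNat] at h5
    exact h5
  have hwk : redMap F w (algebraMap (𝓞 K) (𝓞 F) MP_1a91b9_ntT3.omO) ^ 2 +
      redMap F w (algebraMap (𝓞 K) (𝓞 F) MP_1a91b9_ntT3.omO) + 1 = 0 := by
    rw [← map_pow, ← map_add, ← map_one (redMap F w), ← map_add, homF, map_zero]
  have htr : tr3 f (redMap F w t) = (i : Rk w) := by
    have h5 : tr3 f t - (i : 𝓞 F) ∈ RingHom.ker (redMap F w) := by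
      rw [redMap_ker]
      exact hi
    rw [RingHom.mem_ker, map_sub, map_natCast, sub_eq_zero] at h5
    rw [← h5]
    unfold tr3
    rw [map_sum]
    refine Finset.sum_congr rfl fun j _ => ?_
    rw [map_pow]
  have hcardk : Fintype.card (Rk w) = 3 ^ f := by
    rw [← hn, nrm, Nat.card_eq_fintype_card]
  have hodd : Odd f := by
    obtain ⟨n, hn2⟩ := hf
    rw [hn2]
    exact Odd.pow (by decide)
  have hsum := sum_as3 (k := Rk w) f hcardk hodd (1 + redMap F w t) (f + i)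
    (EULC_tr h3k f i _ htr)
  have hcount := EULC_card h3k _ (redMap F w t) hwk
  rw [hsum, hcardk] at hcount
  have hfin := EULC_fin zt zt_eq f i (pow_three_cases f hf)
  have hN : (zt - 1) ^ f * (-2 - zt) ^ f = (3 : ℂ) ^ f := by
    rw [← mul_pow]
    congr 1
    linear_combination -zt_eq
  have hz3 : zt ^ 3 = 1 := by linear_combination (zt - 1) * zt_eq
  have hz3i : zt ^ (2 * i) * zt ^ i = 1 := by
    rw [← pow_add, ← Nat.succ_mul, pow_mul, hz3, one_pow]
  have hcount' : (Nat.card (M3 (redMap F w (algebraMap (𝓞 K) (𝓞 F) MP_1a91b9_ntT3.omO))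
      (redMap F w t)).toAffine.Point : ℂ) = 1 + 3 ^ f -
        ((zt - 1) ^ f * zt ^ (2 * i) + (-2 - zt) ^ f * zt ^ i) := by
    rw [sub_eq_add_neg, ← hfin]
    exact_mod_cast congrArg (Int.cast : ℤ → ℂ) hcount
  simp only [map_add, map_sub, map_one, map_mul, aeval_X, map_pow, map_natCast]
  rw [hcount', hn, hpsC, hpsbC]
  push_cast
  linear_combination (-x ^ 2 * (zt ^ (2 * i) * zt ^ i)) * hN - 3 ^ f * x ^ 2 * hz3i

end Pool.Agent.Lib.MP_1a91b9_ntT3.CU
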