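import Pool.Agent.Lib.MP_1a91b9_ntT3.CU.As3

/-!
# CU, job SYM: the Frobenius elements of a Kummer extension, and the ramified places

PROOF (complete). ω, λ as in Defs (λ = `EF.lam`, λ² = -3). σ θ = ω θ gives σ^i θ = ω^i θ (σ fixes ω).
* `art_sym`: let W be a place of N' above v (`CF.exists_over`), n = nrm v = 3 m + 1. IsArt: σ^i θ - θ^n ∈ W, so ω^i θ - θ (θ³)^m = θ (ω^i - d^m) ∈ W.
  θ ∉ W since θ³ = d ∉ W. So d^m - ω^i ∈ W, and it is in O_N, so in v.
* `art_sym_three`: W above v, 3 ∈ W, so λ ∈ W (λ² = -3). σ^i θ = ω^i θ reads 1 + λ σ^i s = ω^i (1 + λ s), so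
  λ (σ^i s - s) = (ω^i - 1)(1 + λ s). By induction on i: ω^i - 1 = λ (-i + λ r) for some r in O_K (ω - 1 = λ (-1 - λ ω), as ω - 1 = -λ ω², ω² = 1 + λ ω).
  So σ^i s - s = (-i + λ r)(1 + λ s) = -i mod W. IsArt: σ^i s - s^(3^f) ∈ W. t = s - s³ mod W (λ ∈ W). Modulo W, x ↦ x³ is additive,
  so ∑_{j<f} t^(3^j) = ∑ (s^(3^j) - s^(3^(j+1))) = s - s^(3^f) = s - σ^i s = i mod W.
* `ram_val`: let W be a place above v. N' / N is Galois of degree 3 and v ramifies, so the ramification index is 3 (it divides 3, `EF.ef_dvd`, or `CF.trichotomy`)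
  and the inertia group of W has order 3 (`Ideal.card_inertia_eq_ramificationIdxIn`), so it is everything: σ x - x ∈ W for all x in O_N'.
  Suppose γ³ = v(d). w(θ)³ = w(d) = v(d)³ (`EF.val_bel` with ramification index 3), so w(θ) = v(d) = γ³. Choose c in N with v(c) = γ⁻¹ (the valuation
  is surjective onto ℤᵐ⁰: `HeightOneSpectrum.valuation_exists_uniformizer`, powers). w(c) = v(c)³, so w(c θ) = 1. Write c θ = x / y with x, y in O_N', y ∉ W
  (then x ∉ W). σ(c θ) = ω c θ: y σ x = ω x σ y. Modulo W: y x = ω x y, so (ω - 1) x y ∈ W, ω - 1 ∈ W, 3 ∈ W (3 = -ω² (ω-1)²), so 3 ∈ v, contradiction.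
-/

set_option autoImplicit false

namespace Pool.Agent.Lib.MP_1a91b9_ntT3.CU

open NumberField IsDedekindDomain Polynomial WithZero Pool.Agent.Lib.MP_1a91b9_nt
open Pool.Agent.Lib.MP_1a91b9_ntT Pool.Agent.Lib.MP_1a91b9_ntT3.EF

universe u

section
variable {N N' : Type u} [Field N] [NumberField N] [Algebra K N] [Field N'] [NumberField N']
  [Algebra K N'] [Algebra N N'] [IsScalarTower K N N'] [IsGalois N N']

omit [NumberField N] [NumberField N'] [Algebra K N] [Algebra K N'] [IsScalarTower K N N'] [IsGalois N N'] in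
private theorem SYM_coe (φ : Gal(N'/N)) (x : 𝓞 N') : ((φ • x : 𝓞 N') : N') = φ (x : N') := rfl

omit [NumberField N] [NumberField N'] [IsGalois N N'] in
private theorem SYM_fix (φ : Gal(N'/N)) (x : 𝓞 K) :
    φ • (algebraMap (𝓞 K) (𝓞 N') x) = algebraMap (𝓞 K) (𝓞 N') x := by
  apply RingOfIntegers.ext
  rw [SYM_coe]
  have h1 : ((algebraMap (𝓞 K) (𝓞 N') x : 𝓞 N') : N') = algebraMap N N' (algebraMap K N (x : K)) := by
    rw [← IsScalarTower.algebraMap_apply K N N']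
    rfl
  rw [h1, AlgEquiv.commutes]

omit [NumberField N] [NumberField N'] [IsGalois N N'] in
private theorem SYM_pow {σ : Gal(N'/N)} {θ : 𝓞 N'} (hθ : IsKum σ θ) (i : ℕ) :
    (σ ^ i) • θ = (algebraMap (𝓞 K) (𝓞 N') MP_1a91b9_ntT3.omO) ^ i * θ := by
  induction i with
  | zero => rw [pow_zero, pow_zero, one_smul, one_mul]
  | succ n ih =>
    rw [pow_succ, mul_smul, hθ.eq, smul_mul', SYM_fix, ih, pow_succ]
    ring

omit [NumberField N] [NumberField N'] [Algebra K N] [Algebra K N'] [IsScalarTower K N N'] [IsGalois N N'] in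
private theorem SYM_under {v : HeightOneSpectrum (𝓞 N)} {W : HeightOneSpectrum (𝓞 N')}
    (h : W.under (𝓞 N) = v) (x : 𝓞 N) : algebraMap (𝓞 N) (𝓞 N') x ∈ W.asIdeal ↔ x ∈ v.asIdeal := by
  rw [← h]
  exact Iff.rfl

theorem art_sym {σ : Gal(N'/N)} {v : HeightOneSpectrum (𝓞 N)} {i : ℕ} (hi : CF.IsArt σ v i)
    {θ : 𝓞 N'} (hθ : IsKum σ θ) {d : 𝓞 N} (hd : algebraMap (𝓞 N) (𝓞 N') d = θ ^ 3)
    (hdv : d ∉ v.asIdeal) (m : ℕ) (hm : nrm v = 3 * m + 1) :
    d ^ m - algebraMap (𝓞 K) (𝓞 N) MP_1a91b9_ntT3.omO ^ i ∈ v.asIdeal := by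
  obtain ⟨W, hW⟩ := CF.exists_over (N := N') v
  have hθW : θ ∉ W.asIdeal := by
    intro h
    apply hdv
    rw [← SYM_under hW, hd]
    exact Ideal.pow_mem_of_mem _ h 3 (by norm_num)
  have h1 := hi W hW θ
  rw [SYM_pow hθ, hm, pow_succ, pow_mul, ← hd] at h1
  have h2 : (algebraMap (𝓞 N) (𝓞 N') d ^ m - algebraMap (𝓞 K) (𝓞 N') MP_1a91b9_ntT3.omO ^ i) * θ ∈
      W.asIdeal := by
    have h3 := W.asIdeal.neg_mem h1
    have h4 : -(algebraMap (𝓞 K) (𝓞 N') MP_1a91b9_ntT3.omO ^ i * θ - algebraMap (𝓞 N) (𝓞 N') d ^ m * θ) =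
      (algebraMap (𝓞 N) (𝓞 N') d ^ m - algebraMap (𝓞 K) (𝓞 N') MP_1a91b9_ntT3.omO ^ i) * θ := by ring
    rwa [h4] at h3
  have h5 := (W.isPrime.mem_or_mem h2).resolve_right hθW
  rw [← SYM_under hW, map_sub, map_pow, map_pow]
  rw [← IsScalarTower.algebraMap_apply (𝓞 K) (𝓞 N) (𝓞 N')]
  exact h5

private theorem SYM_exp {A : Type*} [CommRing A] (w l : A) (hw : w ^ 2 + w + 1 = 0) (hl : l = 1 + 2 * w) (i : ℕ) :
    ∃ r : A, w ^ i - 1 = l * (-(i : A) + l * r) := by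
  induction i with
  | zero => exact ⟨0, by simp⟩
  | succ n ih =>
    obtain ⟨r, hr⟩ := ih
    refine ⟨-w + (-(n : A) + l * r) * (-1 - l * w) + r, ?_⟩
    have h1 : w - 1 = l * (-1 - l * w) := by
      rw [hl]
      linear_combination (4 * w : A) * hw
    have h2 : w ^ (n + 1) - 1 = (1 + (w ^ n - 1)) * (w - 1) + (w ^ n - 1) := by ring
    rw [h2, hr, h1]
    push_cast
    ring

theorem art_sym_three {σ : Gal(N'/N)} {v : HeightOneSpectrum (𝓞 N)} (h3 : (3 : 𝓞 N) ∈ v.asIdeal)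
    {i : ℕ} (hi : CF.IsArt σ v i) {θ s : 𝓞 N'} {t : 𝓞 N} (hθ : IsKum σ θ)
    (hs : θ = 1 + algebraMap (𝓞 K) (𝓞 N') lam * s)
    (ht : algebraMap (𝓞 N) (𝓞 N') t = s - s ^ 3 + algebraMap (𝓞 K) (𝓞 N') lam * s ^ 2)
    (f : ℕ) (hf : nrm v = 3 ^ f) : tr3 f t - (i : 𝓞 N) ∈ v.asIdeal := by
  obtain ⟨W, hW⟩ := CF.exists_over (N := N') v
  have h3W : (3 : 𝓞 N') ∈ W.asIdeal := by
    have := (SYM_under hW (3 : 𝓞 N)).2 h3
    rwa [map_ofNat] at this
  set l : 𝓞 N' := algebraMap (𝓞 K) (𝓞 N') lam with hl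
  set w : 𝓞 N' := algebraMap (𝓞 K) (𝓞 N') MP_1a91b9_ntT3.omO with hw
  have hlw : l = 1 + 2 * w := by
    rw [hl, hw]
    unfold lam
    rw [map_add, map_mul, map_one, map_ofNat]
  have hww : w ^ 2 + w + 1 = 0 := by
    rw [hw, ← map_pow, ← map_add, ← map_one (algebraMap (𝓞 K) (𝓞 N')), ← map_add, omO_eq, map_zero]
  have hl2 : l ^ 2 = -3 := by
    rw [hl, ← map_pow, lam_sq, map_neg, map_ofNat]
  have hl0 : l ≠ 0 := by
    intro h
    rw [h] at hl2
    have h4 : (3 : 𝓞 N') = 0 := by linear_combination hl2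
    have h5 := congrArg (algebraMap (𝓞 N') N') h4
    rw [map_ofNat, map_zero] at h5
    exact three_ne_zero h5
  have hlW : l ∈ W.asIdeal := by
    apply W.isPrime.mem_of_pow_mem 2
    rw [hl2]
    exact W.asIdeal.neg_mem h3W
  obtain ⟨r, hr⟩ := SYM_exp w l hww hlw i
  have e1 : (σ ^ i) • θ = 1 + l * (σ ^ i) • s := by
    rw [hs, smul_add, smul_mul', smul_one, hl, SYM_fix]
  have e2 : l * ((σ ^ i) • s - s) = l * ((-(i : 𝓞 N') + l * r) * (1 + l * s)) := by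
    have e3 := SYM_pow hθ i
    rw [e1, ← hw, hs] at e3
    have e4 : l * ((σ ^ i) • s - s) = (w ^ i - 1) * (1 + l * s) := by linear_combination e3
    rw [e4, hr]
    ring
  have e5 : (σ ^ i) • s - s = (-(i : 𝓞 N') + l * r) * (1 + l * s) := mul_left_cancel₀ hl0 e2
  have e6 : (σ ^ i) • s - s + (i : 𝓞 N') ∈ W.asIdeal := by
    have : (σ ^ i) • s - s + (i : 𝓞 N') = l * (r + (-(i : 𝓞 N') + l * r) * s) := by
      rw [e5]
      ring
    rw [this]
    exact W.asIdeal.mul_mem_right _ hlW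
  have e7 := hi W hW s
  rw [hf] at e7
  have e8 : s - s ^ 3 ^ f - (i : 𝓞 N') ∈ W.asIdeal := by
    have := W.asIdeal.sub_mem e7 e6
    have h8 : (σ ^ i) • s - s ^ 3 ^ f - ((σ ^ i) • s - s + (i : 𝓞 N')) = s - s ^ 3 ^ f - (i : 𝓞 N') := by ring
    rwa [h8] at this
  rw [← SYM_under hW]
  have hWp := W.isPrime
  set q := Ideal.Quotient.mk W.asIdeal with hq
  have hk3 : CharP (𝓞 N' ⧸ W.asIdeal) 3 := by
    rw [CharP.charP_iff_prime_eq_zero Nat.prime_three]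
    have := Ideal.Quotient.eq_zero_iff_mem.2 h3W
    rw [map_ofNat] at this
    exact_mod_cast this
  have hql : q l = 0 := Ideal.Quotient.eq_zero_iff_mem.2 hlW
  have hqt : q (algebraMap (𝓞 N) (𝓞 N') t) = q s - q s ^ 3 := by
    rw [ht, map_add, map_mul, hql, zero_mul, add_zero, map_sub, map_pow]
  have hsum : ∀ f : ℕ, tr3 f (q s - q s ^ 3) = q s - q s ^ 3 ^ f := by
    intro f
    induction f with
    | zero => simp [tr3]
    | succ n ih =>
      have h9 : tr3 (n + 1) (q s - q s ^ 3) = tr3 n (q s - q s ^ 3) + (q s - q s ^ 3) ^ 3 ^ n := by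
        unfold tr3
        rw [Finset.sum_range_succ]
      rw [h9, ih, sub_pow_char_pow, ← pow_mul, pow_succ' 3 n]
      ring
  rw [← Ideal.Quotient.eq_zero_iff_mem, ← hq, map_sub, map_natCast, map_sub, map_natCast]
  have h10 : q (algebraMap (𝓞 N) (𝓞 N') (tr3 f t)) = tr3 f (q (algebraMap (𝓞 N) (𝓞 N') t)) := by
    unfold tr3
    rw [map_sum, map_sum]
    refine Finset.sum_congr rfl fun j _ => ?_
    rw [map_pow, map_pow]
  rw [h10, hqt, hsum]
  have h11 := Ideal.Quotient.eq_zero_iff_mem.2 e8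
  rw [map_sub, map_sub, map_pow, map_natCast] at h11
  exact h11

theorem ram_val (hdeg : Module.finrank N N' = 3) {σ : Gal(N'/N)} {v : HeightOneSpectrum (𝓞 N)}
    (hv : Ram N' v) (h3 : (3 : 𝓞 N) ∉ v.asIdeal) {θ : 𝓞 N'} (hθ : IsKum σ θ) {d : 𝓞 N}
    (hd : algebraMap (𝓞 N) (𝓞 N') d = θ ^ 3) (γ : ℤᵐ⁰) : γ ^ 3 ≠ v.valuation N (d : N) := by
  intro hγ
  obtain ⟨W, hW⟩ := CF.exists_over (N := N') v
  have hWv : W.asIdeal.under (𝓞 N) = v.asIdeal := by rw [← hW]; rfl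
  have hvp : v.asIdeal.IsPrime := v.isPrime
  have hWp : W.asIdeal.IsPrime := W.isPrime
  have hlo : W.asIdeal.LiesOver v.asIdeal := ⟨hWv.symm⟩
  have hin : Ideal.ramificationIdxIn v.asIdeal (𝓞 N') = 3 := by
    have h1 : Ideal.ramificationIdxIn v.asIdeal (𝓞 N') ≠ 1 := (ram_cf v).1 hv
    have h2 := (ef_dvd v W hWv).2
    have h4 : v.asIdeal.ramificationIdx' W.asIdeal = Ideal.ramificationIdxIn v.asIdeal (𝓞 N') := by
      rw [Ideal.ramificationIdxIn_eq_ramificationIdx v.asIdeal W.asIdeal Gal(N'/N),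
        ← Ideal.ramificationIdx'_eq_ramificationIdx v.asIdeal W.asIdeal v.ne_bot]
    rw [hdeg, h4] at h2
    exact ((Nat.dvd_prime Nat.prime_three).1 h2).resolve_left h1
  have hram : v.asIdeal.ramificationIdx' W.asIdeal = 3 := by
    rw [← hin, Ideal.ramificationIdxIn_eq_ramificationIdx v.asIdeal W.asIdeal Gal(N'/N),
        ← Ideal.ramificationIdx'_eq_ramificationIdx v.asIdeal W.asIdeal v.ne_bot]
  have hinert : ∀ x : 𝓞 N', σ • x - x ∈ W.asIdeal := by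
    have hc := Ideal.card_inertia_eq_ramificationIdxIn (G := Gal(N'/N)) v.asIdeal W.asIdeal
    rw [hin] at hc
    have hG : Nat.card Gal(N'/N) = 3 := by rw [IsGalois.card_aut_eq_finrank, hdeg]
    have htop : Ideal.inertia Gal(N'/N) W.asIdeal = ⊤ := by
      apply Subgroup.eq_top_of_card_eq
      rw [hc, hG]
    intro x
    have hm : σ ∈ Ideal.inertia Gal(N'/N) W.asIdeal := by
      rw [htop]
      exact Subgroup.mem_top _
    rw [AddSubgroup.mem_inertia] at hm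
    exact hm x
  have hbel : bel N W = v := HeightOneSpectrum.ext hWv
  have hval : ∀ x : N, v.valuation N x ^ 3 = W.valuation N' (algebraMap N N' x) := by
    intro x
    have h1 := val_bel (F := N) W x
    rw [hbel, hram] at h1
    exact h1
  have hθv : W.valuation N' (θ : N') = γ ^ 3 := by
    have h1 := hval (d : N)
    have h2 : algebraMap N N' (d : N) = (θ : N') ^ 3 := by
      have := congrArg (algebraMap (𝓞 N') N') hd
      rw [map_pow] at this
      exact this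
    rw [h2, map_pow, ← hγ] at h1
    exact ((pow_left_inj₀ zero_le zero_le (by norm_num)).1 h1).symm
  have hθ0 : (θ : N') ≠ 0 := by
    intro h
    exact hθ.ne (RingOfIntegers.ext h)
  have hγ0 : γ ≠ 0 := by
    rintro rfl
    rw [zero_pow (by norm_num)] at hθv
    exact hθ0 ((Valuation.zero_iff _).1 hθv)
  obtain ⟨c, hc⟩ := HeightOneSpectrum.valuation_surjective N v γ⁻¹
  have h1 : W.valuation N' (algebraMap N N' c * (θ : N')) = 1 := by
    rw [map_mul, ← hval, hc, hθv, inv_pow, inv_mul_cancel₀ (pow_ne_zero 3 hγ0)]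
  obtain ⟨x, y, hxy⟩ := HeightOneSpectrum.exists_primeCompl_mul_eq_of_integer W
    (algebraMap N N' c * (θ : N')) h1.le
  -- `x` and `y` are not in `W`
  have hyW : (y : 𝓞 N') ∉ W.asIdeal := y.2
  have hxW : x ∉ W.asIdeal := by
    have h2 := congrArg (W.valuation N') hxy
    rw [map_mul, h1, one_mul] at h2
    have h4 : W.valuation N' (algebraMap (𝓞 N') N' (y : 𝓞 N')) = 1 := by
      rw [HeightOneSpectrum.valuation_eq_one_iff_notMem]
      exact hyW
    rw [h4] at h2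
    rw [← HeightOneSpectrum.valuation_eq_one_iff_notMem (K := N')]
    exact h2.symm
  -- apply `σ`
  have h5 : (σ • x) * (y : 𝓞 N') = algebraMap (𝓞 K) (𝓞 N') MP_1a91b9_ntT3.omO * (x * (σ • (y : 𝓞 N'))) := by
    apply RingOfIntegers.ext
    have e1 := congrArg σ hxy
    have e2 : σ (θ : N') = ((algebraMap (𝓞 K) (𝓞 N') MP_1a91b9_ntT3.omO : 𝓞 N') : N') * (θ : N') := by
      have := congrArg (algebraMap (𝓞 N') N') hθ.eq
      rw [map_mul] at this
      exact this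
    rw [map_mul, map_mul, AlgEquiv.commutes, e2] at e1
    have e3 : ((((σ • x) * (y : 𝓞 N') : 𝓞 N')) : N') = σ (x : N') * ((y : 𝓞 N') : N') := rfl
    have e4 : ((algebraMap (𝓞 K) (𝓞 N') MP_1a91b9_ntT3.omO * (x * (σ • (y : 𝓞 N'))) : 𝓞 N') : N') =
      ((algebraMap (𝓞 K) (𝓞 N') MP_1a91b9_ntT3.omO : 𝓞 N') : N') * ((x : N') * σ ((y : 𝓞 N') : N')) := rfl
    rw [e3, e4]
    have e5 : σ (x : N') = algebraMap N N' c * (((algebraMap (𝓞 K) (𝓞 N') MP_1a91b9_ntT3.omO : 𝓞 N') : N') * (θ : N')) *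
      σ ((y : 𝓞 N') : N') := e1.symm
    have e6 : (x : N') = algebraMap N N' c * (θ : N') * ((y : 𝓞 N') : N') := hxy.symm
    rw [e5, e6]
    ring
  have h6 : (1 - algebraMap (𝓞 K) (𝓞 N') MP_1a91b9_ntT3.omO) * (x * (y : 𝓞 N')) ∈ W.asIdeal := by
    have e1 := W.asIdeal.mul_mem_right (y : 𝓞 N') (hinert x)
    have e2 := W.asIdeal.mul_mem_left (algebraMap (𝓞 K) (𝓞 N') MP_1a91b9_ntT3.omO * x) (hinert (y : 𝓞 N'))
    have e3 := W.asIdeal.sub_mem e2 e1
    have e4 : algebraMap (𝓞 K) (𝓞 N') MP_1a91b9_ntT3.omO * x * (σ • (y : 𝓞 N') - (y : 𝓞 N')) - (σ • x - x) * (y : 𝓞 N') =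
        (1 - algebraMap (𝓞 K) (𝓞 N') MP_1a91b9_ntT3.omO) * (x * (y : 𝓞 N')) := by
      linear_combination -h5
    rwa [e4] at e3
  have h7 : 1 - algebraMap (𝓞 K) (𝓞 N') MP_1a91b9_ntT3.omO ∈ W.asIdeal := by
    rcases W.isPrime.mem_or_mem h6 with h | h
    · exact h
    · rcases W.isPrime.mem_or_mem h with h | h
      · exact absurd h hxW
      · exact absurd h hyW
  apply h3
  rw [← SYM_under hW, map_ofNat]
  have h8 : (3 : 𝓞 N') = (2 + algebraMap (𝓞 K) (𝓞 N') MP_1a91b9_ntT3.omO) *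
      (1 - algebraMap (𝓞 K) (𝓞 N') MP_1a91b9_ntT3.omO) := by
    have hww : (algebraMap (𝓞 K) (𝓞 N') MP_1a91b9_ntT3.omO) ^ 2 + algebraMap (𝓞 K) (𝓞 N') MP_1a91b9_ntT3.omO + 1 = 0 := by
      rw [← map_pow, ← map_add, ← map_one (algebraMap (𝓞 K) (𝓞 N')), ← map_add, omO_eq, map_zero]
    linear_combination hww
  rw [h8]
  exact W.asIdeal.mul_mem_left _ h7

end

end Pool.Agent.Lib.MP_1a91b9_ntT3.CU
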