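import Pool.Agent.Lib.MP_1a91b9_ntT3.CU.Kum
import Pool.Agent.Lib.MP_1a91b9_ntT3.CU.Sym
import Pool.Agent.Lib.MP_1a91b9_ntT3.CU.BadV
import Pool.Agent.Lib.MP_1a91b9_ntT3.CU.EulA
import Pool.Agent.Lib.MP_1a91b9_ntT3.CU.EulB
import Pool.Agent.Lib.MP_1a91b9_ntT3.CU.EulC

/-!
# CU, job LOC: the Euler factors of the twist

PROOF (complete).
`loc_unr`: v not ramified, v not above vp, IsArt σ v i. (`tower_res` gives hf: the inertia degree of v over K is a power of 3, from hN.)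
 - 3 ∈ v: θ, s, d, t from `exists_kum_three`; `kum_ratio` gives c with d = δ c³; `exists_tw3_scale` and D give C with C • W = tw3 N d; d = 1 + 3 λ t.
   nrm v = 3^f with f = the inertia degree (as in exists_psi_three: `relNorm_of_prime` with l3, absNorm_l3). `art_sym_three`, `euler_C`.
 - 3 ∉ v: θ, d from `exists_kum_at`, C as before with tw3 N d. nrm v = 3 m + 1 (3 divides nrm v - 1: ω ≠ 1 in the residue field, see JacData.card of `exists_jac`).
   `art_sym`, then `euler_B` if 2 ∈ v and `euler_A` otherwise.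
`loc_ram`: v ramified: 3 ∉ v (hu). If v is above vp: `locPoly_tw3_pi` with `tower_ram N hN v`. Otherwise θ, d from `exists_kum_three`, `kum_ratio`, `ram_val`
 gives the hypothesis of `locPoly_tw3_ram` (for the twist by d).
`loc_pi`: `locPoly_tw3_pi` with `tower_ram N hN v`.
-/

set_option autoImplicit false

namespace Pool.Agent.Lib.MP_1a91b9_ntT3.CU

open NumberField IsDedekindDomain Polynomial Pool.Agent.Lib.MP_1a91b9_nt
open Pool.Agent.Lib.MP_1a91b9_ntT Pool.Agent.Lib.MP_1a91b9_ntT3.EF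
open Pool.Agent.Lib.MP_1a91b9_ntG (psC psbC)

universe u

section
variable {N N' : Type u} [Field N] [NumberField N] [Algebra K N] [Field N'] [NumberField N']
  [Algebra K N'] [Algebra N N'] [IsScalarTower K N N'] [IsGalois N N']

/-- the model of the twist attached to another Kummer generator -/
private theorem cu_loc_model (hdeg : Module.finrank N N' = 3) {σ : Gal(N'/N)} (hσ : σ ≠ 1) {δ : N}
    (hδ : δ ≠ 0) {y : N'} (hy : y ^ 3 = algebraMap N N' δ)
    (hσy : σ y = algebraMap K N' om * y) (W : WeierstrassCurve N)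
    (C : WeierstrassCurve.VariableChange N) (hC : C • W = tw3 N δ) {θ : 𝓞 N'} (hθ : IsKum σ θ)
    {d : 𝓞 N} (hd : algebraMap (𝓞 N) (𝓞 N') d = θ ^ 3) :
    ∃ C' : WeierstrassCurve.VariableChange N, C' • W = tw3 N (d : N) := by
  obtain ⟨c, hc, hdc⟩ := kum_ratio hdeg hσ hθ hd hy hδ hσy
  obtain ⟨E, hE⟩ := exists_tw3_scale δ c hc
  exact ⟨E * C, by rw [mul_smul, hC, hE, hdc]⟩

theorem loc_unr (hN : TowerK3 N) (hdeg : Module.finrank N N' = 3)
    (hu : ∀ v : HeightOneSpectrum (𝓞 N), (3 : 𝓞 N) ∈ v.asIdeal → ¬ Ram N' v)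
    {σ : Gal(N'/N)} (hσ : σ ≠ 1) {δ : N} (hδ : δ ≠ 0) {y : N'} (hy : y ^ 3 = algebraMap N N' δ)
    (hσy : σ y = algebraMap K N' om * y) (W : WeierstrassCurve N)
    (C : WeierstrassCurve.VariableChange N) (hC : C • W = tw3 N δ)
    (v : HeightOneSpectrum (𝓞 N)) (hv : ¬ Ram N' v)
    (hvp : algebraMap (𝓞 K) (𝓞 N) vp ∉ v.asIdeal) (i : ℕ) (hi : CF.IsArt σ v i) (x : ℂ) :
    aeval x (locPoly W v) =
      (1 - psC piO N v.asIdeal * zt ^ (2 * i) * x) * (1 - psbC piO N v.asIdeal * zt ^ i * x) := by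
  have hf := tower_res N hN v
  by_cases h3 : (3 : 𝓞 N) ∈ v.asIdeal
  · obtain ⟨θ, s, d, t, hθ, hd, hs, ht, hdt⟩ := exists_kum_three hdeg hσ hu
    obtain ⟨C', hC'⟩ := cu_loc_model hdeg hσ hδ hy hσy W C hC hθ hd
    have hmem : algebraMap (𝓞 K) (𝓞 N) l3 ∈ v.asIdeal := by
      have h1 : algebraMap (𝓞 K) (𝓞 N) l3 ^ 2 ∈ v.asIdeal := by
        rw [← map_pow, l3_sq, map_mul, map_neg, map_ofNat]
        exact Ideal.mul_mem_right _ _ (neg_mem h3)
      exact v.isPrime.mem_of_pow_mem 2 h1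
    obtain ⟨-, hn⟩ := relNorm_of_prime v l3 l3_ne_zero l3_prime_ideal hmem
    rw [absNorm_l3] at hn
    have h1 := art_sym_three h3 hi hθ hs ht _ hn
    rw [hdt] at hC'
    exact euler_C v h3 hf hvp t _ i hn h1 W C' hC' x
  · obtain ⟨θ, d, hθ, hd, hdv⟩ := exists_kum_at hdeg hσ v hv
    obtain ⟨C', hC'⟩ := cu_loc_model hdeg hσ hδ hy hσy W C hC hθ hd
    have hfin : Finite (Rk v) := finite_residue v
    have hft : Fintype (Rk v) := Fintype.ofFinite _
    obtain ⟨m, χ, hj⟩ := exists_jac v h3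
    have hm : nrm v = 3 * m + 1 := by
      have h1 := hj.card
      have h2 : nrm v = Fintype.card (Rk v) := Nat.card_eq_fintype_card
      have h4 : 0 < Fintype.card (Rk v) := Fintype.card_pos
      omega
    have h1 := art_sym hi hθ hd hdv m hm
    by_cases h2 : (2 : 𝓞 N) ∈ v.asIdeal
    · exact euler_B v h2 hf hvp d hdv m i hm h1 W C' hC' x
    · exact euler_A v h2 h3 hvp d hdv m i hm h1 W C' hC' x

theorem loc_ram (hN : TowerK3 N) (hdeg : Module.finrank N N' = 3)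
    (hu : ∀ v : HeightOneSpectrum (𝓞 N), (3 : 𝓞 N) ∈ v.asIdeal → ¬ Ram N' v)
    {σ : Gal(N'/N)} (hσ : σ ≠ 1) {δ : N} (hδ : δ ≠ 0) {y : N'} (hy : y ^ 3 = algebraMap N N' δ)
    (hσy : σ y = algebraMap K N' om * y) (W : WeierstrassCurve N)
    (C : WeierstrassCurve.VariableChange N) (hC : C • W = tw3 N δ)
    (v : HeightOneSpectrum (𝓞 N)) (hv : Ram N' v) : locPoly W v = 1 := by
  have h3 : (3 : 𝓞 N) ∉ v.asIdeal := fun h => hu v h hv
  by_cases hvp : algebraMap (𝓞 K) (𝓞 N) vp ∈ v.asIdeal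
  · exact locPoly_tw3_pi W δ hδ C hC v (tower_ram N hN v hvp)
  · obtain ⟨θ, s, d, t, hθ, hd, hs, ht, hdt⟩ := exists_kum_three hdeg hσ hu
    obtain ⟨C', hC'⟩ := cu_loc_model hdeg hσ hδ hy hσy W C hC hθ hd
    exact locPoly_tw3_ram W (d : N) C' hC' v hvp (ram_val hdeg hv h3 hθ hd)

theorem loc_pi (hN : TowerK3 N) {δ : N} (hδ : δ ≠ 0) (W : WeierstrassCurve N)
    (C : WeierstrassCurve.VariableChange N) (hC : C • W = tw3 N δ)
    (v : HeightOneSpectrum (𝓞 N)) (hvp : algebraMap (𝓞 K) (𝓞 N) vp ∈ v.asIdeal) :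
    locPoly W v = 1 :=
  locPoly_tw3_pi W δ hδ C hC v (tower_ram N hN v hvp)

end

end Pool.Agent.Lib.MP_1a91b9_ntT3.CU
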