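import Pool.Agent.Lib.MP_1a91b9_ntT.CA.Rec
import Pool.Agent.Lib.MP_1a91b9_ntT3.CU.Cont
import Pool.Agent.Lib.MP_1a91b9_ntT3.CU.Loc

/-!
# CU, job CORE: the L-series of the twist

PROOF (complete). σ from `exists_kum_sigma`, x from `CF.reciprocity_art N N' 3 (by norm_num) hdeg ht hσ` (ht from hu, `ram_cf`), CFData 3 N' x by
`cfData_of Nat.prime_three hdeg x hx1 hx2` (OfRecip.lean, as in `cfProp` in Main.lean). For v not ramified and IsArt σ v i (`CF.exists_art`): x v = i and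
cj N' x 1 v = ZMod.stdAddChar (x v) = zt ^ i (`ZMod.stdAddChar` at a natural number is exp(2πi/3)^i; zt is exp (2πi/3)); cj = 0 at the ramified v.
Let p(I) = psChi (F := N) N' piO x 1 I and q(I) = conj p(I); q is multiplicative, ‖q I‖ ≤ (N I)^(1/2) (`norm_psChi_le`).
(1) For every v and X: aeval X (locPoly W v) = (1 - q(v) X)(1 - p(v) X): unramified, not above vp: `loc_unr`, p(v) = psbC zt^i, q(v) = psC conj(zt^i) = psC zt^(2i);
    above vp: p(v) = q(v) = 0 (`psbC_bad`, `ps_place_bad` and vp_mem_iff) and `loc_pi`; ramified: p(v) = q(v) = 0 and `loc_ram`.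
(2) As in `LSeries_E49` (EF/Main.lean): W.LSeries s = Lf q s * Lf p s for 2 < Re s (`hasProd_Lf`, `hasProd_fac`).
(3) half plane: as in `half3`, `entire3` (Half.lean), with coefI p, coefI q.
(4) Lf q s = conj (Lf p (conj s)) (as `Lf_conj3`). L1 from `exists_L1` with j = 1. g s = conj (L1 (conj s)) * L1 s, as at the end of `main3`.
-/

set_option autoImplicit false

namespace Pool.Agent.Lib.MP_1a91b9_ntT3.CU

open NumberField IsDedekindDomain Polynomial Pool.Agent.Lib.MP_1a91b9_nt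
open Pool.Agent.Lib.MP_1a91b9_ntT Pool.Agent.Lib.MP_1a91b9_ntT3.EF Pool.Agent.Lib.MP_1a91b9_ntG
open Pool.Agent.Lib.MP_1a91b9_ntT.S4 (Lf differentiable_conj_conj hasProd_Lf)
open Pool.Agent.Lib.MP_1a91b9_ntT.S7 (coefI hasSum_coefI_of_le half_plane entire_half)

universe u

private theorem CORE_conj {F : Type u} [Field F] [NumberField F] (p : Ideal (𝓞 F) → ℂ) (s : ℂ) :
    Lf (fun I => (starRingEnd ℂ) (p I)) s = (starRingEnd ℂ) (Lf p ((starRingEnd ℂ) s)) := by
  rw [Lf, Lf, Complex.conj_tsum]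
  refine tsum_congr fun I => ?_
  rw [map_mul]
  congr 1
  rw [← map_neg, Complex.cpow_conj _ _ (by
    rw [Complex.natCast_arg]
    exact Real.pi_pos.ne), Complex.conj_natCast, Complex.conj_conj]

/-- A curve whose Euler factors are those of `conj p` times those of `p`. -/
private theorem CORE_gen {F : Type u} [Field F] [NumberField F] (W : WeierstrassCurve F)
    (p : Ideal (𝓞 F) → ℂ) (h1 : p 1 = 1) (hmul : ∀ I J, p (I * J) = p I * p J)
    (hn : ∀ I, ‖p I‖ ≤ (Ideal.absNorm I : ℝ) ^ (1 / 2 : ℝ))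
    (hloc : ∀ (v : HeightOneSpectrum (𝓞 F)) (x : ℂ), aeval x (locPoly W v) =
      (1 - (starRingEnd ℂ) (p v.asIdeal) * x) * (1 - p v.asIdeal * x))
    {L1 : ℂ → ℂ} (hL : Differentiable ℂ L1) (hL1 : ∀ s : ℂ, 2 < s.re → L1 s = Lf p s)
    (hne : L1 1 ≠ 0) :
    ∃ g : ℂ → ℂ, Differentiable ℂ g ∧ (∀ s : ℂ, 3 / 2 < s.re → g s = W.LSeries s) ∧
      g 1 ≠ 0 := by
  set q : Ideal (𝓞 F) → ℂ := fun I => (starRingEnd ℂ) (p I) with hq
  have h1' : q 1 = 1 := by rw [hq]; simp only [h1, map_one]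
  have hmul' : ∀ I J, q (I * J) = q I * q J := by
    intro I J
    rw [hq]
    simp only [hmul, map_mul]
  have hn' : ∀ I, ‖q I‖ ≤ (Ideal.absNorm I : ℝ) ^ (1 / 2 : ℝ) := by
    intro I
    rw [hq]
    simp only [RCLike.norm_conj]
    exact hn I
  have hser : ∀ s : ℂ, 2 < s.re → W.LSeries s = Lf q s * Lf p s := by
    intro s hs
    have hp := (hasProd_Lf q h1' hmul' (1 / 2) (by norm_num) hn' s (by linarith)).2
    have hq2 := (hasProd_Lf p h1 hmul (1 / 2) (by norm_num) hn s (by linarith)).2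
    have hpq := hp.mul hq2
    have he := hasProd_fac W hs
    refine he.unique ?_
    have e : (fun w : HeightOneSpectrum (𝓞 F) => fac W w s) = fun w =>
        (1 - q w.asIdeal * (Ideal.absNorm w.asIdeal : ℂ) ^ (-s))⁻¹ *
        (1 - p w.asIdeal * (Ideal.absNorm w.asIdeal : ℂ) ^ (-s))⁻¹ := by
      funext w
      rw [fac, nrm_eq, hloc, mul_inv]
    rw [e]
    exact hpq
  have hsp := hasSum_coefI_of_le q h1' hmul' hn'
  have hsq := hasSum_coefI_of_le p h1 hmul hn
  have hhalf := half_plane W (LSeries.convolution (coefI q) (coefI p))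
    (fun s hs => ((hsp s hs).convolution (hsq s hs)).LSeriesSummable)
    (fun s hs => by
      have hs' : 3 / 2 < s.re := by linarith
      rw [hser s hs, ((hsp s hs').convolution (hsq s hs')).LSeries_eq])
  have hg : Differentiable ℂ (fun s => (starRingEnd ℂ) (L1 ((starRingEnd ℂ) s)) * L1 s) :=
    (differentiable_conj_conj hL).mul hL
  refine ⟨fun s => (starRingEnd ℂ) (L1 ((starRingEnd ℂ) s)) * L1 s, hg,
    entire_half W (fun s hs => (hhalf s hs).1) hg fun s hs => ?_, ?_⟩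
  · rw [hser s hs, hL1 s hs, hL1 _ (by rw [Complex.conj_re]; exact hs), ← CORE_conj]
  · change (starRingEnd ℂ) (L1 ((starRingEnd ℂ) 1)) * L1 1 ≠ 0
    rw [map_one]
    exact mul_ne_zero ((_root_.map_ne_zero _).mpr hne) hne

private theorem CORE_std (i : ℕ) : (ZMod.stdAddChar ((i : ℕ) : ZMod 3) : ℂ) = zt ^ i := by
  have h := ZMod.stdAddChar_coe (N := 3) (i : ℤ)
  rw [Int.cast_natCast] at h
  rw [h, zt, ← Complex.exp_nat_mul]
  congr 1
  push_cast
  ring

theorem twist_core (N N' : Type u) [Field N] [NumberField N] [Algebra K N] [Field N']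
    [NumberField N'] [Algebra K N'] [Algebra N N'] [IsScalarTower K N N'] [IsGalois N N']
    (hdeg : Module.finrank N N' = 3) (hN : TowerK3 N) (hN' : TowerK3 N')
    (hu : ∀ v : HeightOneSpectrum (𝓞 N), (3 : 𝓞 N) ∈ v.asIdeal → ¬ MP_1a91b9_ntT3.Ram N' v)
    {δ : N} (hδ : δ ≠ 0) {y : N'} (hy : y ^ 3 = algebraMap N N' δ)
    (hn : ¬ ∃ z : N, algebraMap N N' z = y) (W : WeierstrassCurve N)
    (C : WeierstrassCurve.VariableChange N) (hC : C • W = tw3 N δ) :
    ∃ g : ℂ → ℂ, Differentiable ℂ g ∧ (∀ s : ℂ, 3 / 2 < s.re → g s = W.LSeries s) ∧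
      g 1 ≠ 0 := by
  have h3 : Fact (Nat.Prime 3) := ⟨Nat.prime_three⟩
  obtain ⟨σ, hσ, hσy⟩ := exists_kum_sigma hdeg hy hn
  have ht : ∀ v : HeightOneSpectrum (𝓞 N), CF.Ram N' v → ((3 : ℕ) : 𝓞 N) ∉ v.asIdeal :=
    fun v hv h3v => hu v (by exact_mod_cast h3v) ((ram_cf v).mpr hv)
  obtain ⟨x, hx0, hx1, hart, hx2⟩ := CF.reciprocity_art N N' 3 (by norm_num) hdeg ht hσ
  have hx : CFData 3 N' x := cfData_of Nat.prime_three hdeg x hx1 hx2
  obtain ⟨L1, hL, hL1, hne⟩ := exists_L1 N N' hdeg hu x hx hN hN' 1 one_ne_zero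
  refine CORE_gen W (psChi (F := N) N' piO x 1) (psChi_one piO x 1) (psChi_mul piO x 1)
    (norm_psChi_le piO x 1) ?_ hL hL1 hne
  intro v X
  have hpv : psChi (F := N) N' piO x 1 v.asIdeal = psbC piO N v.asIdeal * cj N' x 1 v := by
    rw [psChi, mulI_place]
  by_cases hr : MP_1a91b9_ntG.Ram N' v
  · have hc : cj N' x 1 v = 0 := by rw [cj, if_pos hr]
    rw [hpv, hc, mul_zero, map_zero, zero_mul, sub_zero, one_mul,
      loc_ram hN hdeg hu hσ hδ hy hσy W C hC v hr, map_one]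
  · by_cases hvp : algebraMap (𝓞 K) (𝓞 N) vp ∈ v.asIdeal
    · have hpi : up piO N ∈ v.asIdeal := (vp_mem_iff v).1 hvp
      rw [hpv, psbC_bad v hpi, zero_mul, map_zero, zero_mul, sub_zero, one_mul,
        loc_pi hN hδ W C hC v hvp, map_one]
    · obtain ⟨i, hi⟩ := CF.exists_art 3 hdeg hσ v
      have hxv : x v = i := hart v i (fun h => hr ((ram_cf v).mpr h)) hi
      have hc : cj N' x 1 v = zt ^ i := by
        rw [cj, if_neg hr, one_mul, hxv, CORE_std]
      have hcz : (starRingEnd ℂ) zt = zt ^ 2 := by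
        rw [Pool.Agent.Lib.MP_1a91b9_ntT.S4.conj_zt]
        linear_combination -zt_eq
      rw [hpv, hc, loc_unr hN hdeg hu hσ hδ hy hσy W C hC v hr hvp i hi X, map_mul, map_pow, hcz,
        psbC, Complex.conj_conj, ← pow_mul]

end Pool.Agent.Lib.MP_1a91b9_ntT3.CU
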