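import Pool.Agent.Lib.MP_1a91b9_ntT3.S8.Gal
import Pool.Agent.Lib.MP_1a91b9_ntT3.CU.Defs

/-!
# CU, job FLD: the cubic extension generated by the cube root of `δ` inside `F`

PROOF (complete). N' := IntermediateField.adjoin N {u} inside F, with the algebra over K by composition (K → N → N') and F, M over N'.
δ is not a cube in N: if y³ = δ then u / y is a cube root of unity, so u = y, ω y or ω² y with ω from K, which is in the range of N, excluded.
So X³ - δ is irreducible (`X_pow_sub_C_irreducible_of_prime`), it is the minimal polynomial of u, [N' : N] = 3. Galois: N' contains ω, so X³ - δ splits in N'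
(or `galois_of_prime` in S8/Gal.lean cannot be used directly since M is Galois over K only: but M is Galois over N too, of degree dividing 3^n).
TowerK3 N, TowerK3 N': `towerK3_of_galois` with M (Algebra N M, Algebra N' M by composition through F) and RamCond3 N, RamCond3 N' from RamCond3 F: a place q of K which ramifies
in N (or N') ramifies in F (`ram_up` in S8/Gal.lean).
Last property: if v contains 3 and v ramifies in N', then v ramifies in F, so (ram_down) q = below K v ramifies in F... and RamCond3 F gives 3 ∉ q, but 3 ∈ v: contradiction.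
-/

set_option autoImplicit false

namespace Pool.Agent.Lib.MP_1a91b9_ntT3.CU

open NumberField IsDedekindDomain Module Pool.Agent.Lib.MP_1a91b9_ntT
open Pool.Agent.Lib.MP_1a91b9_ntT3.S8

universe u

private theorem fld_tower (N F M : Type u) [Field N] [NumberField N] [Field F] [NumberField F]
    [Field M] [NumberField M] [Algebra K N] [Algebra K F] [Algebra K M] [Algebra N F]
    [Algebra F M] [IsScalarTower K N F] [IsScalarTower K F M] [IsGalois K M] (n : ℕ)
    (hM : finrank K M = 3 ^ n) (hF : RamCond3 F) : TowerK3 N := by
  let alg : Algebra N M := ((algebraMap F M).comp (algebraMap N F)).toAlgebra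
  have hst : IsScalarTower K N M := IsScalarTower.of_algebraMap_eq fun x => by
    change algebraMap K M x = algebraMap F M (algebraMap N F (algebraMap K N x))
    rw [← IsScalarTower.algebraMap_apply K N F, ← IsScalarTower.algebraMap_apply K F M]
  exact towerK3_of_galois N M n hM fun q hq => hF q (ram_up q hq)

theorem tower_below (N F M : Type u) [Field N] [NumberField N] [Field F] [NumberField F]
    [Field M] [NumberField M] [Algebra K N] [Algebra K F] [Algebra K M] [Algebra N F]
    [Algebra F M] [IsScalarTower K N F] [IsScalarTower K F M] [IsGalois K M] (n : ℕ)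
    (hM : finrank K M = 3 ^ n) (hF : RamCond3 F) : TowerK3 N ∧ Odd (finrank N F) := by
  refine ⟨fld_tower N F M n hM hF, ?_⟩
  have h1 : finrank K F * finrank F M = 3 ^ n := by rw [Module.finrank_mul_finrank, hM]
  have h2 : finrank K N * finrank N F = finrank K F := Module.finrank_mul_finrank K N F
  have h3 : finrank N F ∣ 3 ^ n := ⟨finrank K N * finrank F M, by rw [← h1, ← h2]; ring⟩
  exact Odd.of_dvd_nat (Odd.pow (by decide)) h3

private theorem fld_not_cube (N F : Type u) [Field N] [Field F] [Algebra K N] [Algebra K F]
    [Algebra N F] [IsScalarTower K N F] (δ : N) (hδ : δ ≠ 0) (u : F)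
    (hu : u ^ 3 = algebraMap N F δ) (hn : ¬ ∃ y : N, algebraMap N F y = u) (b : N) :
    b ^ 3 ≠ δ := by
  intro hb
  have hb0 : b ≠ 0 := by
    rintro rfl
    exact hδ (by rw [← hb]; simp)
  have hom : IsPrimitiveRoot (algebraMap K F om) 3 :=
    om_spec.map_of_injective (algebraMap K F).injective
  have hbF : algebraMap N F b ≠ 0 := by
    rw [Ne, map_eq_zero_iff _ (algebraMap N F).injective]
    exact hb0
  have hroot : (u / algebraMap N F b) ^ 3 = 1 := by
    rw [div_pow, hu, ← map_pow, hb]
    rw [← hb, map_pow]
    exact div_self (pow_ne_zero 3 hbF)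
  obtain ⟨i, -, hi⟩ := hom.eq_pow_of_pow_eq_one hroot
  apply hn
  refine ⟨algebraMap K N om ^ i * b, ?_⟩
  rw [map_mul, map_pow, ← IsScalarTower.algebraMap_apply K N F, hi]
  exact div_mul_cancel₀ u hbF

theorem exists_cubic (N F M : Type u) [Field N] [NumberField N] [Field F] [NumberField F]
    [Field M] [NumberField M] [Algebra K N] [Algebra K F] [Algebra K M] [Algebra N F]
    [Algebra F M] [IsScalarTower K N F] [IsScalarTower K F M] [IsGalois K M] (n : ℕ)
    (hM : finrank K M = 3 ^ n) (hF : RamCond3 F) (δ : N) (hδ : δ ≠ 0) (u : F)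
    (hu : u ^ 3 = algebraMap N F δ) (hn : ¬ ∃ y : N, algebraMap N F y = u) :
    ∃ (N' : Type u) (_ : Field N') (_ : NumberField N') (_ : Algebra K N') (_ : Algebra N N')
      (_ : IsScalarTower K N N'), IsGalois N N' ∧ finrank N N' = 3 ∧ TowerK3 N' ∧
      (∃ u' : N', u' ^ 3 = algebraMap N N' δ ∧ ¬ ∃ y : N, algebraMap N N' y = u') ∧
      ∀ v : HeightOneSpectrum (𝓞 N), (3 : 𝓞 N) ∈ v.asIdeal → ¬ Ram N' v := by
  have hirr : Irreducible (Polynomial.X ^ 3 - Polynomial.C δ) :=
    X_pow_sub_C_irreducible_of_prime Nat.prime_three (fld_not_cube N F δ hδ u hu hn)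
  have hmon : (Polynomial.X ^ 3 - Polynomial.C δ).Monic :=
    Polynomial.monic_X_pow_sub_C δ three_ne_zero
  have hmin : minpoly N u = Polynomial.X ^ 3 - Polynomial.C δ := by
    refine (minpoly.eq_of_irreducible_of_monic hirr ?_ hmon).symm
    rw [map_sub, map_pow, Polynomial.aeval_X, Polynomial.aeval_C, hu, sub_self]
  have hfd : FiniteDimensional N F := Module.Finite.of_restrictScalars_finite ℚ N F
  have hint : IsIntegral N u := IsIntegral.of_finite N u
  have hrank : finrank N (IntermediateField.adjoin N {u}) = 3 := by
    rw [IntermediateField.adjoin.finrank hint, hmin, Polynomial.natDegree_X_pow_sub_C]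
  have hgen : (IntermediateField.AdjoinSimple.gen N u) ^ 3 =
      algebraMap N (IntermediateField.adjoin N {u}) δ := by
    apply Subtype.ext
    rw [IntermediateField.coe_pow, IntermediateField.AdjoinSimple.coe_gen, hu]
    rfl
  have hgt : IntermediateField.adjoin N {IntermediateField.AdjoinSimple.gen N u} = ⊤ := by
    apply IntermediateField.lift_injective (IntermediateField.adjoin N {u})
    rw [IntermediateField.lift_adjoin_simple, IntermediateField.lift_top,
      IntermediateField.AdjoinSimple.coe_gen]
  have hprim : (primitiveRoots (finrank N (IntermediateField.adjoin N {u})) N).Nonempty := by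
    rw [hrank]
    refine ⟨algebraMap K N om, ?_⟩
    rw [mem_primitiveRoots three_pos]
    exact om_spec.map_of_injective (algebraMap K N).injective
  have hGal : IsGalois N (IntermediateField.adjoin N {u}) := by
    have h1 := isSplittingField_X_pow_sub_C_of_root_adjoin_eq_top (K := N)
      (L := IntermediateField.adjoin N {u}) hprim (a := δ)
      (α := IntermediateField.AdjoinSimple.gen N u) (by rw [hrank]; exact hgen) hgt
    rw [hrank] at h1 hprim
    exact isGalois_of_isSplittingField_X_pow_sub_C hprim hirr _
  have hst2 : IsScalarTower K (IntermediateField.adjoin N {u}) F :=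
    IsScalarTower.of_algebraMap_eq fun x => rfl
  refine ⟨IntermediateField.adjoin N {u}, inferInstance, inferInstance, inferInstance,
    inferInstance, inferInstance, hGal, hrank,
    fld_tower (IntermediateField.adjoin N {u}) F M n hM hF,
    ⟨IntermediateField.AdjoinSimple.gen N u, hgen, ?_⟩, ?_⟩
  · rintro ⟨y, hy⟩
    apply hn
    refine ⟨y, ?_⟩
    have h2 := congrArg Subtype.val hy
    rw [IntermediateField.AdjoinSimple.coe_gen] at h2
    exact h2
  · intro v hv hr
    have h1 : Ram F v := ram_up v hr
    have h2 := (hF _ (ram_down (k := K) v h1)).1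
    apply h2
    rw [Pool.Agent.Lib.MP_1a91b9_ntT.S5.mem_below, map_ofNat]
    exact hv

end Pool.Agent.Lib.MP_1a91b9_ntT3.CU
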