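import Pool.Agent.Lib.MP_1a91b9_ntT.TW.Pts
import Pool.Agent.Lib.MP_1a91b9_ntT.TW.Core
import Pool.Agent.Lib.MP_1a91b9_ntT3.CU.Core
import Pool.Agent.Lib.MP_1a91b9_ntT3.CU.Cls
import Pool.Agent.Lib.MP_1a91b9_ntT3.CU.Fld
import Pool.Agent.Lib.MP_1a91b9_ntT3.S8.Trans
import Pool.Agent.Lib.MP_1a91b9_ntT3.S9.Res

/-!
# CU, job ISO: all curves which become isomorphic to `E49`

PROOF (complete).
`iso_K`: TowerK3 N, Odd [F : N] from `tower_below`; TowerK3 F by `towerK3_of_galois`. δ, u, D from `exists_tw3`.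
 - if u comes from y in N (y ≠ 0, y³ = δ): tw3 N δ is isomorphic over N to tw3 N 1 (`exists_tw3_scale` with 1, y) and to E49 N (`exists_tw3_E49`). So C • W = E49 N for some C.
   For all v: locPoly W v = locPoly (E49 N) v: if vp ∉ v, `locPoly_of_model` for both with W₀ = W49 (algebraMap omO) (as in `locPoly_good`, EF/Defs.lean);
   if vp ∈ v both are 1 (`loc_pi`, `bad_E49` with vp_mem_iff). So the L-series agree (`TW.LSeries_congr_loc`) and `t3 N hN` gives the continuation.
 - otherwise N' from `exists_cubic` and `twist_core`.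
 Finiteness: W(N) injects in (W.baseChange F)(F), which is in bijection with (E49 F)(F), finite by (t3 F hF).2: see `finite_iso` in MP_1a91b9_ntT/TW/Loc.lean (same proof).
`iso_trans`: transport of `iso_K` to K₀: as `tower_trans` (S8/Trans.lean): e : K ≃+* K₀ from `exists_equiv`, algebras over K on N, F, M by composition with e, IsGalois K M, finrank K M, RamCond3 F as there
 (`noroot_of_card` of S9/Res.lean converts the condition on the number of points).
-/

set_option autoImplicit false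

namespace Pool.Agent.Lib.MP_1a91b9_ntT3.CU

open NumberField IsDedekindDomain Module Polynomial WeierstrassCurve
open Pool.Agent.Lib.MP_1a91b9_nt Pool.Agent.Lib.MP_1a91b9_ntT Pool.Agent.Lib.MP_1a91b9_ntT3.EF
open Pool.Agent.Lib.MP_1a91b9_ntT3.S8 (RamCond3)

universe u

private noncomputable def Iso_map {N F' : Type*} [Field N] [Field F'] (f : N →+* F')
    (W : WeierstrassCurve N) : W.toAffine.Point → (W.map f).toAffine.Point
  | .zero => .zero
  | .some X Y h => .some (f X) (f Y) ((Affine.map_nonsingular W.toAffine f.injective X Y).2 h)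

private theorem Iso_map_injective {N F' : Type*} [Field N] [Field F'] (f : N →+* F')
    (W : WeierstrassCurve N) : Function.Injective (Iso_map f W) := by
  rintro (_ | ⟨x₁, y₁, h₁⟩) (_ | ⟨x₂, y₂, h₂⟩) h
  · rfl
  · exact absurd h (by simp [Iso_map])
  · exact absurd h (by simp [Iso_map])
  · simp only [Iso_map, Affine.Point.some.injEq] at h
    obtain ⟨hx, hy⟩ := h
    have hx' := f.injective hx
    have hy' := f.injective hy
    subst hx'
    subst hy'
    rfl

private theorem Iso_finite {N F : Type*} [Field N] [Field F] [Algebra N F] [Algebra K F]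
    (W : WeierstrassCurve N)
    (C : WeierstrassCurve.VariableChange F) (hC : C • (W.baseChange F) = E49 F)
    (h : Finite (E49 F).toAffine.Point) : Finite W.toAffine.Point := by
  rw [← hC] at h
  have h3 : Finite (W.map (algebraMap N F)).toAffine.Point :=
    Finite.of_surjective _ (vcFun_bijective (W.baseChange F) C).2
  exact Finite.of_injective _ (Iso_map_injective (algebraMap N F) W)

private theorem Iso_good {N : Type*} [Field N] [NumberField N] [Algebra K N]
    (W : WeierstrassCurve N) (D : WeierstrassCurve.VariableChange N) (hD : D • W = E49 N)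
    (v : HeightOneSpectrum (𝓞 N)) (hv : algebraMap (𝓞 K) (𝓞 N) vp ∉ v.asIdeal) :
    locPoly W v = locPoly (E49 N) v := by
  have homN : (algebraMap (𝓞 K) (𝓞 N) omO) ^ 2 + algebraMap (𝓞 K) (𝓞 N) omO + 1 = 0 := by
    rw [← map_pow, ← map_add, ← map_one (algebraMap (𝓞 K) (𝓞 N)), ← map_add, omO_eq, map_zero]
  have hE : E49 N = (W49 (algebraMap (𝓞 K) (𝓞 N) omO)).map (algebraMap (𝓞 N) N) := by
    rw [W49_map, E49_eq]
    rfl
  have hΔ : (W49 (algebraMap (𝓞 K) (𝓞 N) omO)).Δ ∉ v.asIdeal.under (𝓞 N) := by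
    rw [W49_delta _ homN]
    intro hmem
    apply hv
    have h1 : (1 + 3 * algebraMap (𝓞 K) (𝓞 N) omO) ^ 2 ∈ v.asIdeal := hmem
    have h2 := v.isPrime.mem_of_pow_mem 2 h1
    unfold vp
    rw [map_add, map_mul, map_one, map_ofNat]
    exact h2
  have h1 := locPoly_of_model (F := N) (K := N) W D (W49 (algebraMap (𝓞 K) (𝓞 N) omO))
    (by rw [hD, hE]) v hΔ
  have h2 := locPoly_of_model (F := N) (K := N) (E49 N) 1 (W49 (algebraMap (𝓞 K) (𝓞 N) omO))
    (by rw [one_smul, hE]) v hΔ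
  have hb1 : W.baseChange N = W := WeierstrassCurve.map_id _
  have hb2 : (E49 N).baseChange N = E49 N := WeierstrassCurve.map_id _
  rw [hb1] at h1
  rw [hb2] at h2
  rw [h1, h2]

theorem iso_K (N F M : Type u) [Field N] [NumberField N] [Field F] [NumberField F]
    [Field M] [NumberField M] [Algebra K N] [Algebra K F] [Algebra K M] [Algebra N F]
    [Algebra F M] [IsScalarTower K N F] [IsScalarTower K F M] [IsGalois K M] (n : ℕ)
    (hM : finrank K M = 3 ^ n) (hF : RamCond3 F) (W : WeierstrassCurve N)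
    (C : WeierstrassCurve.VariableChange F) (hC : C • (W.baseChange F) = E49 F) :
    (∃ g : ℂ → ℂ, Differentiable ℂ g ∧ (∀ s : ℂ, 3 / 2 < s.re → g s = W.LSeries s) ∧
      g 1 ≠ 0) ∧ Finite W.toAffine.Point := by
  obtain ⟨hN, hodd⟩ := tower_below N F M n hM hF
  have hFT : TowerK3 F := S8.towerK3_of_galois F M n hM hF
  refine ⟨?_, Iso_finite W C hC (t3 F hFT).2⟩
  have hfd : FiniteDimensional N F := Module.Finite.of_restrictScalars_finite ℚ N F
  obtain ⟨δ, u, D, hδ, hu, hD⟩ := exists_tw3 hodd W C hC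
  by_cases hy : ∃ y : N, algebraMap N F y = u
  · obtain ⟨y, rfl⟩ := hy
    have hdy : δ = y ^ 3 := by
      apply (algebraMap N F).injective
      rw [← hu, map_pow]
    have hy0 : y ≠ 0 := by
      rintro rfl
      apply hδ
      rw [hdy, zero_pow three_ne_zero]
    obtain ⟨C1, hC1⟩ := exists_tw3_scale (F := N) 1 y hy0
    obtain ⟨C2, hC2⟩ := exists_tw3_E49 (F := N)
    rw [one_mul, ← hdy] at hC1
    have hE : (C2 * C1⁻¹ * D) • W = E49 N := by
      rw [mul_smul, mul_smul, hD, ← hC1, inv_smul_smul, hC2]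
    have hloc : ∀ v, locPoly W v = locPoly (E49 N) v := by
      intro v
      by_cases hv : algebraMap (𝓞 K) (𝓞 N) vp ∈ v.asIdeal
      · rw [loc_pi hN hδ W D hD v hv, bad_E49 hN v ((vp_mem_iff v).1 hv)]
      · exact Iso_good W _ hE v hv
    obtain ⟨⟨g, hg, hg2, hg1⟩, -⟩ := t3 N hN
    refine ⟨g, hg, fun s hs => ?_, hg1⟩
    rw [TW.LSeries_congr_loc _ _ hloc]
    exact hg2 s hs
  · obtain ⟨N', _, _, _, _, _, hG, hdeg, hN', ⟨u', hu', hn'⟩, hr⟩ :=
      exists_cubic N F M n hM hF δ hδ u hu hy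
    exact twist_core N N' hdeg hN hN' hr hδ hu' hn' W D hD

theorem iso_trans (K₀ N F M : Type u) [Field K₀] [NumberField K₀] [Field N] [NumberField N]
    [Field F] [NumberField F] [Field M] [NumberField M] [Algebra K₀ N] [Algebra K₀ F]
    [Algebra K₀ M] [Algebra N F] [Algebra F M] [IsScalarTower K₀ N F] [IsScalarTower K₀ F M]
    [IsGalois K₀ M] (hK : finrank ℚ K₀ = 2) (w : 𝓞 K₀) (hw : w ^ 2 + w + 1 = 0) (n : ℕ)
    (hM : finrank K₀ M = 3 ^ n)
    (hF : ∀ q : HeightOneSpectrum (𝓞 K₀), (∃ v : HeightOneSpectrum (𝓞 F),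
      q.asIdeal.map (algebraMap (𝓞 K₀) (𝓞 F)) ≤ v.asIdeal ^ 2) → (3 : 𝓞 K₀) ∉ q.asIdeal ∧
        (w - 2 ∉ q.asIdeal → ¬ 3 ∣ Nat.card (⟨0, 1 + 2 * Ideal.Quotient.mk q.asIdeal w,
          Ideal.Quotient.mk q.asIdeal w, -1, 0⟩ :
            WeierstrassCurve (𝓞 K₀ ⧸ q.asIdeal)).toAffine.Point))
    (z : F) (hz : z = algebraMap K₀ F w) (W : WeierstrassCurve N)
    (C : WeierstrassCurve.VariableChange F)
    (hC : C • (W.baseChange F) = ⟨0, 1 + 2 * z, z, -1, 0⟩) :
    (∃ g : ℂ → ℂ, Differentiable ℂ g ∧ (∀ s : ℂ, 3 / 2 < s.re → g s = W.LSeries s) ∧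
      g 1 ≠ 0) ∧ Finite W.toAffine.Point := by
  have hw' : (w : K₀) ^ 2 + (w : K₀) + 1 = 0 := by
    have h := congrArg (algebraMap (𝓞 K₀) K₀) hw
    rw [map_add, map_add, map_pow, map_one, map_zero] at h
    exact h
  obtain ⟨e, he⟩ := S8.exists_equiv hK hw'
  let aN : Algebra K N := ((algebraMap K₀ N).comp e.toRingHom).toAlgebra
  let aF : Algebra K F := ((algebraMap K₀ F).comp e.toRingHom).toAlgebra
  let aM : Algebra K M := ((algebraMap K₀ M).comp e.toRingHom).toAlgebra
  have hNe : ∀ x : K, algebraMap K N x = algebraMap K₀ N (e x) := fun x => rfl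
  have hFe : ∀ x : K, algebraMap K F x = algebraMap K₀ F (e x) := fun x => rfl
  have hMe : ∀ x : K, algebraMap K M x = algebraMap K₀ M (e x) := fun x => rfl
  have hst : IsScalarTower K F M := IsScalarTower.of_algebraMap_eq fun x => by
    rw [hMe, hFe]
    exact IsScalarTower.algebraMap_apply K₀ F M (e x)
  have hst2 : IsScalarTower K N F := IsScalarTower.of_algebraMap_eq fun x => by
    rw [hNe, hFe]
    exact IsScalarTower.algebraMap_apply K₀ N F (e x)
  have hfin : finrank K M = 3 ^ n := by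
    have h1 := finrank_mul_finrank ℚ K M
    have h2 := finrank_mul_finrank ℚ K₀ M
    rw [S3.finrank_K] at h1
    rw [hK, hM] at h2
    omega
  have hgal : IsGalois K M := by
    have hcard : Nat.card (M ≃ₐ[K] M) = finrank K M := by
      have h1 : Nat.card (M ≃ₐ[K₀] M) = finrank K₀ M := IsGalois.card_aut_eq_finrank K₀ M
      rw [hfin, ← hM, ← h1]
      refine Nat.card_congr ⟨fun σ => AlgEquiv.ofRingEquiv (f := σ.toRingEquiv) fun x => ?_,
        fun σ => AlgEquiv.ofRingEquiv (f := σ.toRingEquiv) fun x => ?_, fun σ => ?_, fun σ => ?_⟩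
      · obtain ⟨y, rfl⟩ := e.surjective x
        rw [← hMe]
        exact σ.commutes y
      · rw [hMe]
        exact σ.commutes (e x)
      · ext x
        rfl
      · ext x
        rfl
    exact IsGalois.of_card_aut_eq_finrank K M hcard
  have hrF : RamCond3 F := by
    let ε : 𝓞 K ≃+* 𝓞 K₀ := RingOfIntegers.mapRingEquiv e
    have hε : ∀ x : 𝓞 K, ((ε x : 𝓞 K₀) : K₀) = e x := fun x => rfl
    have hεw : ε omO = w := by
      apply RingOfIntegers.ext
      rw [hε]
      exact he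
    intro q hq
    have hcomm : ∀ y : 𝓞 K, algebraMap (𝓞 K₀) (𝓞 F) (ε y) = algebraMap (𝓞 K) (𝓞 F) y := by
      intro y
      apply RingOfIntegers.ext
      rfl
    have hprime : (q.asIdeal.comap (ε.symm : 𝓞 K₀ →+* 𝓞 K)).IsPrime :=
      have := q.isPrime
      Ideal.comap_isPrime _ _
    have hmem : ∀ y : 𝓞 K, ε y ∈ q.asIdeal.comap (ε.symm : 𝓞 K₀ →+* 𝓞 K) ↔ y ∈ q.asIdeal := by
      intro y
      rw [Ideal.mem_comap]
      have h1 : (ε.symm : 𝓞 K₀ →+* 𝓞 K) (ε y) = y := ε.symm_apply_apply y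
      rw [h1]
    have hbot : q.asIdeal.comap (ε.symm : 𝓞 K₀ →+* 𝓞 K) ≠ ⊥ := by
      intro h
      obtain ⟨y, hy, hy0⟩ := Submodule.exists_mem_ne_zero_of_ne_bot q.ne_bot
      have h1 := (hmem y).2 hy
      rw [h, Ideal.mem_bot] at h1
      exact hy0 ((map_eq_zero_iff ε ε.injective).1 h1)
    obtain ⟨v, hv⟩ := hq
    obtain ⟨q', hq'⟩ : ∃ q' : HeightOneSpectrum (𝓞 K₀),
        q'.asIdeal = q.asIdeal.comap (ε.symm : 𝓞 K₀ →+* 𝓞 K) := ⟨⟨_, hprime, hbot⟩, rfl⟩
    have hmem' : ∀ y : 𝓞 K, ε y ∈ q'.asIdeal ↔ y ∈ q.asIdeal := by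
      intro y
      rw [hq']
      exact hmem y
    have hram : ∃ v : HeightOneSpectrum (𝓞 F),
        q'.asIdeal.map (algebraMap (𝓞 K₀) (𝓞 F)) ≤ v.asIdeal ^ 2 := by
      refine ⟨v, ?_⟩
      rw [Ideal.map_le_iff_le_comap] at hv ⊢
      intro x hx
      obtain ⟨y, rfl⟩ := ε.surjective x
      have h1 := hv ((hmem' y).1 hx)
      rw [Ideal.mem_comap] at h1 ⊢
      rw [hcomm]
      exact h1
    obtain ⟨h3, hr⟩ := hF q' hram
    refine ⟨fun h => h3 ?_, fun hpi t ht => ?_⟩
    · have h1 := (hmem' 3).2 h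
      rwa [map_ofNat] at h1
    · have hpi' : w - 2 ∉ q'.asIdeal := by
        intro h
        apply hpi
        rw [← hmem', piO, map_sub, map_ofNat, hεw]
        exact h
      refine S9.noroot_of_card w hw q' h3 hpi' (hr hpi') (ε t) ?_
      have h1 := (hmem' _).2 ht
      rwa [map_add, map_sub, map_pow, map_mul, map_one, hεw] at h1
  refine iso_K N F M n hfin hrF W C ?_
  rw [hC, hz, E49]
  have h5 : algebraMap K F om = algebraMap K₀ F w := by
    rw [hFe, he]
  rw [map_add, map_mul, map_one, map_ofNat, h5]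

end Pool.Agent.Lib.MP_1a91b9_ntT3.CU
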