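import Pool.Agent.Lib.MP_1a91b9_ntT3.CU.Defs

/-!
# CU, job KUM: Kummer generators of a cyclic cubic extension

N' / N Galois of degree 3, ω = algebraMap omO, σ a nontrivial automorphism (of order 3), λ = `EF.lam` = 1 + 2 ω, λ² = -3. For τ in O_N' let
R(τ) = τ + ω² σ τ + ω σ² τ; then σ R(τ) = ω R(τ) (σ fixes ω, ω³ = 1).
PROOF (complete).
(0) Inertia: if v is not ramified and W is a place of N' above v then no nontrivial automorphism φ satisfies φ x - x ∈ W for all x in O_N'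
    (`CF.fix_of_triv` with k := N, L := N', N := N', together with `ram_cf`). Hence the three ring homomorphisms
    x ↦ σ^j x mod W (j = 0, 1, 2) from O_N' to the field O_N'/W are pairwise distinct (replace x by σ^(-i) x), so
    linearly independent (`linearIndependent_monoidHom`).
(1) `exists_kum_at`: by independence there is τ with R(τ) ∉ W (the coefficients 1, ω², ω are nonzero in O_N'/W). θ = R(τ), σ θ = ω θ,
    θ³ is fixed by σ, so it comes from d in O_N (an integer fixed by Gal(N'/N)); d ∉ v since θ ∉ W, d maps to θ³.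
(2) `exists_kum_three`: there is τ in O_N' with τ + σ τ + σ² τ = 1. The set of the y in O_N with algebraMap y = τ + σ τ + σ² τ for some τ is an ideal
    of O_N (σ is O_N-linear; every trace is fixed so comes from O_N). If it is not the unit ideal it is contained in some place v. It contains 3 (τ = 1),
    so 3 ∈ v and v is not ramified (hu), but by (0) the sum of the three homomorphisms is not 0: there is τ with τ + σ τ + σ² τ ∉ W, contradiction.
    θ = R(τ) = 1 + (ω² - 1) σ τ + (ω - 1) σ² τ, ω² - 1 = λ ω, ω - 1 = -λ ω²: θ = 1 + λ s with s = ω σ τ - ω² σ² τ. θ ≠ 0 as λ is not a unit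
    (λ² = -3 and there is a place above 3, or 3 is not a unit in O_N'). d as in (1). d = (1 + λ s)³ = 1 + 3 λ s + 3 λ² s² + λ³ s³ = 1 + 3 λ t for
    t = s - s³ + λ s² (λ² = -3). t is fixed by σ (3 λ t = d - 1), so t comes from O_N.
(3) `kum_ratio`: u ≠ 0 as δ ≠ 0. θ / u is fixed by σ hence by Gal(N'/N) (generated by σ), so θ = c u with c in N, c ≠ 0; cube.
(4) `exists_kum_sigma`: u is not in N, so some automorphism φ moves u; φ u / u is a cube root of 1, different from 1, so it is ω or ω²; σ = φ or φ².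
-/

set_option autoImplicit false

namespace Pool.Agent.Lib.MP_1a91b9_ntT3.CU

open NumberField IsDedekindDomain Polynomial Pool.Agent.Lib.MP_1a91b9_nt
open Pool.Agent.Lib.MP_1a91b9_ntT Pool.Agent.Lib.MP_1a91b9_ntT3.EF

universe u

section
variable {N N' : Type u} [Field N] [NumberField N] [Algebra K N] [Field N'] [NumberField N']
  [Algebra K N'] [Algebra N N'] [IsScalarTower K N N'] [IsGalois N N']

omit [NumberField N] [NumberField N'] [Algebra K N] [Algebra K N'] [IsScalarTower K N N']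
  [IsGalois N N'] in
private theorem kum_smul (φ : Gal(N'/N)) (x : 𝓞 N') : ((φ • x : 𝓞 N') : N') = φ (x : N') := rfl

omit [NumberField N] [NumberField N'] [Algebra K N] [Algebra K N'] [IsScalarTower K N N']
  [IsGalois N N'] in
private theorem kum_fixA (φ : Gal(N'/N)) (a : 𝓞 N) :
    φ • (algebraMap (𝓞 N) (𝓞 N') a) = algebraMap (𝓞 N) (𝓞 N') a := by
  apply RingOfIntegers.ext
  rw [kum_smul]
  change φ (algebraMap N N' (a : N)) = algebraMap N N' (a : N)
  exact φ.commutes _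

omit [NumberField N] [NumberField N'] [IsGalois N N'] in
private theorem kum_fixK (φ : Gal(N'/N)) (a : 𝓞 K) :
    φ • (algebraMap (𝓞 K) (𝓞 N') a) = algebraMap (𝓞 K) (𝓞 N') a := by
  apply RingOfIntegers.ext
  rw [kum_smul]
  change φ (algebraMap K N' (a : K)) = algebraMap K N' (a : K)
  rw [IsScalarTower.algebraMap_apply K N N']
  exact φ.commutes _

omit [NumberField N'] in
private theorem kum_w (N' : Type u) [Field N'] [Algebra K N'] :
    (algebraMap (𝓞 K) (𝓞 N') omO) ^ 2 + algebraMap (𝓞 K) (𝓞 N') omO + 1 = 0 := by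
  rw [← map_pow, ← map_add, ← map_one (algebraMap (𝓞 K) (𝓞 N')), ← map_add, omO_eq, map_zero]

private theorem kum_three_ne (N' : Type u) [Field N'] [NumberField N'] : (3 : 𝓞 N') ≠ 0 := by
  intro h
  have h2 := congrArg (algebraMap (𝓞 N') N') h
  rw [map_ofNat, map_zero] at h2
  have h3 : ((3 : ℕ) : N') = 0 := by exact_mod_cast h2
  exact absurd (Nat.cast_eq_zero.mp h3) (by norm_num)

private theorem kum_three {N' : Type u} [Field N'] [NumberField N'] (z : 𝓞 N') : 3 * z ≠ 1 := by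
  intro h
  have h1 : (3 : N') * (z : N') = 1 := by
    have h2 := congrArg (algebraMap (𝓞 N') N') h
    rw [map_mul, map_one, map_ofNat] at h2
    exact h2
  have h2 : (z : N') = algebraMap ℚ N' (1 / 3) := by
    rw [map_div₀, map_one, map_ofNat]
    field_simp
    linear_combination h1
  have h3 : IsIntegral ℤ (algebraMap ℚ N' (1 / 3)) := by
    rw [← h2]
    exact RingOfIntegers.isIntegral_coe z
  have h4 : IsIntegral ℤ (1 / 3 : ℚ) :=
    (isIntegral_algebraMap_iff (algebraMap ℚ N').injective).mp h3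
  obtain ⟨n, hn⟩ := IsIntegrallyClosed.isIntegral_iff.mp h4
  have h5 : (n : ℚ) = 1 / 3 := hn
  have h6 : (3 : ℚ) * n = 1 := by
    rw [h5]
    norm_num
  have h7 : 3 * n = 1 := by exact_mod_cast h6
  omega

omit [Algebra K N] [Algebra K N'] [IsScalarTower K N N'] in
private theorem kum_card (hdeg : Module.finrank N N' = 3) : Nat.card Gal(N'/N) = 3 := by
  rw [IsGalois.card_aut_eq_finrank, hdeg]

omit [Algebra K N] [Algebra K N'] [IsScalarTower K N N'] in
private theorem kum_cube (hdeg : Module.finrank N N' = 3) (σ : Gal(N'/N)) : σ ^ 3 = 1 := by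
  rw [← kum_card hdeg]
  exact pow_card_eq_one'

omit [Algebra K N] [Algebra K N'] [IsScalarTower K N N'] in
private theorem kum_gen (hdeg : Module.finrank N N' = 3) {σ : Gal(N'/N)} (hσ : σ ≠ 1)
    (φ : Gal(N'/N)) : φ ∈ Subgroup.zpowers σ := by
  have : Fact (Nat.Prime 3) := ⟨Nat.prime_three⟩
  exact mem_zpowers_of_prime_card (kum_card hdeg) hσ

omit [Algebra K N] [Algebra K N'] [IsScalarTower K N N'] in
private theorem kum_fixed (hdeg : Module.finrank N N' = 3) {σ : Gal(N'/N)} (hσ : σ ≠ 1) {x : N'}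
    (h : σ x = x) : ∃ y : N, algebraMap N N' y = x := by
  have h1 : ∀ φ : Gal(N'/N), φ x = x := by
    intro φ
    obtain ⟨k, hk⟩ := Subgroup.mem_zpowers_iff.mp (kum_gen hdeg hσ φ)
    rw [← hk]
    have h2 : σ ∈ MulAction.stabilizer Gal(N'/N) x := h
    exact (MulAction.stabilizer Gal(N'/N) x).zpow_mem h2 k
  exact (IsGalois.mem_range_algebraMap_iff_fixed x).mpr h1

omit [Algebra K N] [Algebra K N'] [IsScalarTower K N N'] in
private theorem kum_fixedO (hdeg : Module.finrank N N' = 3) {σ : Gal(N'/N)} (hσ : σ ≠ 1)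
    {x : 𝓞 N'} (h : σ • x = x) : ∃ y : 𝓞 N, algebraMap (𝓞 N) (𝓞 N') y = x := by
  obtain ⟨y, hy⟩ := kum_fixed hdeg hσ (x := (x : N'))
    (congrArg (fun z : 𝓞 N' => (z : N')) h)
  have hint : IsIntegral ℤ y := by
    have h1 : IsIntegral ℤ (algebraMap N N' y) := by
      rw [hy]
      exact RingOfIntegers.isIntegral_coe x
    exact (isIntegral_algebraMap_iff (algebraMap N N').injective).mp h1
  exact ⟨⟨y, hint⟩, RingOfIntegers.ext hy⟩

omit [Algebra K N] [Algebra K N'] [IsScalarTower K N N'] in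
private theorem kum_indep (hdeg : Module.finrank N N' = 3) {σ : Gal(N'/N)} (hσ : σ ≠ 1)
    (W : HeightOneSpectrum (𝓞 N')) (hW : ¬ CF.Ram N' (W.under (𝓞 N))) (a b c : 𝓞 N')
    (ha : a ∉ W.asIdeal) :
    ∃ τ : 𝓞 N', a * τ + b * (σ • τ) + c * (σ ^ 2 • τ) ∉ W.asIdeal := by
  by_contra hcon
  push Not at hcon
  have hmax : W.asIdeal.IsMaximal := W.isMaximal
  let _ : Field (𝓞 N' ⧸ W.asIdeal) := Ideal.Quotient.field W.asIdeal
  let f : Fin 3 → (𝓞 N' →* (𝓞 N' ⧸ W.asIdeal)) := fun j =>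
    ((Ideal.Quotient.mk W.asIdeal).comp
      (MulSemiringAction.toRingHom Gal(N'/N) (𝓞 N') (σ ^ (j : ℕ)))).toMonoidHom
  have hfv : ∀ j x, f j x = Ideal.Quotient.mk W.asIdeal (σ ^ (j : ℕ) • x) := fun j x => rfl
  have hord : orderOf σ = 3 := by
    have h1 : orderOf σ ∣ 3 := orderOf_dvd_of_pow_eq_one (kum_cube hdeg σ)
    rcases (Nat.dvd_prime Nat.prime_three).mp h1 with h | h
    · exact absurd (orderOf_eq_one_iff.mp h) hσ
    · exact h
  have hf : Function.Injective f := by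
    intro i j hij
    have h1 : ∀ x : 𝓞 N', (σ ^ (i : ℕ) * (σ ^ (j : ℕ))⁻¹) • x - x ∈ W.asIdeal := by
      intro x
      have h2 := congrArg (fun g : 𝓞 N' →* (𝓞 N' ⧸ W.asIdeal) => g ((σ ^ (j : ℕ))⁻¹ • x)) hij
      simp only [hfv] at h2
      rw [smul_inv_smul, ← mul_smul, Ideal.Quotient.eq] at h2
      exact h2
    have h3 := CF.fix_of_triv (L := N') W (σ ^ (i : ℕ) * (σ ^ (j : ℕ))⁻¹) hW (fun x => h1 x)
    have h4 : σ ^ (i : ℕ) * (σ ^ (j : ℕ))⁻¹ = 1 := AlgEquiv.ext fun x => h3 x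
    have h5 : σ ^ (i : ℕ) = σ ^ (j : ℕ) := mul_inv_eq_one.mp h4
    have h6 := pow_inj_mod.mp h5
    rw [hord, Nat.mod_eq_of_lt i.isLt, Nat.mod_eq_of_lt j.isLt] at h6
    exact Fin.ext h6
  have hli := (linearIndependent_monoidHom (𝓞 N') (𝓞 N' ⧸ W.asIdeal)).comp f hf
  rw [Fintype.linearIndependent_iff] at hli
  have h7 := hli ![Ideal.Quotient.mk W.asIdeal a, Ideal.Quotient.mk W.asIdeal b,
    Ideal.Quotient.mk W.asIdeal c] (by
      ext x
      rw [Fin.sum_univ_three]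
      simp only [Function.comp, Pi.add_apply, Pi.smul_apply, smul_eq_mul, Pi.zero_apply,
        Matrix.cons_val_zero, Matrix.cons_val_one, Matrix.cons_val_two, Matrix.head_cons,
        Matrix.tail_cons]
      change Ideal.Quotient.mk W.asIdeal a * Ideal.Quotient.mk W.asIdeal (σ ^ 0 • x) +
        Ideal.Quotient.mk W.asIdeal b * Ideal.Quotient.mk W.asIdeal (σ ^ 1 • x) +
        Ideal.Quotient.mk W.asIdeal c * Ideal.Quotient.mk W.asIdeal (σ ^ 2 • x) = 0
      rw [pow_zero, pow_one, one_smul, ← map_mul, ← map_mul, ← map_mul, ← map_add, ← map_add]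
      exact Ideal.Quotient.eq_zero_iff_mem.mpr (hcon x)) 0
  exact ha (Ideal.Quotient.eq_zero_iff_mem.mp h7)

end

section
variable {N N' : Type u} [Field N] [NumberField N] [Algebra K N] [Field N'] [NumberField N']
  [Algebra K N'] [Algebra N N'] [IsScalarTower K N N'] [IsGalois N N']

theorem exists_kum_at (hdeg : Module.finrank N N' = 3) {σ : Gal(N'/N)} (hσ : σ ≠ 1)
    (v : HeightOneSpectrum (𝓞 N)) (hv : ¬ Ram N' v) :
    ∃ (θ : 𝓞 N') (d : 𝓞 N), IsKum σ θ ∧ algebraMap (𝓞 N) (𝓞 N') d = θ ^ 3 ∧ d ∉ v.asIdeal := by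
  obtain ⟨W, hWv⟩ := CF.exists_over (N := N') v
  have hW : ¬ CF.Ram N' (W.under (𝓞 N)) := by
    rw [hWv]
    exact fun h => hv ((ram_cf v).mpr h)
  set w : 𝓞 N' := algebraMap (𝓞 K) (𝓞 N') omO with hw
  have hw1 : w ^ 2 + w + 1 = 0 := kum_w N'
  have hw3 : w ^ 3 = 1 := by linear_combination (w - 1) * hw1
  have hwfix : ∀ φ : Gal(N'/N), φ • w = w := fun φ => kum_fixK φ omO
  obtain ⟨τ, hτ⟩ := kum_indep hdeg hσ W hW 1 (w ^ 2) w
    (fun h => W.isPrime.ne_top ((Ideal.eq_top_iff_one _).mpr h))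
  set θ : 𝓞 N' := 1 * τ + w ^ 2 * (σ • τ) + w * (σ ^ 2 • τ) with hθ
  have hσθ : σ • θ = w * θ := by
    rw [hθ, smul_add, smul_add, smul_mul', smul_mul', smul_mul', smul_one, smul_pow', hwfix,
      ← mul_smul, ← mul_smul, ← pow_succ', kum_cube hdeg, one_smul, ← pow_two]
    linear_combination (-(σ • τ) - w * (σ ^ 2 • τ) + (σ ^ 2 • τ) * w) * hw3
  have hθ0 : θ ≠ 0 := fun h => hτ (by rw [h]; exact W.asIdeal.zero_mem)
  have hcube : σ • (θ ^ 3) = θ ^ 3 := by
    rw [smul_pow', hσθ, mul_pow, hw3, one_mul]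
  obtain ⟨d, hd⟩ := kum_fixedO hdeg hσ hcube
  refine ⟨θ, d, ⟨hθ0, hσθ⟩, hd, fun hdv => ?_⟩
  have h1 : algebraMap (𝓞 N) (𝓞 N') d ∈ W.asIdeal := by
    have h2 : d ∈ (W.under (𝓞 N)).asIdeal := by
      rw [hWv]
      exact hdv
    exact h2
  rw [hd] at h1
  exact hτ (W.isPrime.mem_of_pow_mem 3 h1)

theorem exists_kum_three (hdeg : Module.finrank N N' = 3) {σ : Gal(N'/N)} (hσ : σ ≠ 1)
    (hu : ∀ v : HeightOneSpectrum (𝓞 N), (3 : 𝓞 N) ∈ v.asIdeal → ¬ Ram N' v) :
    ∃ (θ s : 𝓞 N') (d t : 𝓞 N), IsKum σ θ ∧ algebraMap (𝓞 N) (𝓞 N') d = θ ^ 3 ∧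
      θ = 1 + algebraMap (𝓞 K) (𝓞 N') lam * s ∧
      algebraMap (𝓞 N) (𝓞 N') t = s - s ^ 3 + algebraMap (𝓞 K) (𝓞 N') lam * s ^ 2 ∧
      d = 1 + 3 * algebraMap (𝓞 K) (𝓞 N) lam * t := by
  set w : 𝓞 N' := algebraMap (𝓞 K) (𝓞 N') omO with hw
  set l : 𝓞 N' := algebraMap (𝓞 K) (𝓞 N') lam with hl
  have hw1 : w ^ 2 + w + 1 = 0 := kum_w N'
  have hw3 : w ^ 3 = 1 := by linear_combination (w - 1) * hw1
  have hwfix : ∀ φ : Gal(N'/N), φ • w = w := fun φ => kum_fixK φ omO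
  have hlfix : ∀ φ : Gal(N'/N), φ • l = l := fun φ => kum_fixK φ lam
  have hlw : l = 1 + 2 * w := by
    rw [hl, hw, lam, map_add, map_one, map_mul, map_ofNat]
  have hl2 : l ^ 2 = -3 := by
    rw [hlw]
    linear_combination 4 * hw1
  have h30 : (3 : 𝓞 N') ≠ 0 := kum_three_ne N'
  have hl0 : l ≠ 0 := by
    intro h
    rw [h] at hl2
    apply h30
    linear_combination hl2
  let J : Ideal (𝓞 N) :=
    { carrier := {y | ∃ τ : 𝓞 N', algebraMap (𝓞 N) (𝓞 N') y = τ + σ • τ + σ ^ 2 • τ}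
      add_mem' := by
        rintro a b ⟨x, hx⟩ ⟨y, hy⟩
        exact ⟨x + y, by rw [map_add, hx, hy, smul_add, smul_add]; ring⟩
      zero_mem' := ⟨0, by rw [map_zero, smul_zero, smul_zero]; ring⟩
      smul_mem' := by
        rintro c x ⟨y, hy⟩
        exact ⟨algebraMap (𝓞 N) (𝓞 N') c * y, by
          rw [smul_eq_mul, map_mul, hy, smul_mul', smul_mul', kum_fixA, kum_fixA]; ring⟩ }
  have hJ : ∀ y : 𝓞 N, y ∈ J ↔
      ∃ τ : 𝓞 N', algebraMap (𝓞 N) (𝓞 N') y = τ + σ • τ + σ ^ 2 • τ := fun y => Iff.rfl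
  have hJtop : J = ⊤ := by
    by_contra hne
    obtain ⟨M, hM, hJM⟩ := Ideal.exists_le_maximal J hne
    have h3J : (3 : 𝓞 N) ∈ J := (hJ 3).mpr ⟨1, by rw [map_ofNat, smul_one, smul_one]; norm_num⟩
    have hMb : M ≠ ⊥ := by
      intro h
      have h1 : (3 : 𝓞 N) ∈ M := hJM h3J
      rw [h, Ideal.mem_bot] at h1
      exact kum_three_ne N h1
    set v : HeightOneSpectrum (𝓞 N) := ⟨M, hM.isPrime, hMb⟩ with hv
    have hvr : ¬ Ram N' v := hu v (hJM h3J)
    obtain ⟨W, hWv⟩ := CF.exists_over (N := N') v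
    have hW : ¬ CF.Ram N' (W.under (𝓞 N)) := by
      rw [hWv]
      exact fun h => hvr ((ram_cf v).mpr h)
    obtain ⟨τ, hτ⟩ := kum_indep hdeg hσ W hW 1 1 1
      (fun h => W.isPrime.ne_top ((Ideal.eq_top_iff_one _).mpr h))
    rw [one_mul, one_mul, one_mul] at hτ
    have hfix : σ • (τ + σ • τ + σ ^ 2 • τ) = τ + σ • τ + σ ^ 2 • τ := by
      rw [smul_add, smul_add, ← mul_smul, ← mul_smul, ← pow_succ', kum_cube hdeg, one_smul,
        ← pow_two]
      ring
    obtain ⟨y, hy⟩ := kum_fixedO hdeg hσ hfix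
    have hyM : y ∈ v.asIdeal := hJM ((hJ y).mpr ⟨τ, hy⟩)
    apply hτ
    rw [← hy]
    have h2 : y ∈ (W.under (𝓞 N)).asIdeal := by
      rw [hWv]
      exact hyM
    exact h2
  obtain ⟨τ, hτ⟩ := (hJ 1).mp (by rw [hJtop]; exact Submodule.mem_top)
  rw [map_one] at hτ
  set θ : 𝓞 N' := τ + w ^ 2 * (σ • τ) + w * (σ ^ 2 • τ) with hθ
  set s : 𝓞 N' := w * (σ • τ) - w ^ 2 * (σ ^ 2 • τ) with hs
  have hσθ : σ • θ = w * θ := by
    rw [hθ, smul_add, smul_add, smul_mul', smul_mul', smul_pow', hwfix,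
      ← mul_smul, ← mul_smul, ← pow_succ', kum_cube hdeg, one_smul, ← pow_two]
    linear_combination (-(σ • τ)) * hw3
  have hθs : θ = 1 + l * s := by
    rw [hθ, hs, hlw]
    linear_combination (-1 : 𝓞 N') * hτ + (-(σ • τ) + (σ ^ 2 • τ) * (2 * w - 1)) * hw1
  have hθ0 : θ ≠ 0 := by
    intro h
    have h1 : 3 * (-(s ^ 2)) = (1 : 𝓞 N') := by
      have h2 : l * s = -1 := by linear_combination h - hθs
      have h3 : l ^ 2 * s ^ 2 = 1 := by
        rw [← mul_pow, h2]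
        ring
      linear_combination h3 - s ^ 2 * hl2
    exact kum_three _ h1
  have hcube : σ • (θ ^ 3) = θ ^ 3 := by
    rw [smul_pow', hσθ, mul_pow, hw3, one_mul]
  obtain ⟨d, hd⟩ := kum_fixedO hdeg hσ hcube
  set tB : 𝓞 N' := s - s ^ 3 + l * s ^ 2 with htB
  have hθt : θ ^ 3 = 1 + 3 * l * tB := by
    rw [hθs, htB]
    linear_combination (l * s ^ 3) * hl2
  have htfix : σ • tB = tB := by
    have h1 : σ • (1 + 3 * l * tB) = 1 + 3 * l * tB := by
      rw [← hθt]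
      exact hcube
    have h33 : σ • (3 : 𝓞 N') = 3 := by
      have := kum_fixA σ (3 : 𝓞 N)
      rwa [map_ofNat] at this
    rw [smul_add, smul_one, smul_mul', smul_mul', hlfix, h33] at h1
    exact mul_left_cancel₀ (mul_ne_zero h30 hl0) (add_left_cancel h1)
  obtain ⟨t, ht⟩ := kum_fixedO hdeg hσ htfix
  refine ⟨θ, s, d, t, ⟨hθ0, hσθ⟩, hd, hθs, ht, ?_⟩
  apply FaithfulSMul.algebraMap_injective (𝓞 N) (𝓞 N')
  rw [map_add, map_mul, map_mul, map_one, map_ofNat, hd, ht,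
    ← IsScalarTower.algebraMap_apply (𝓞 K) (𝓞 N) (𝓞 N'), hθt]

theorem kum_ratio (hdeg : Module.finrank N N' = 3) {σ : Gal(N'/N)} (hσ : σ ≠ 1) {θ : 𝓞 N'}
    (hθ : IsKum σ θ) {d : 𝓞 N} (hd : algebraMap (𝓞 N) (𝓞 N') d = θ ^ 3) {δ : N} {u : N'}
    (hu : u ^ 3 = algebraMap N N' δ) (hδ : δ ≠ 0) (hσu : σ u = algebraMap K N' om * u) :
    ∃ c : N, c ≠ 0 ∧ (d : N) = δ * c ^ 3 := by
  have hδ' : algebraMap N N' δ ≠ 0 := by
    rw [Ne, map_eq_zero]
    exact hδ
  have hu0 : u ≠ 0 := by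
    rintro rfl
    apply hδ'
    rw [← hu]
    ring
  have hθN : σ (θ : N') = algebraMap K N' om * (θ : N') := by
    have h1 := congrArg (fun z : 𝓞 N' => (z : N')) hθ.eq
    exact h1
  have hom0 : algebraMap K N' om ≠ 0 := by
    intro h
    have h1 : (algebraMap K N' om) ^ 2 + algebraMap K N' om + 1 = 0 := omF_eq
    rw [h] at h1
    norm_num at h1
  have hfix : σ ((θ : N') / u) = (θ : N') / u := by
    rw [map_div₀, hθN, hσu, mul_div_mul_left _ _ hom0]
  obtain ⟨c, hc⟩ := kum_fixed hdeg hσ hfix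
  have hθ0 : (θ : N') ≠ 0 := by
    intro h
    exact hθ.ne (RingOfIntegers.ext h)
  refine ⟨c, ?_, ?_⟩
  · rintro rfl
    rw [map_zero] at hc
    exact (div_ne_zero hθ0 hu0) hc.symm
  · apply (algebraMap N N').injective
    rw [map_mul, map_pow, hc, ← hu, div_pow]
    have h1 : algebraMap N N' (d : N) = (θ : N') ^ 3 := by
      have h2 := congrArg (fun z : 𝓞 N' => (z : N')) hd
      exact h2
    rw [h1]
    field_simp

theorem exists_kum_sigma (hdeg : Module.finrank N N' = 3) {δ : N} {u : N'}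
    (hu : u ^ 3 = algebraMap N N' δ) (hn : ¬ ∃ y : N, algebraMap N N' y = u) :
    ∃ σ : Gal(N'/N), σ ≠ 1 ∧ σ u = algebraMap K N' om * u := by
  have h1 : ∃ φ : Gal(N'/N), φ u ≠ u := by
    by_contra hcon
    push Not at hcon
    exact hn ((IsGalois.mem_range_algebraMap_iff_fixed u).mpr hcon)
  obtain ⟨φ, hφ⟩ := h1
  set w : N' := algebraMap K N' om with hw
  have hw1 : w ^ 2 + w + 1 = 0 := omF_eq
  have hwfix : φ w = w := by
    rw [hw, IsScalarTower.algebraMap_apply K N N']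
    exact φ.commutes _
  have hcube : (φ u) ^ 3 = u ^ 3 := by
    rw [← map_pow, hu]
    exact φ.commutes _
  have hfac : (φ u - u) * ((φ u - w * u) * (φ u - w ^ 2 * u)) = 0 := by
    linear_combination hcube + (-(φ u) ^ 2 * u + φ u * u ^ 2 * w - u ^ 3 * (w - 1) +
      0) * hw1
  have hne : φ u - u ≠ 0 := sub_ne_zero.mpr hφ
  have hφ1 : φ ≠ 1 := by
    rintro rfl
    exact hφ rfl
  rcases mul_eq_zero.mp ((mul_eq_zero.mp hfac).resolve_left hne) with h | h
  · exact ⟨φ, hφ1, sub_eq_zero.mp h⟩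
  · have h2 : φ u = w ^ 2 * u := sub_eq_zero.mp h
    refine ⟨φ ^ 2, ?_, ?_⟩
    · intro h3
      apply hφ1
      have h4 := kum_cube hdeg φ
      rw [pow_succ, h3, one_mul] at h4
      exact h4
    · rw [pow_two]
      change φ (φ u) = w * u
      rw [h2, map_mul, map_pow, hwfix, h2]
      linear_combination (w * u * (w - 1)) * hw1

end

end Pool.Agent.Lib.MP_1a91b9_ntT3.CU
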